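import Mathlib

/-!
# Lemma B for MP_18bf68_lc: nodes
-/

namespace QG

namespace Nodes

/-- The value at the node. -/
def E (A B C L j : ℤ) : ℤ := 1 + 2 * B * L * j + C * A * L ^ 2 * j ^ 2

lemma E_pos (A B C L j : ℤ) (hA : 0 < A) (hC : 0 < C) (hd : B ^ 2 < A * C) :
    0 < E A B C L j := by
  have h1 : (C * A) * E A B C L j = (C * A * L * j + B) ^ 2 + (A * C - B ^ 2) := by
    unfold E; ring
  have h2 : 0 < (C * A) * E A B C L j := by
    nlinarith [sq_nonneg (C * A * L * j + B)]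
  have h3 : 0 < C * A := mul_pos hC hA
  exact (mul_pos_iff_of_pos_left h3).1 h2

lemma E_coprime (A B C : ℤ) (hA : 0 < A) (hC : 0 < C) (hd : B ^ 2 < A * C) (M : ℕ) (u v : ℤ)
    (hu : 0 < u) (hv : 0 < v) (huv : u ≠ v) (h1 : |u - v| ≤ M)
    (h2 : C * A * (u - v) ^ 2 + 4 * (C * A - B ^ 2) * (u * v) ≤ M) :
    Nat.Coprime (E A B C (M.factorial : ℤ) u).natAbs (E A B C (M.factorial : ℤ) v).natAbs := by
  by_contra hcon
  obtain ⟨p, hp, hpu, hpv⟩ := Nat.Prime.not_coprime_iff_dvd.1 hcon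
  have hpu' : (p : ℤ) ∣ E A B C (M.factorial : ℤ) u := Int.natCast_dvd.2 hpu
  have hpv' : (p : ℤ) ∣ E A B C (M.factorial : ℤ) v := Int.natCast_dvd.2 hpv
  set L : ℤ := (M.factorial : ℤ) with hL
  have hpZ : Prime (p : ℤ) := Nat.prime_iff_prime_int.1 hp
  have hpL : ¬ (p : ℤ) ∣ L := by
    intro h
    have h3 : (p : ℤ) ∣ E A B C L u - L * (2 * B * u + C * A * L * u ^ 2) :=
      dvd_sub hpu' (h.mul_right _)
    have h4 : E A B C L u - L * (2 * B * u + C * A * L * u ^ 2) = 1 := by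
      unfold E; ring
    rw [h4] at h3
    exact hpZ.not_dvd_one h3
  have small : ∀ t : ℤ, 0 < t → t ≤ M → ¬ (p : ℤ) ∣ t := by
    intro t ht htM hpt
    apply hpL
    have h5 : (p : ℤ) ≤ t := Int.le_of_dvd ht hpt
    have h6 : p ≤ M := by exact_mod_cast h5.trans htM
    rw [hL]
    exact_mod_cast (Nat.dvd_factorial hp.pos h6)
  have h7 : (p : ℤ) ∣ L * ((u - v) * (2 * B + C * A * L * (u + v))) := by
    have h8 := dvd_sub hpu' hpv'
    have h9 : E A B C L u - E A B C L v = L * ((u - v) * (2 * B + C * A * L * (u + v))) := by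
      unfold E; ring
    rwa [h9] at h8
  rcases hpZ.dvd_or_dvd h7 with h | h
  · exact hpL h
  rcases hpZ.dvd_or_dvd h with h | h
  · refine small |u - v| (abs_pos.2 (sub_ne_zero.2 huv)) h1 ?_
    exact (dvd_abs _ _).2 h
  · have h10 : (p : ℤ) ∣ 1 - C * A * L ^ 2 * (u * v) := by
      have h11 : 1 - C * A * L ^ 2 * (u * v) =
          E A B C L u - (2 * B + C * A * L * (u + v)) * (L * u) := by
        unfold E; ring
      rw [h11]
      exact dvd_sub hpu' (h.mul_right _)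
    have h12 : (p : ℤ) ∣ C * A * (u - v) ^ 2 + 4 * (C * A - B ^ 2) * (u * v) := by
      have h13 : C * A * (u - v) ^ 2 + 4 * (C * A - B ^ 2) * (u * v) =
          (2 * B + C * A * L * (u + v)) * ((C * A * L * (u + v) - 2 * B) * (u * v)) +
          (1 - C * A * L ^ 2 * (u * v)) * (C * A * (u - v) ^ 2 + 4 * C * A * (u * v)) := by
        ring
      rw [h13]
      exact dvd_add (h.mul_right _) (h10.mul_right _)
    have h14 : 0 < C * A * (u - v) ^ 2 + 4 * (C * A - B ^ 2) * (u * v) := by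
      have h15 : 0 < u * v := mul_pos hu hv
      have h16 : 0 < C * A := mul_pos hC hA
      have h17 : 0 < C * A - B ^ 2 := by nlinarith
      have h18 : 0 ≤ C * A * (u - v) ^ 2 := mul_nonneg h16.le (sq_nonneg _)
      have h19 : 0 < (C * A - B ^ 2) * (u * v) := mul_pos h17 h15
      nlinarith
    exact small _ h14 h2 h12

lemma E_not_both_square (A B C : ℤ) (hA : 0 < A) (hC : 0 < C) (hd : B ^ 2 < A * C) (L : ℤ)
    (hL : 0 < L) (j : ℤ) (hj : |B| + (C * A - B ^ 2) + 1 ≤ j) :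
    ¬ (IsSquare (E A B C L j) ∧ IsSquare (E A B C L (j + 1))) := by
  rintro ⟨⟨a, ha⟩, ⟨b, hb⟩⟩
  set D : ℤ := C * A - B ^ 2 with hD
  have hDpos : 0 < D := by rw [hD]; nlinarith
  set P : ℤ := C * A * L with hP
  have hCA : 0 < C * A := mul_pos hC hA
  have hPpos : 0 < P := mul_pos hCA hL
  set X : ℤ := P * j + B with hX
  set Y : ℤ := P * (j + 1) + B with hY
  have h1 : (C * A * (a * b)) ^ 2 = (X * Y + D) ^ 2 + D * P ^ 2 := by
    have e1 : (C * A * (a * b)) ^ 2 = (C * A * (a * a)) * (C * A * (b * b)) := by ring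
    rw [e1, ← ha, ← hb]
    unfold E
    rw [hX, hY, hD, hP]
    ring
  have hB : -|B| ≤ B := neg_abs_le B
  have hBn : 0 ≤ |B| := abs_nonneg B
  have hX' : P * (D + 1) ≤ X := by
    have : P * (|B| + D + 1) ≤ P * j := mul_le_mul_of_nonneg_left hj hPpos.le
    have h3 : |B| ≤ P * |B| := by nlinarith
    rw [hX]; nlinarith
  have hY' : P * (D + 1) ≤ Y := by
    have : Y = X + P := by rw [hX, hY]; ring
    nlinarith
  have hXY : P ^ 2 * (D + 1) ^ 2 ≤ X * Y := by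
    have h0 : 0 ≤ P * (D + 1) := by positivity
    have := mul_le_mul hX' hY' h0 (h0.trans hX')
    nlinarith
  have hXY2 : D * P ^ 2 ≤ X * Y := by
    have h8 : D ≤ (D + 1) ^ 2 := by nlinarith
    have : D * P ^ 2 ≤ (D + 1) ^ 2 * P ^ 2 := mul_le_mul_of_nonneg_right h8 (sq_nonneg P)
    linarith
  have hDP : 0 < D * P ^ 2 := mul_pos hDpos (pow_pos hPpos 2)
  have hXYD : 0 < X * Y + D := by linarith
  have hlow : (X * Y + D) ^ 2 < (C * A * (a * b)) ^ 2 := by
    rw [h1]; linarith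
  have hhigh : (C * A * (a * b)) ^ 2 < (X * Y + D + 1) ^ 2 := by
    rw [h1]
    have : (X * Y + D + 1) ^ 2 = (X * Y + D) ^ 2 + 2 * (X * Y + D) + 1 := by ring
    rw [this]; linarith
  have h5 : |X * Y + D| < |C * A * (a * b)| := sq_lt_sq.1 hlow
  have h6 : |C * A * (a * b)| < |X * Y + D + 1| := sq_lt_sq.1 hhigh
  rw [abs_of_pos hXYD] at h5
  rw [abs_of_pos (by linarith : 0 < X * Y + D + 1)] at h6
  omega

end Nodes

/-- **B** (number theory). -/
theorem exists_nodes (A B C : ℤ) (hA : 0 < A) (hC : 0 < C) (hd : B ^ 2 < A * C) :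
    ∃ K : ℕ, ∀ n : ℕ, 1 ≤ n → ∃ (x : Fin n → ℕ) (q : Fin n → ℕ), StrictMono x ∧
      (∀ i, n ≤ x i) ∧ (∀ i, x i ≤ 2 ^ (K * n ^ 3)) ∧
      (∀ i, A + 2 * B * (x i : ℤ) + C * (x i : ℤ) ^ 2 = A * (q i : ℤ)) ∧
      Pairwise (fun i j => Nat.Coprime (q i) (q j)) ∧ ∀ i, ¬ IsSquare (q i) := by
  obtain ⟨a, rfl⟩ := Int.eq_ofNat_of_zero_le hA.le
  obtain ⟨c, hc⟩ := Int.eq_ofNat_of_zero_le (mul_pos hC hA).le
  have hdpos : 0 < C * (a : ℤ) - B ^ 2 := by nlinarith
  obtain ⟨j0, hj0⟩ := Int.eq_ofNat_of_zero_le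
    (show 0 ≤ |B| + (C * (a : ℤ) - B ^ 2) + 1 by have := abs_nonneg B; linarith)
  have hj0pos : 1 ≤ j0 := by
    have : (1 : ℤ) ≤ j0 := by
      rw [← hj0]; have := abs_nonneg B; linarith
    exact_mod_cast this
  have hapos : 0 < a := by exact_mod_cast hA
  have hcpos : 0 < c := by
    have : (0 : ℤ) < c := by rw [← hc]; exact mul_pos hC hA
    exact_mod_cast this
  set c1 : ℕ := 5 * c * (2 + j0) ^ 2 with hc1
  refine ⟨a + c1 * (c1 + 2) + (2 + j0), fun n hn => ?_⟩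
  set J : ℕ := 2 * n + j0 with hJ
  set M : ℕ := 5 * c * J ^ 2 with hM
  have hLpos : (0 : ℤ) < (M.factorial : ℤ) := by exact_mod_cast M.factorial_pos
  have hchoice : ∀ i : Fin n, ∃ j : ℕ, (2 * (i : ℕ) + j0 ≤ j ∧ j ≤ 2 * (i : ℕ) + 1 + j0) ∧
      ¬ IsSquare (Nodes.E a B C (M.factorial : ℤ) j) := by
    intro i
    have h := Nodes.E_not_both_square a B C hA hC hd (M.factorial : ℤ) hLpos
      (((2 * (i : ℕ) + j0 : ℕ)) : ℤ) (by rw [hj0]; push_cast; linarith [Int.natCast_nonneg (i : ℕ)])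
    by_cases h1 : IsSquare (Nodes.E a B C (M.factorial : ℤ) ((2 * (i : ℕ) + j0 : ℕ) : ℤ))
    · refine ⟨2 * (i : ℕ) + j0 + 1, ⟨by omega, by omega⟩, fun h2 => h ⟨h1, ?_⟩⟩
      push_cast at h2 ⊢
      exact h2
    · exact ⟨_, ⟨le_rfl, by omega⟩, h1⟩
  choose j hj hjs using hchoice
  have hjJ : ∀ i, j i ≤ J := fun i => by
    have := (hj i).2
    have := i.2
    omega
  have hjpos : ∀ i, 1 ≤ j i := fun i => by
    have := (hj i).1
    omega
  have hjmono : StrictMono j := by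
    intro i k hik
    have h1 := (hj i).2
    have h2 := (hj k).1
    have h3 : (i : ℕ) < k := hik
    omega
  have hEpos : ∀ i, 0 < Nodes.E a B C (M.factorial : ℤ) (j i) := fun i =>
    Nodes.E_pos a B C _ _ hA hC hd
  refine ⟨fun i => a * M.factorial * j i,
    fun i => (Nodes.E a B C (M.factorial : ℤ) (j i)).natAbs, ?_, ?_, ?_, ?_, ?_, ?_⟩
  · intro i k hik
    have h1 : 0 < a * M.factorial := Nat.mul_pos hapos M.factorial_pos
    exact Nat.mul_lt_mul_of_pos_left (hjmono hik) h1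
  · intro i
    have h1 : n ≤ M := by
      rw [hM, hJ]
      have h2 : n ≤ (2 * n + j0) ^ 2 := by nlinarith
      have h3 : (2 * n + j0) ^ 2 ≤ 5 * c * (2 * n + j0) ^ 2 :=
        Nat.le_mul_of_pos_left _ (by omega)
      omega
    have h4 : M ≤ M.factorial := Nat.self_le_factorial M
    calc n ≤ M.factorial := h1.trans h4
      _ ≤ a * M.factorial := Nat.le_mul_of_pos_left _ hapos
      _ ≤ a * M.factorial * j i := Nat.le_mul_of_pos_right _ (hjpos i)
  · intro i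
    have hJn : J ≤ (2 + j0) * n := by rw [hJ]; nlinarith
    have hMn : M ≤ c1 * n ^ 2 := by
      rw [hM, hc1]
      calc 5 * c * J ^ 2 ≤ 5 * c * ((2 + j0) * n) ^ 2 :=
            Nat.mul_le_mul_left _ (Nat.pow_le_pow_left hJn 2)
        _ = 5 * c * (2 + j0) ^ 2 * n ^ 2 := by ring
    have hM2 : M ≤ 2 ^ ((c1 + 2) * n) := by
      calc M ≤ c1 * n ^ 2 := hMn
        _ ≤ 2 ^ c1 * (2 ^ n) ^ 2 :=
            Nat.mul_le_mul c1.lt_two_pow_self.le (Nat.pow_le_pow_left n.lt_two_pow_self.le 2)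
        _ = 2 ^ (c1 + 2 * n) := by rw [← pow_mul, ← pow_add]; ring_nf
        _ ≤ 2 ^ ((c1 + 2) * n) := Nat.pow_le_pow_right (by norm_num) (by nlinarith)
    have hL2 : M.factorial ≤ 2 ^ (c1 * (c1 + 2) * n ^ 3) := by
      calc M.factorial ≤ M ^ M := Nat.factorial_le_pow M
        _ ≤ (2 ^ ((c1 + 2) * n)) ^ M := Nat.pow_le_pow_left hM2 M
        _ = 2 ^ ((c1 + 2) * n * M) := by rw [← pow_mul]
        _ ≤ 2 ^ ((c1 + 2) * n * (c1 * n ^ 2)) :=
            Nat.pow_le_pow_right (by norm_num) (Nat.mul_le_mul_left _ hMn)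
        _ = 2 ^ (c1 * (c1 + 2) * n ^ 3) := by ring_nf
    have hj2 : j i ≤ 2 ^ ((2 + j0) * n) :=
      ((hjJ i).trans hJn).trans (Nat.lt_two_pow_self).le
    have hn3 : n ≤ n ^ 3 := Nat.le_self_pow (by norm_num) n
    calc a * M.factorial * j i ≤ 2 ^ a * 2 ^ (c1 * (c1 + 2) * n ^ 3) * 2 ^ ((2 + j0) * n) :=
          Nat.mul_le_mul (Nat.mul_le_mul a.lt_two_pow_self.le hL2) hj2
      _ = 2 ^ (a + c1 * (c1 + 2) * n ^ 3 + (2 + j0) * n) := by rw [← pow_add, ← pow_add]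
      _ ≤ 2 ^ ((a + c1 * (c1 + 2) + (2 + j0)) * n ^ 3) := by
          apply Nat.pow_le_pow_right (by norm_num)
          have h1 : a ≤ a * n ^ 3 := Nat.le_mul_of_pos_right _ (by positivity)
          have h2 : (2 + j0) * n ≤ (2 + j0) * n ^ 3 := Nat.mul_le_mul_left _ hn3
          have h3 : (a + c1 * (c1 + 2) + (2 + j0)) * n ^ 3 =
            a * n ^ 3 + c1 * (c1 + 2) * n ^ 3 + (2 + j0) * n ^ 3 := by ring
          omega
  · intro i
    rw [Int.natAbs_of_nonneg (hEpos i).le]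
    push_cast
    unfold Nodes.E
    ring
  · intro i k hik
    have hjik : (j i : ℤ) ≠ (j k : ℤ) := by
      exact_mod_cast fun h => hik (hjmono.injective h)
    refine Nodes.E_coprime a B C hA hC hd M (j i) (j k) (by exact_mod_cast hjpos i)
      (by exact_mod_cast hjpos k) hjik ?_ ?_
    · have h1 : (j i : ℤ) ≤ J := by exact_mod_cast hjJ i
      have h2 : (j k : ℤ) ≤ J := by exact_mod_cast hjJ k
      have h3 : (J : ℤ) ≤ M := by
        have : J ≤ M := by
          rw [hM]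
          calc J ≤ J ^ 2 := Nat.le_self_pow (by norm_num) J
            _ ≤ 5 * c * J ^ 2 := Nat.le_mul_of_pos_left _ (by omega)
        exact_mod_cast this
      rw [abs_le]
      constructor <;> linarith [Int.natCast_nonneg (j i), Int.natCast_nonneg (j k)]
    · have h1 : (j i : ℤ) ≤ J := by exact_mod_cast hjJ i
      have h2 : (j k : ℤ) ≤ J := by exact_mod_cast hjJ k
      have h1' := Int.natCast_nonneg (j i)
      have h2' := Int.natCast_nonneg (j k)
      have hMz : (M : ℤ) = 5 * c * (J : ℤ) ^ 2 := by rw [hM]; push_cast; ring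
      have h3 : ((j i : ℤ) - j k) ^ 2 ≤ (J : ℤ) ^ 2 := by
        apply sq_le_sq'
        · linarith
        · linarith
      have h4 : (j i : ℤ) * j k ≤ (J : ℤ) ^ 2 := by nlinarith
      have h5 : 0 ≤ (j i : ℤ) * j k := mul_nonneg h1' h2'
      have hcz : (0 : ℤ) < c := by exact_mod_cast hcpos
      rw [hMz, hc]
      have h6 : (c : ℤ) * ((j i : ℤ) - j k) ^ 2 ≤ c * (J : ℤ) ^ 2 :=
        mul_le_mul_of_nonneg_left h3 hcz.le
      have h7 : ((c : ℤ) - B ^ 2) * ((j i : ℤ) * j k) ≤ c * (J : ℤ) ^ 2 := by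
        calc ((c : ℤ) - B ^ 2) * ((j i : ℤ) * j k) ≤ c * ((j i : ℤ) * j k) :=
              mul_le_mul_of_nonneg_right (by nlinarith [sq_nonneg B]) h5
          _ ≤ c * (J : ℤ) ^ 2 := mul_le_mul_of_nonneg_left h4 hcz.le
      linarith
  · rintro i ⟨r, hr⟩
    apply hjs i
    refine ⟨(r : ℤ), ?_⟩
    have h1 : ((Nodes.E a B C (M.factorial : ℤ) (j i)).natAbs : ℤ) = (r : ℤ) * r := by
      exact_mod_cast hr
    rwa [Int.natAbs_of_nonneg (hEpos i).le] at h1

end QG
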