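import Pool.Agent.Lib_helper2.QG.Chain
import Pool.Agent.Lib_helper56.QGNodes

/-!
# Block C for MP_18bf68_lc: construction of the convex chain
-/

namespace QG

namespace MkChain

/-- partial sums -/
def S (X : ℕ → ℕ) (k : ℕ) : ℕ := ∑ i ∈ Finset.range k, X i

/-- first coefficient -/
def P (s n : ℕ) : ℕ → ℕ
  | 0 => 1
  | 1 => s
  | (j + 2) => if j ≤ n then 1 else 0

/-- second coefficient -/
def Q (t n : ℕ) (X : ℕ → ℕ) : ℕ → ℕ
  | 0 => 0
  | 1 => t
  | (j + 2) => if j ≤ n then X j else 1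

/-- numerators of the first coordinates of the kinks -/
def al (t M : ℕ) (X : ℕ → ℕ) : ℕ → ℕ
  | 0 => 0
  | (k + 1) => t * M + S X k

/-- numerators of the second coordinates of the kinks -/
def be (s M n : ℕ) : ℕ → ℕ
  | 0 => n + 1 + s * M
  | (k + 1) => n + 1 - k

/-- numerators of the constants -/
def cc (s t M n : ℕ) (X : ℕ → ℕ) : ℕ → ℕ
  | 0 => 0
  | 1 => t * (n + 1 + s * M)
  | (j + 2) => if j ≤ n then t * M + S X j + X j * (n + 1 - j) else 0

/-- The chain. -/
noncomputable def mk (κ : ℝ) (s t M n : ℕ) (X : ℕ → ℕ) (l0 : ℝ) (hl : 0 < l0) (hs : 1 ≤ s)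
    (ht : 1 ≤ t) (hM : 1 ≤ M) (hX : ∀ j ≤ n, t < X j) (hXm : ∀ i j, i < j → j ≤ n → X i < X j)
    (hc : ∀ i ≤ n + 3, l0 * (cc s t M n X i : ℝ) ≤ κ) : Chain κ (n + 2) where
  P := fun i => (P s n i : ℝ)
  Q := fun i => (Q t n X i : ℝ)
  c := fun i => l0 * (cc s t M n X i : ℝ)
  α := fun i => l0 * (al t M X i : ℝ)
  β := fun i => l0 * (be s M n i : ℝ)
  P0 := by simp [P]
  Q0 := by simp [Q]
  Pm := by
    have : P s n (n + 2 + 1) = 0 := by
      show (if n + 1 ≤ n then 1 else 0) = 0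
      simp
    simp [this]
  Qm := by
    have : Q t n X (n + 2 + 1) = 1 := by
      show (if n + 1 ≤ n then X (n + 1) else 1) = 1
      simp
    simp [this]
  c0 := by simp [cc]
  cm := by
    have : cc s t M n X (n + 2 + 1) = 0 := by
      show (if n + 1 ≤ n then _ else 0) = 0
      simp
    simp [this]
  Ppos := by
    intro i hi
    have : 1 ≤ P s n i := by
      match i, hi with
      | 0, _ => simp [P]
      | 1, _ => simpa [P] using hs
      | (j + 2), h => simp only [P]; rw [if_pos (by omega)]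
    exact_mod_cast this
  Qpos := by
    intro i h1 hi
    have : 1 ≤ Q t n X i := by
      match i, h1, hi with
      | 1, _, _ => simpa [Q] using ht
      | (j + 2), _, h =>
        simp only [Q]
        split_ifs with h2
        · have := hX j h2; omega
        · exact le_rfl
    exact_mod_cast this
  on1 := by
    intro i hi
    have : P s n i * al t M X i + Q t n X i * be s M n i = cc s t M n X i := by
      match i, hi with
      | 0, _ => simp [P, Q, al, cc]
      | 1, _ =>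
        simp only [P, Q, al, be, cc, S, Finset.range_zero, Finset.sum_empty]
        simp
        ring
      | (j + 2), h =>
        simp only [P, Q, al, be, cc]
        rw [if_pos (by omega), if_pos (by omega), if_pos (by omega)]
        rw [show S X (j + 1) = S X j + X j from Finset.sum_range_succ _ _]
        have h3 : n + 1 - j = (n + 1 - (j + 1)) + 1 := by omega
        rw [h3]
        ring
    have h2 : (P s n i : ℝ) * (al t M X i : ℝ) + (Q t n X i : ℝ) * (be s M n i : ℝ) =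
        (cc s t M n X i : ℝ) := by exact_mod_cast this
    rw [← h2]; ring
  on2 := by
    intro i hi
    have : P s n (i + 1) * al t M X i + Q t n X (i + 1) * be s M n i =
        cc s t M n X (i + 1) := by
      match i, hi with
      | 0, _ => simp [P, Q, al, be, cc]
      | (j + 1), h =>
        show P s n (j + 2) * _ + Q t n X (j + 2) * _ = cc s t M n X (j + 2)
        simp only [P, Q, al, be, cc]
        by_cases h2 : j ≤ n
        · rw [if_pos h2, if_pos h2, if_pos h2]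
          ring
        · rw [if_neg h2, if_neg h2, if_neg h2]
          have : n + 1 - j = 0 := by omega
          simp [this]
    have h2 : (P s n (i + 1) : ℝ) * (al t M X i : ℝ) + (Q t n X (i + 1) : ℝ) * (be s M n i : ℝ) =
        (cc s t M n X (i + 1) : ℝ) := by exact_mod_cast this
    rw [← h2]; ring
  cle := hc
  cross := by
    intro i j hij hj
    have : P s n j * Q t n X i < P s n i * Q t n X j := by
      match i, j, hij, hj with
      | 0, 1, _, _ => simp [P, Q]; omega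
      | 0, (b + 2), _, h =>
        simp only [P, Q, mul_zero, one_mul]
        split_ifs with h2
        · have := hX b h2; omega
        · exact Nat.one_pos
      | 1, (b + 2), _, h =>
        simp only [P, Q]
        split_ifs with h2
        · have h3 := hX b h2
          have : X b ≤ s * X b := Nat.le_mul_of_pos_left _ (by omega)
          omega
        · omega
      | (a + 2), (b + 2), h1, h =>
        have h2 : a ≤ n := by omega
        simp only [P, Q, if_pos h2]
        split_ifs with h3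
        · have := hXm a b (by omega) h3; omega
        · omega
    exact_mod_cast this
  step := by
    intro i hi
    match i, hi with
    | 0, _ =>
      refine ⟨l0 * M, mul_pos hl (by exact_mod_cast hM), ?_, ?_⟩
      · show l0 * ((t * M + S X 0 : ℕ) : ℝ) - l0 * ((0 : ℕ) : ℝ) = l0 * M * (t : ℝ)
        simp [S]
        ring
      · show l0 * ((n + 1 - 0 : ℕ) : ℝ) - l0 * ((n + 1 + s * M : ℕ) : ℝ) = -(l0 * M * (s : ℝ))
        push_cast [Nat.sub_zero]
        ring
    | (j + 1), h =>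
      have h2 : j ≤ n := by omega
      refine ⟨l0, hl, ?_, ?_⟩
      · show l0 * ((t * M + S X (j + 1) : ℕ) : ℝ) - l0 * ((t * M + S X j : ℕ) : ℝ) =
          l0 * ((if j ≤ n then X j else 1 : ℕ) : ℝ)
        rw [if_pos h2, show S X (j + 1) = S X j + X j from Finset.sum_range_succ _ _]
        push_cast
        ring
      · show l0 * ((n + 1 - (j + 1) : ℕ) : ℝ) - l0 * ((n + 1 - j : ℕ) : ℝ) =
          -(l0 * ((if j ≤ n then 1 else 0 : ℕ) : ℝ))
        rw [if_pos h2]
        have h3 : n + 1 - j = (n + 1 - (j + 1)) + 1 := by omega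
        rw [h3]
        push_cast
        ring

lemma cc_le (s t M n : ℕ) (X : ℕ → ℕ) (Y : ℕ) (hX : ∀ j ≤ n, X j ≤ Y) (h1 : n + 1 ≤ M)
    (h2 : (n + 1) * Y ≤ M) (i : ℕ) : cc s t M n X i ≤ (t + 1) * (s + 1) * M := by
  match i with
  | 0 => simp [cc]
  | 1 =>
    show t * (n + 1 + s * M) ≤ _
    calc t * (n + 1 + s * M) ≤ (t + 1) * (M + s * M) :=
          Nat.mul_le_mul (by omega) (by omega)
      _ = (t + 1) * (s + 1) * M := by ring
  | (j + 2) =>
    simp only [cc]
    split_ifs with h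
    · have h3 : S X j ≤ j * Y := by
        calc S X j ≤ ∑ _i ∈ Finset.range j, Y := by
              apply Finset.sum_le_sum
              intro k hk
              exact hX k (by have := Finset.mem_range.1 hk; omega)
          _ = j * Y := by simp
      have h4 : X j * (n + 1 - j) ≤ Y * (n + 1 - j) := Nat.mul_le_mul_right _ (hX j h)
      have h5 : j * Y + Y * (n + 1 - j) = (n + 1) * Y := by
        obtain ⟨k, hk⟩ : ∃ k, n + 1 = j + k := ⟨n + 1 - j, by omega⟩
        rw [hk, Nat.add_sub_cancel_left]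
        ring
      calc t * M + S X j + X j * (n + 1 - j) ≤ t * M + M := by omega
        _ = (t + 1) * 1 * M := by ring
        _ ≤ (t + 1) * (s + 1) * M :=
          Nat.mul_le_mul_right _ (Nat.mul_le_mul_left _ (by omega))
    · exact Nat.zero_le _

lemma P_le (s t M n : ℕ) (hM : 1 ≤ M) (i : ℕ) : P s n i ≤ (t + 1) * (s + 1) * M := by
  have h1 : s + 1 ≤ (t + 1) * (s + 1) * M := by
    calc s + 1 = 1 * (s + 1) * 1 := by ring
      _ ≤ (t + 1) * (s + 1) * M := Nat.mul_le_mul (Nat.mul_le_mul_right _ (by omega)) hM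
  have h2 : P s n i ≤ s + 1 := by
    match i with
    | 0 => simp [P]
    | 1 => simp [P]
    | (j + 2) =>
      simp only [P]
      split_ifs <;> omega
  omega

lemma Q_le (s t M n : ℕ) (X : ℕ → ℕ) (Y : ℕ) (hX : ∀ j ≤ n, X j ≤ Y) (hM : 1 ≤ M)
    (h2 : (n + 1) * Y ≤ M) (i : ℕ) : Q t n X i ≤ (t + 1) * (s + 1) * M := by
  have h1 : (t + 1) * M ≤ (t + 1) * (s + 1) * M := by
    calc (t + 1) * M = (t + 1) * 1 * M := by ring
      _ ≤ (t + 1) * (s + 1) * M :=
        Nat.mul_le_mul_right _ (Nat.mul_le_mul_left _ (by omega))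
  have h3 : t + 1 ≤ (t + 1) * M := Nat.le_mul_of_pos_right _ hM
  have h4 : M ≤ (t + 1) * M := Nat.le_mul_of_pos_left _ (by omega)
  have h5 : Y ≤ M := by
    calc Y ≤ (n + 1) * Y := Nat.le_mul_of_pos_left _ (by omega)
      _ ≤ M := h2
  match i with
  | 0 => simp [Q]
  | 1 => simp only [Q]; omega
  | (j + 2) =>
    simp only [Q]
    split_ifs with h
    · have := hX j h; omega
    · omega

end MkChain

open MkChain in
/-- **C** (chain construction). -/
theorem exists_chain (A B C : ℤ) (hA : 0 < A) (hC : 0 < C) (hd : B ^ 2 < A * C) (κ : ℝ)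
    (hκ : 0 < κ) :
    ∃ K : ℕ, ∀ n : ℕ, K ≤ n → ∃ (c : Chain κ (n + 2)) (q : Fin (n + 1) → ℕ) (l : ℝ), 0 < l ∧
      c.Blunt (A : ℝ) (B : ℝ) (C : ℝ) ∧ Pairwise (fun i j => Nat.Coprime (q i) (q j)) ∧
      (∀ i, ¬ IsSquare (q i)) ∧
      (∀ j : Fin (n + 1), (C : ℝ) * (c.α (j + 2) - c.α (j + 1)) ^ 2 -
        2 * B * (c.α (j + 2) - c.α (j + 1)) * (c.β (j + 2) - c.β (j + 1)) +
        A * (c.β (j + 2) - c.β (j + 1)) ^ 2 = l ^ 2 * (q j : ℝ)) ∧
      ∃ Λ : ℤ, 1 ≤ Λ ∧ Λ ≤ 2 ^ (K * n ^ 3) ∧ ∀ i ≤ n + 3, ∃ P Q c' : ℤ, c.P i = P ∧ c.Q i = Q ∧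
        (Λ : ℝ) * c.c i = c' ∧ |P| ≤ 2 ^ (K * n ^ 3) ∧ |Q| ≤ 2 ^ (K * n ^ 3) ∧
        |c'| ≤ 2 ^ (K * n ^ 3) := by
  obtain ⟨K0, hK0⟩ := exists_nodes A B C hA hC hd
  set b : ℕ := B.natAbs with hb
  set s : ℕ := b + C.toNat with hs
  set t : ℕ := A.toNat + b with ht
  have hsZ : (s : ℤ) = |B| + C := by
    rw [hs, hb]; push_cast [Int.toNat_of_nonneg hC.le]
    rfl
  have htZ : (t : ℤ) = A + |B| := by
    rw [ht, hb]; push_cast [Int.toNat_of_nonneg hA.le]
    rfl
  have hbZ : (b : ℤ) = |B| := by rw [hb]; simp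
  have hB0 := abs_nonneg B
  have hs1 : 1 ≤ s := by zify; rw [hsZ]; linarith
  have ht1 : 1 ≤ t := by zify; rw [htZ]; linarith
  set D : ℕ := (t + 1) * (s + 1) with hD
  obtain ⟨r, hr⟩ : ∃ r : ℕ, (D : ℝ) / κ < 2 ^ r :=
    pow_unbounded_of_one_lt _ (by norm_num)
  set K : ℕ := 8 * K0 + 2 + r + D + t + 2 * b + 1 with hK
  refine ⟨K, fun n hn => ?_⟩
  obtain ⟨x, q, hmono, hlow, hup, heq, hcop, hns⟩ := hK0 (n + 1) (by omega)
  set X : ℕ → ℕ := fun j => if h : j < n + 1 then x ⟨j, h⟩ else 0 with hX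
  have hXx : ∀ j (h : j < n + 1), X j = x ⟨j, h⟩ := fun j h => by rw [hX]; simp [h]
  set e : ℕ := K0 * (n + 1) ^ 3 + (n + 1) with he
  set M : ℕ := 2 ^ e with hM
  set Y : ℕ := 2 ^ (K0 * (n + 1) ^ 3) with hY
  have hM1 : 1 ≤ M := Nat.one_le_two_pow
  have hXY : ∀ j ≤ n, X j ≤ Y := fun j hj => by
    rw [hXx j (by omega)]; exact hup _
  have hXlow : ∀ j ≤ n, n + 1 ≤ X j := fun j hj => by
    rw [hXx j (by omega)]; exact hlow _
  have hXt : ∀ j ≤ n, t < X j := fun j hj => by
    have := hXlow j hj; omega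
  have hXm : ∀ i j, i < j → j ≤ n → X i < X j := fun i j hij hj => by
    rw [hXx i (by omega), hXx j (by omega)]
    exact hmono (by simpa using hij)
  have hnY : (n + 1) * Y ≤ M := by
    rw [hM, he, pow_add, mul_comm]
    exact Nat.mul_le_mul_left _ (Nat.lt_two_pow_self).le
  have hnM : n + 1 ≤ M := by
    calc n + 1 ≤ (n + 1) * Y := Nat.le_mul_of_pos_right _ (Nat.pos_of_ne_zero (by positivity))
      _ ≤ M := hnY
  set l0 : ℝ := 1 / 2 ^ (e + r) with hl0
  have hl : 0 < l0 := by positivity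
  have hcc : ∀ i, cc s t M n X i ≤ D * M := fun i => cc_le s t M n X Y hXY hnM hnY i
  have hcκ : ∀ i ≤ n + 3, l0 * (cc s t M n X i : ℝ) ≤ κ := by
    intro i _
    have h1 : (cc s t M n X i : ℝ) ≤ D * 2 ^ e := by
      have := hcc i
      rw [hM] at this
      exact_mod_cast this
    have h2 : (D : ℝ) ≤ κ * 2 ^ r := by
      rw [div_lt_iff₀ hκ] at hr
      linarith
    calc l0 * (cc s t M n X i : ℝ) ≤ l0 * (D * 2 ^ e) := mul_le_mul_of_nonneg_left h1 hl.le
      _ ≤ l0 * (κ * 2 ^ r * 2 ^ e) :=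
        mul_le_mul_of_nonneg_left (mul_le_mul_of_nonneg_right h2 (by positivity)) hl.le
      _ = κ := by
        rw [hl0, pow_add]
        field_simp
  -- exponents
  have hexp : e + r + D ≤ K * n ^ 3 := by
    have hn1 : 1 ≤ n := by omega
    have h1 : (n + 1) ^ 3 ≤ 8 * n ^ 3 := by
      calc (n + 1) ^ 3 ≤ (2 * n) ^ 3 := Nat.pow_le_pow_left (by omega) 3
        _ = 8 * n ^ 3 := by ring
    have h2 : n ≤ n ^ 3 := Nat.le_self_pow (by norm_num) n
    have h3 : 1 ≤ n ^ 3 := Nat.one_le_pow _ _ hn1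
    have h4 : K0 * (n + 1) ^ 3 ≤ K0 * (8 * n ^ 3) := Nat.mul_le_mul_left _ h1
    have h5 : r ≤ r * n ^ 3 := Nat.le_mul_of_pos_right _ h3
    have h6 : D ≤ D * n ^ 3 := Nat.le_mul_of_pos_right _ h3
    have h7 : K * n ^ 3 = 8 * K0 * n ^ 3 + 2 * n ^ 3 + r * n ^ 3 + D * n ^ 3 + t * n ^ 3 +
        2 * b * n ^ 3 + n ^ 3 := by rw [hK]; ring
    have h8 : K0 * (8 * n ^ 3) = 8 * K0 * n ^ 3 := by ring
    rw [he, h7]
    have h9 := Nat.zero_le (t * n ^ 3)
    have h10 := Nat.zero_le (2 * b * n ^ 3)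
    omega
  have hbig : ∀ v : ℕ, v ≤ D * M → |((v : ℕ) : ℤ)| ≤ 2 ^ (K * n ^ 3) := by
    intro v hv
    rw [abs_of_nonneg (Int.natCast_nonneg v)]
    have h1 : v ≤ 2 ^ (K * n ^ 3) := by
      calc v ≤ D * M := hv
        _ ≤ 2 ^ D * 2 ^ e := Nat.mul_le_mul_right _ (Nat.lt_two_pow_self).le
        _ = 2 ^ (D + e) := (pow_add 2 D e).symm
        _ ≤ 2 ^ (K * n ^ 3) := Nat.pow_le_pow_right (by norm_num) (by omega)
    exact_mod_cast h1
  refine ⟨mk κ s t M n X l0 hl hs1 ht1 hM1 hXt hXm hcκ, q, l0 * √(A : ℝ), ?_, ?_, hcop, hns,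
    ?_, 2 ^ (e + r), ?_, ?_, ?_⟩
  · have : (0 : ℝ) < A := by exact_mod_cast hA
    positivity
  · -- bluntness
    intro i hi
    have hBl : -|B| ≤ B := neg_abs_le B
    have hBB : B ^ 2 = |B| ^ 2 := (sq_abs B).symm
    have key : (0 : ℤ) < (P s n i : ℤ) * (P s n (i + 1) : ℤ) * A +
        ((P s n i : ℤ) * (Q t n X (i + 1) : ℤ) + (P s n (i + 1) : ℤ) * (Q t n X i : ℤ)) * B +
        (Q t n X i : ℤ) * (Q t n X (i + 1) : ℤ) * C := by
      have hsAtB : 0 < (s : ℤ) * A + (t : ℤ) * B := by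
        rw [hsZ, htZ]
        have e1 := mul_le_mul_of_nonneg_left hBl hA.le
        have e2 := mul_le_mul_of_nonneg_left hBl hB0
        linarith
      have hsBtC : 0 < (s : ℤ) * B + (t : ℤ) * C := by
        rw [hsZ, htZ]
        have e1 := mul_le_mul_of_nonneg_left hBl hC.le
        have e2 := mul_le_mul_of_nonneg_left hBl hB0
        linarith
      match i, hi with
      | 0, _ =>
        simp only [P, Q]
        push_cast
        linarith
      | 1, _ =>
        simp only [P, Q, if_pos (Nat.zero_le n)]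
        push_cast
        have h0 : (0 : ℤ) < X 0 := by
          have := hXlow 0 (Nat.zero_le n)
          exact_mod_cast (by omega : 0 < X 0)
        have := mul_pos h0 hsBtC
        linarith
      | (j + 2), h =>
        have hj : j ≤ n := by omega
        have hxj : 2 * |B| + 1 ≤ (X j : ℤ) := by
          rw [← hbZ]
          have := hXlow j hj
          exact_mod_cast (by omega : 2 * b + 1 ≤ X j)
        show (0 : ℤ) < ((if j ≤ n then 1 else 0 : ℕ) : ℤ) * ((if j + 1 ≤ n then 1 else 0 : ℕ) : ℤ)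
          * A + (((if j ≤ n then 1 else 0 : ℕ) : ℤ) * ((if j + 1 ≤ n then X (j + 1) else 1 : ℕ) : ℤ)
          + ((if j + 1 ≤ n then 1 else 0 : ℕ) : ℤ) * ((if j ≤ n then X j else 1 : ℕ) : ℤ)) * B +
          ((if j ≤ n then X j else 1 : ℕ) : ℤ) * ((if j + 1 ≤ n then X (j + 1) else 1 : ℕ) : ℤ) * C
        by_cases h3 : j + 1 ≤ n
        · have hxj1 : 2 * |B| + 1 ≤ (X (j + 1) : ℤ) := by
            rw [← hbZ]
            have := hXlow (j + 1) h3
            exact_mod_cast (by omega : 2 * b + 1 ≤ X (j + 1))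
          rw [if_pos hj, if_pos h3, if_pos hj, if_pos h3]
          set u : ℤ := (X j : ℤ)
          set v : ℤ := (X (j + 1) : ℤ)
          have hu0 : 0 ≤ u := by linarith
          have hv0 : 0 ≤ v := by linarith
          have e1 : u * v * 1 ≤ u * v * C :=
            mul_le_mul_of_nonneg_left (by omega) (mul_nonneg hu0 hv0)
          have e2 : v * -|B| ≤ v * B := mul_le_mul_of_nonneg_left hBl hv0
          have e3 : u * -|B| ≤ u * B := mul_le_mul_of_nonneg_left hBl hu0
          have e4 : v * (2 * |B|) ≤ v * u := mul_le_mul_of_nonneg_left (by linarith) hv0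
          have e5 : u * (2 * |B|) ≤ u * v := mul_le_mul_of_nonneg_left (by linarith) hu0
          push_cast
          linarith
        · rw [if_pos hj, if_neg h3, if_pos hj, if_neg h3]
          set u : ℤ := (X j : ℤ)
          have : u * 1 ≤ u * C := mul_le_mul_of_nonneg_left (by omega) (by linarith)
          push_cast
          linarith
    have key2 : (0 : ℝ) < (P s n i : ℝ) * (P s n (i + 1) : ℝ) * A +
        ((P s n i : ℝ) * (Q t n X (i + 1) : ℝ) + (P s n (i + 1) : ℝ) * (Q t n X i : ℝ)) * B +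
        (Q t n X i : ℝ) * (Q t n X (i + 1) : ℝ) * C := by exact_mod_cast key
    exact key2
  · -- the quadratic form
    intro j
    have hj : (j : ℕ) < n + 1 := j.2
    have h1 : (mk κ s t M n X l0 hl hs1 ht1 hM1 hXt hXm hcκ).α (j + 2) -
        (mk κ s t M n X l0 hl hs1 ht1 hM1 hXt hXm hcκ).α (j + 1) = l0 * (x j : ℝ) := by
      show l0 * ((t * M + S X ((j : ℕ) + 1) : ℕ) : ℝ) - l0 * ((t * M + S X (j : ℕ) : ℕ) : ℝ) = _
      rw [show S X ((j : ℕ) + 1) = S X j + X j from Finset.sum_range_succ _ _, hXx j hj]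
      push_cast
      ring
    have h2 : (mk κ s t M n X l0 hl hs1 ht1 hM1 hXt hXm hcκ).β (j + 2) -
        (mk κ s t M n X l0 hl hs1 ht1 hM1 hXt hXm hcκ).β (j + 1) = - l0 := by
      show l0 * ((n + 1 - ((j : ℕ) + 1) : ℕ) : ℝ) - l0 * ((n + 1 - (j : ℕ) : ℕ) : ℝ) = _
      have h3 : n + 1 - (j : ℕ) = (n + 1 - ((j : ℕ) + 1)) + 1 := by omega
      rw [h3]
      push_cast
      ring
    have h5 : √(A : ℝ) ^ 2 = A := Real.sq_sqrt (by exact_mod_cast hA.le)
    have h4 : (A : ℝ) + 2 * B * (x j : ℝ) + C * (x j : ℝ) ^ 2 = A * (q j : ℝ) := by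
      exact_mod_cast heq j
    rw [h1, h2]
    linear_combination l0 ^ 2 * h4 - l0 ^ 2 * (q j : ℝ) * h5
  · exact_mod_cast (Nat.one_le_two_pow : 1 ≤ 2 ^ (e + r))
  · have : (2 : ℕ) ^ (e + r) ≤ 2 ^ (K * n ^ 3) := Nat.pow_le_pow_right (by norm_num) (by omega)
    exact_mod_cast this
  · intro i _
    refine ⟨(P s n i : ℤ), (Q t n X i : ℤ), (cc s t M n X i : ℤ), ?_, ?_, ?_, ?_, ?_, ?_⟩
    · show (P s n i : ℝ) = ((P s n i : ℤ) : ℝ)
      push_cast; rfl
    · show (Q t n X i : ℝ) = ((Q t n X i : ℤ) : ℝ)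
      push_cast; rfl
    · show (((2 : ℤ) ^ (e + r) : ℤ) : ℝ) * (l0 * (cc s t M n X i : ℝ)) =
        ((cc s t M n X i : ℤ) : ℝ)
      rw [hl0]
      push_cast
      field_simp
    · exact hbig _ (P_le s t M n hM1 i)
    · exact hbig _ (Q_le s t M n X Y hXY hM1 hnY i)
    · exact hbig _ (hcc i)

end QG
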