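import Pool.Agent.Lib_helper2.QG.Defs

/-!
# Lemma H for MP_18bf68_lc: a polytope given by short integer inequalities has short vertices
-/

open scoped RealInnerProductSpace

namespace QG

namespace HPoly

variable {m : ℕ}

/-- The matrix of three constraints. -/
def mat (a : Fin m → Fin 3 → ℤ) (t : Fin 3 → Fin m) : Matrix (Fin 3) (Fin 3) ℤ :=
  Matrix.of fun r j => a (t r) j

/-- The point given by three constraints. -/
def pt (a : Fin m → Fin 3 → ℤ) (b : Fin m → ℤ) (t : Fin 3 → Fin m) : Fin 3 → ℚ :=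
  fun k => (((mat a t).cramer (fun r => b (t r)) k : ℤ) : ℚ) / (((mat a t).det : ℤ) : ℚ)

lemma pt_eq (a : Fin m → Fin 3 → ℤ) (b : Fin m → ℤ) (t : Fin 3 → Fin m)
    (ht : (mat a t).det ≠ 0) (r : Fin 3) :
    ∑ j, (a (t r) j : ℚ) * pt a b t j = (b (t r) : ℚ) := by
  have h := congrFun (Matrix.mulVec_cramer (mat a t) (fun r => b (t r))) r
  have h1 : ∑ j, a (t r) j * (mat a t).cramer (fun r => b (t r)) j =
      (mat a t).det * b (t r) := by
    simpa [Matrix.mulVec, dotProduct, mat] using h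
  have hd : (((mat a t).det : ℤ) : ℚ) ≠ 0 := by exact_mod_cast ht
  have h2 : ∑ j, (a (t r) j : ℚ) * (((mat a t).cramer (fun r => b (t r)) j : ℤ) : ℚ) =
      (((mat a t).det : ℤ) : ℚ) * (b (t r) : ℚ) := by exact_mod_cast h1
  unfold pt
  have h3 : ∀ j, (a (t r) j : ℚ) * ((((mat a t).cramer (fun r => b (t r)) j : ℤ) : ℚ) /
      (((mat a t).det : ℤ) : ℚ)) = ((a (t r) j : ℚ) *
      (((mat a t).cramer (fun r => b (t r)) j : ℤ) : ℚ)) / (((mat a t).det : ℤ) : ℚ) := fun j => by
    rw [mul_div_assoc]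
  simp_rw [h3]
  rw [← Finset.sum_div, h2, mul_div_cancel_left₀ _ hd]

lemma pt_eq_real (a : Fin m → Fin 3 → ℤ) (b : Fin m → ℤ) (t : Fin 3 → Fin m)
    (ht : (mat a t).det ≠ 0) (r : Fin 3) :
    ∑ j, (a (t r) j : ℝ) * toE (pt a b t) j = (b (t r) : ℝ) := by
  have h := pt_eq a b t ht r
  have h2 : ((∑ j, (a (t r) j : ℚ) * pt a b t j : ℚ) : ℝ) = ((b (t r) : ℚ) : ℝ) := by rw [h]
  push_cast at h2
  exact h2

/-- uniqueness of solutions -/
lemma unique_of_det (a : Fin m → Fin 3 → ℤ) (t : Fin 3 → Fin m)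
    (ht : (mat a t).det ≠ 0) (x y : Fin 3 → ℝ)
    (h : ∀ r, ∑ j, (a (t r) j : ℝ) * x j = ∑ j, (a (t r) j : ℝ) * y j) : x = y := by
  set N : Matrix (Fin 3) (Fin 3) ℝ := (mat a t).map (Int.castRingHom ℝ) with hN
  have hdet : N.det ≠ 0 := by
    rw [hN, ← RingHom.mapMatrix_apply, ← RingHom.map_det]
    simpa using ht
  have h1 : N.mulVec (x - y) = 0 := by
    rw [Matrix.mulVec_sub, sub_eq_zero]
    funext r
    have := h r
    simpa [Matrix.mulVec, dotProduct, hN, mat] using this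
  have := Matrix.eq_zero_of_mulVec_eq_zero hdet h1
  exact sub_eq_zero.1 this

lemma bits_div (N D : ℤ) (hD : D ≠ 0) (k : ℕ) (hN : |N| < 2 ^ k) (hDk : |D| < 2 ^ k) :
    bits ((N : ℚ) / (D : ℚ)) ≤ 1 + 2 * k := by
  have h1 : ((N : ℚ) / (D : ℚ)) = Rat.divInt N D := by
    rw [Rat.divInt_eq_div]
  have hnum : ((N : ℚ) / (D : ℚ)).num.natAbs < 2 ^ k := by
    rw [h1]
    have h2 : (Rat.divInt N D).num ∣ N := Rat.num_dvd N hD
    rcases eq_or_ne N 0 with h0 | h0
    · subst h0
      simp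
    · have h3 : (Rat.divInt N D).num.natAbs ≤ N.natAbs :=
        Nat.le_of_dvd (Int.natAbs_pos.2 h0) (Int.natAbs_dvd_natAbs.2 h2)
      have h4 : N.natAbs < 2 ^ k := by
        have : (N.natAbs : ℤ) < 2 ^ k := by rwa [Int.natCast_natAbs]
        exact_mod_cast this
      omega
  have hden : ((N : ℚ) / (D : ℚ)).den < 2 ^ k := by
    rw [h1]
    have h2 : ((Rat.divInt N D).den : ℤ) ∣ D := Rat.den_dvd N D
    have h3 : (Rat.divInt N D).den ≤ D.natAbs :=
      Nat.le_of_dvd (Int.natAbs_pos.2 hD) (Int.natCast_dvd.1 h2)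
    have h4 : D.natAbs < 2 ^ k := by
      have : (D.natAbs : ℤ) < 2 ^ k := by rwa [Int.natCast_natAbs]
      exact_mod_cast this
    omega
  have h5 := Nat.size_le.2 hnum
  have h6 := Nat.size_le.2 hden
  unfold bits
  omega

lemma det_bound (A : Matrix (Fin 3) (Fin 3) ℤ) (h : ℕ) (hA : ∀ i j, |A i j| ≤ 2 ^ h) :
    |A.det| < 2 ^ (3 * h + 3) := by
  have h1 := Matrix.det_le (A := A) (abv := AbsoluteValue.abs) (x := (2 : ℤ) ^ h) hA
  have h2 : |A.det| ≤ 6 * (2 ^ h) ^ 3 := by
    simpa [Nat.factorial] using h1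
  have h3 : (2 : ℤ) ^ (3 * h + 3) = 8 * (2 ^ h) ^ 3 := by
    rw [pow_add, mul_comm 3 h, pow_mul]; ring
  rw [h3]
  have h4 : (0 : ℤ) < (2 ^ h) ^ 3 := by positivity
  linarith

lemma bits_pt (a : Fin m → Fin 3 → ℤ) (b : Fin m → ℤ) (t : Fin 3 → Fin m) (h : ℕ)
    (ha : ∀ i j, |a i j| ≤ 2 ^ h) (hb : ∀ i, |b i| ≤ 2 ^ h)
    (ht : (mat a t).det ≠ 0) (k : Fin 3) : bits (pt a b t k) ≤ 6 * h + 7 := by
  have h1 := bits_div ((mat a t).cramer (fun r => b (t r)) k) ((mat a t).det) ht (3 * h + 3) ?_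
    (det_bound _ h fun i j => ha _ _)
  · unfold pt
    omega
  · rw [Matrix.cramer_apply]
    apply det_bound
    intro i j
    rw [Matrix.updateCol_apply]
    split_ifs
    · exact hb _
    · exact ha _ _

section

variable (a : Fin m → Fin 3 → ℤ) (b : Fin m → ℤ) (K : Set E3)
  (hK : K = {x : E3 | ∀ i, ∑ j, (a i j : ℝ) * x j ≤ (b i : ℝ)})

include hK

lemma convex_K : Convex ℝ K := by
  rw [hK]
  intro x hx y hy s t hs ht hst i
  have h1 := hx i
  have h2 := hy i
  have h3 : ∑ j, (a i j : ℝ) * (s • x + t • y) j =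
      s * ∑ j, (a i j : ℝ) * x j + t * ∑ j, (a i j : ℝ) * y j := by
    rw [Finset.mul_sum, Finset.mul_sum, ← Finset.sum_add_distrib]
    refine Finset.sum_congr rfl fun j _ => ?_
    simp
    ring
  rw [h3]
  calc s * ∑ j, (a i j : ℝ) * x j + t * ∑ j, (a i j : ℝ) * y j
      ≤ s * b i + t * b i := add_le_add (mul_le_mul_of_nonneg_left h1 hs)
        (mul_le_mul_of_nonneg_left h2 ht)
    _ = b i := by rw [← add_mul, hst, one_mul]

lemma closed_K : IsClosed K := by
  rw [hK, Set.ofPred_forall]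
  refine isClosed_iInter fun i => isClosed_le ?_ continuous_const
  fun_prop

lemma extreme_pt (t : Fin 3 → Fin m) (ht : (mat a t).det ≠ 0) (hmem : toE (pt a b t) ∈ K) :
    toE (pt a b t) ∈ Set.extremePoints ℝ K := by
  refine ⟨hmem, fun y hy z hz hx => ?_⟩
  obtain ⟨s, r, hs, hr, hsr, hx⟩ := hx
  have hy' : ∀ i, ∑ j, (a i j : ℝ) * y j ≤ (b i : ℝ) := by rw [hK] at hy; exact hy
  have hz' : ∀ i, ∑ j, (a i j : ℝ) * z j ≤ (b i : ℝ) := by rw [hK] at hz; exact hz
  have hxe := pt_eq_real a b t ht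
  have key : ∀ k, ∑ j, (a (t k) j : ℝ) * y j = (b (t k) : ℝ) := by
    intro k
    have h1 := hxe k
    rw [← hx] at h1
    have h3 : ∑ j, (a (t k) j : ℝ) * (s • y + r • z) j =
        s * ∑ j, (a (t k) j : ℝ) * y j + r * ∑ j, (a (t k) j : ℝ) * z j := by
      rw [Finset.mul_sum, Finset.mul_sum, ← Finset.sum_add_distrib]
      refine Finset.sum_congr rfl fun j _ => ?_
      simp
      ring
    rw [h3] at h1
    by_contra hne
    have h4 : ∑ j, (a (t k) j : ℝ) * y j < (b (t k) : ℝ) := lt_of_le_of_ne (hy' _) hne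
    have h5 : s * ∑ j, (a (t k) j : ℝ) * y j < s * (b (t k) : ℝ) :=
      mul_lt_mul_of_pos_left h4 hs
    have h6 : r * ∑ j, (a (t k) j : ℝ) * z j ≤ r * (b (t k) : ℝ) :=
      mul_le_mul_of_nonneg_left (hz' _) hr.le
    have h7 : s * (b (t k) : ℝ) + r * (b (t k) : ℝ) = b (t k) := by
      rw [← add_mul, hsr, one_mul]
    linarith
  have h8 := unique_of_det a t ht (fun j => y j) (fun j => toE (pt a b t) j) fun k => by
    rw [key k, hxe k]
  ext j
  exact congrFun h8 j

lemma exists_of_extreme (x : E3) (hx : x ∈ Set.extremePoints ℝ K) :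
    ∃ t : Fin 3 → Fin m, (mat a t).det ≠ 0 ∧ toE (pt a b t) = x := by
  classical
  have hxK : ∀ i, ∑ j, (a i j : ℝ) * x j ≤ (b i : ℝ) := by
    have := hx.1
    rw [hK] at this
    exact this
  set s : Set (Fin 3 → ℝ) := {v | ∃ i, ∑ j, (a i j : ℝ) * x j = (b i : ℝ) ∧
    v = fun j => (a i j : ℝ)} with hs
  have hspan : Submodule.span ℝ s = ⊤ := by
    by_contra hne
    obtain ⟨f, hf0, hf⟩ := Submodule.exists_dual_map_eq_bot_of_lt_top (lt_top_iff_ne_top.2 hne)
      inferInstance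
    set d : Fin 3 → ℝ := fun j => f (Pi.single j 1) with hd
    have hfd : ∀ v : Fin 3 → ℝ, f v = ∑ j, v j * d j := by
      intro v
      conv_lhs => rw [← Finset.univ_sum_single v, map_sum]
      refine Finset.sum_congr rfl fun j _ => ?_
      have : (Pi.single j (v j) : Fin 3 → ℝ) = v j • Pi.single j 1 := by
        rw [← Pi.single_smul, smul_eq_mul, mul_one]
      rw [this, map_smul, smul_eq_mul]
    have hd0 : d ≠ 0 := by
      intro h0
      apply hf0
      ext j
      have := congrFun h0 j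
      simpa [hd] using this
    have hact : ∀ i, ∑ j, (a i j : ℝ) * x j = (b i : ℝ) → ∑ j, (a i j : ℝ) * d j = 0 := by
      intro i hi
      have h1 : (fun j => (a i j : ℝ)) ∈ Submodule.span ℝ s :=
        Submodule.subset_span ⟨i, hi, rfl⟩
      have h2 : f (fun j => (a i j : ℝ)) ∈ (Submodule.span ℝ s).map f :=
        Submodule.mem_map_of_mem h1
      rw [hf, Submodule.mem_bot] at h2
      rw [← h2, hfd]
    -- move
    set D : E3 := WithLp.toLp 2 d with hD
    have hmove : ∀ᶠ e : ℝ in nhds 0, x + e • D ∈ K ∧ x + (-e) • D ∈ K := by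
      have h1 : ∀ i, ∀ᶠ e : ℝ in nhds 0, (∑ j, (a i j : ℝ) * (x + e • D) j ≤ (b i : ℝ)) ∧
          (∑ j, (a i j : ℝ) * (x + (-e) • D) j ≤ (b i : ℝ)) := by
        intro i
        have h3 : ∀ e : ℝ, ∑ j, (a i j : ℝ) * (x + e • D) j =
            ∑ j, (a i j : ℝ) * x j + e * ∑ j, (a i j : ℝ) * d j := by
          intro e
          rw [Finset.mul_sum, ← Finset.sum_add_distrib]
          refine Finset.sum_congr rfl fun j _ => ?_
          simp [hD]
          ring
        simp_rw [h3]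
        rcases eq_or_ne (∑ j, (a i j : ℝ) * x j) (b i : ℝ) with h4 | h4
        · rw [hact i h4, h4]
          simp
        · have h5 : ∑ j, (a i j : ℝ) * x j < (b i : ℝ) := lt_of_le_of_ne (hxK i) h4
          have c1 : Filter.Tendsto (fun e : ℝ => ∑ j, (a i j : ℝ) * x j +
              e * ∑ j, (a i j : ℝ) * d j) (nhds 0) (nhds (∑ j, (a i j : ℝ) * x j +
              0 * ∑ j, (a i j : ℝ) * d j)) := by
            apply Continuous.tendsto
            fun_prop
          have c2 : Filter.Tendsto (fun e : ℝ => ∑ j, (a i j : ℝ) * x j +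
              (-e) * ∑ j, (a i j : ℝ) * d j) (nhds 0) (nhds (∑ j, (a i j : ℝ) * x j +
              (-0) * ∑ j, (a i j : ℝ) * d j)) := by
            apply Continuous.tendsto
            fun_prop
          rw [neg_zero] at c2
          rw [zero_mul, add_zero] at c1 c2
          exact ((c1.eventually_lt_const h5).mono fun e he => he.le).and
            ((c2.eventually_lt_const h5).mono fun e he => he.le)
      have h2 := Filter.eventually_all.2 h1
      filter_upwards [h2] with e he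
      rw [hK]
      exact ⟨fun i => (he i).1, fun i => (he i).2⟩
    have hmove' : ∀ᶠ e : ℝ in nhdsWithin 0 (Set.Ioi 0), x + e • D ∈ K ∧ x + (-e) • D ∈ K :=
      hmove.filter_mono nhdsWithin_le_nhds
    obtain ⟨e, ⟨he1, he2⟩, he0⟩ := (hmove'.and self_mem_nhdsWithin).exists
    have he0' : (0 : ℝ) < e := he0
    have hseg : x ∈ openSegment ℝ (x + e • D) (x + (-e) • D) := by
      refine ⟨1 / 2, 1 / 2, by norm_num, by norm_num, by norm_num, ?_⟩
      ext j
      simp
      ring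
    have := hx.2 he1 he2 hseg
    have h6 : e • D = 0 := by
      have : x + e • D = x := this
      simpa using this
    rcases smul_eq_zero.1 h6 with h7 | h7
    · exact he0'.ne' h7
    · apply hd0
      funext j
      have := congrArg (fun v : E3 => v j) h7
      simpa [hD] using this
  obtain ⟨f, hfs, -, hli⟩ := Submodule.exists_fun_fin_finrank_span_eq ℝ s
  have hfr : Module.finrank ℝ (Submodule.span ℝ s) = 3 := by
    rw [hspan, finrank_top]
    simp
  set g : Fin 3 → (Fin 3 → ℝ) := f ∘ Fin.cast hfr.symm with hg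
  have hgli : LinearIndependent ℝ g := hli.comp _ (Fin.cast_injective _)
  have hgs : ∀ r, ∃ i, ∑ j, (a i j : ℝ) * x j = (b i : ℝ) ∧ g r = fun j => (a i j : ℝ) :=
    fun r => hfs _
  choose t ht1 ht2 using hgs
  have hdet : (mat a t).det ≠ 0 := by
    intro h0
    have hrow : LinearIndependent ℝ ((mat a t).map (Int.castRingHom ℝ)).row := by
      convert hgli using 1
      funext r
      rw [ht2 r]
      funext j
      simp [Matrix.row, mat]
    have hu := Matrix.linearIndependent_rows_iff_isUnit.1 hrow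
    rw [Matrix.isUnit_iff_isUnit_det] at hu
    apply hu.ne_zero
    rw [← RingHom.mapMatrix_apply, ← RingHom.map_det, h0, map_zero]
  refine ⟨t, hdet, ?_⟩
  have h8 := unique_of_det a t hdet (fun j => toE (pt a b t) j) (fun j => x j) fun k => by
    rw [pt_eq_real a b t hdet k, ht1 k]
  ext j
  exact congrFun h8 j

end

end HPoly

/-- **H** (vertices of a polytope given by integer inequalities are rational and short). -/
theorem exists_poly (m h : ℕ) (a : Fin m → Fin 3 → ℤ) (b : Fin m → ℤ)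
    (ha : ∀ i j, |a i j| ≤ 2 ^ h) (hb : ∀ i, |b i| ≤ 2 ^ h) (K : Set E3)
    (hK : K = {x : E3 | ∀ i, ∑ j, (a i j : ℝ) * x j ≤ (b i : ℝ)})
    (hbd : Bornology.IsBounded K) (hint : (interior K).Nonempty) :
    ∃ P : Poly, P.body = K ∧ P.size ≤ 30 * m ^ 3 * (h + 1) := by
  classical
  set T : Finset (Fin 3 → Fin m) := Finset.univ.filter fun t =>
    (HPoly.mat a t).det ≠ 0 ∧ toE (HPoly.pt a b t) ∈ K with hT
  set V : Finset (Fin 3 → ℚ) := T.image (HPoly.pt a b) with hV
  have hcomp : IsCompact K := Metric.isCompact_of_isClosed_isBounded (HPoly.closed_K a b K hK) hbd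
  have hconv : Convex ℝ K := HPoly.convex_K a b K hK
  have hext : toE '' (V : Set (Fin 3 → ℚ)) = Set.extremePoints ℝ K := by
    ext x
    constructor
    · rintro ⟨v, hv, rfl⟩
      rw [hV, Finset.mem_coe, Finset.mem_image] at hv
      obtain ⟨t, ht, rfl⟩ := hv
      rw [hT, Finset.mem_filter] at ht
      exact HPoly.extreme_pt a b K hK t ht.2.1 ht.2.2
    · intro hx
      obtain ⟨t, ht, rfl⟩ := HPoly.exists_of_extreme a b K hK x hx
      refine ⟨_, ?_, rfl⟩
      rw [hV, Finset.mem_coe, Finset.mem_image]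
      exact ⟨t, by rw [hT, Finset.mem_filter]; exact ⟨Finset.mem_univ _, ht, hx.1⟩, rfl⟩
  have hbody : convexHull ℝ (toE '' (V : Set (Fin 3 → ℚ))) = K := by
    have h1 : IsClosed (convexHull ℝ (toE '' (V : Set (Fin 3 → ℚ)))) :=
      (V.finite_toSet.image toE).isClosed_convexHull ℝ
    have h2 := closure_convexHull_extremePoints hcomp hconv
    rw [← hext, h1.closure_eq] at h2
    exact h2
  refine ⟨⟨V, fun v hv => ?_, ?_⟩, hbody, ?_⟩
  · rw [hbody, ← hext]
    exact ⟨v, hv, rfl⟩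
  · rw [hbody]; exact hint
  · show ∑ v ∈ V, ∑ i : Fin 3, bits (v i) ≤ _
    have hcard : V.card ≤ m ^ 3 := by
      calc V.card ≤ T.card := Finset.card_image_le
        _ ≤ (Finset.univ : Finset (Fin 3 → Fin m)).card := Finset.card_filter_le _ _
        _ = m ^ 3 := by simp
    have hterm : ∀ v ∈ V, ∑ i : Fin 3, bits (v i) ≤ 30 * (h + 1) := by
      intro v hv
      rw [hV, Finset.mem_image] at hv
      obtain ⟨t, ht, rfl⟩ := hv
      rw [hT, Finset.mem_filter] at ht
      have hk := fun k => HPoly.bits_pt a b t h ha hb ht.2.1 k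
      calc ∑ i : Fin 3, bits (HPoly.pt a b t i) ≤ ∑ _i : Fin 3, (6 * h + 7) :=
            Finset.sum_le_sum fun i _ => hk i
        _ ≤ 30 * (h + 1) := by simp; omega
    calc ∑ v ∈ V, ∑ i : Fin 3, bits (v i) ≤ ∑ _v ∈ V, 30 * (h + 1) := Finset.sum_le_sum hterm
      _ = V.card * (30 * (h + 1)) := by rw [Finset.sum_const, smul_eq_mul]
      _ ≤ m ^ 3 * (30 * (h + 1)) := Nat.mul_le_mul_right _ hcard
      _ = 30 * m ^ 3 * (h + 1) := by ring

end QG
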