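import Pool.Agent.Lib_helper56.TP_A

/-!
# MP_3b4c52_gt, block A : the normal form
-/

set_option autoImplicit false

open Module Metric Set Filter Topology
open scoped ContDiff RealInnerProductSpace

namespace Pool.Agent.TP

namespace BlkA

section NF

set_option linter.unusedSectionVars false

variable {V : Type*} [NormedAddCommGroup V] [InnerProductSpace ℝ V] [FiniteDimensional ℝ V]
  {Y : Type*} [AddCommGroup Y] [Module ℝ Y] [FiniteDimensional ℝ Y]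

lemma exists_P (B : V →ₗ[ℝ] V →ₗ[ℝ] Y) :
    ∃ P : (Y →ₗ[ℝ] ℝ) →ₗ[ℝ] (V →ₗ[ℝ] V), ∀ η u v, ⟪P η u, v⟫ = η (B u v) := by
  let e := stdOrthonormalBasis ℝ V
  let P : (Y →ₗ[ℝ] ℝ) →ₗ[ℝ] (V →ₗ[ℝ] V) := LinearMap.mk₂ ℝ
    (fun η u => ∑ i, η (B u (e i)) • e i)
    (by intro η ζ u; simp [add_smul, Finset.sum_add_distrib])
    (by intro c η u; simp [mul_smul, Finset.smul_sum])
    (by intro η u v; simp [add_smul, Finset.sum_add_distrib])
    (by intro c η u; simp [mul_smul, Finset.smul_sum])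
  refine ⟨P, fun η u v => ?_⟩
  change ⟪∑ i, η (B u (e i)) • e i, v⟫ = η (B u v)
  rw [sum_inner]
  have h1 : v = ∑ i, ⟪e i, v⟫ • e i := (e.sum_repr' v).symm
  conv_rhs => rw [h1]
  rw [map_sum, map_sum]
  refine Finset.sum_congr rfl fun i _ => ?_
  rw [real_inner_smul_left, map_smul, map_smul, smul_eq_mul, mul_comm]

/-- all the data of the second fundamental form, in terms of operators -/
structure Ops (d : ℕ) (P : (Y →ₗ[ℝ] ℝ) →ₗ[ℝ] (V →ₗ[ℝ] V)) (η₀ : Y →ₗ[ℝ] ℝ) : Prop where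
  dimV : finrank ℝ V = 2 * d
  dimY : finrank ℝ Y = d + 2
  sym : ∀ η u v, ⟪P η u, v⟫ = ⟪u, P η v⟫
  one : P η₀ = LinearMap.id
  inj : ∀ η, P η = 0 → η = 0
  spec : ∀ η, ∃ l₁ l₂ : ℝ, l₁ ≤ l₂ ∧
      (∀ u, P η (P η u) - (l₁ + l₂) • P η u + (l₁ * l₂) • u = 0) ∧
      LinearMap.trace ℝ V (P η) = d * (l₁ + l₂) ∧
      (l₁ < l₂ → finrank ℝ (LinearMap.ker (P η - l₁ • LinearMap.id)) = d ∧
        finrank ℝ (LinearMap.ker (P η - l₂ • LinearMap.id)) = d)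

variable {d : ℕ} {P : (Y →ₗ[ℝ] ℝ) →ₗ[ℝ] (V →ₗ[ℝ] V)} {η₀ : Y →ₗ[ℝ] ℝ}

/-- trace functional -/
noncomputable def tau (d : ℕ) (P : (Y →ₗ[ℝ] ℝ) →ₗ[ℝ] (V →ₗ[ℝ] V)) : (Y →ₗ[ℝ] ℝ) →ₗ[ℝ] ℝ :=
  (1 / (2 * d : ℝ)) • ((LinearMap.trace ℝ V).comp P)

lemma tau_apply (η : Y →ₗ[ℝ] ℝ) :
    tau d P η = (1 / (2 * d : ℝ)) * LinearMap.trace ℝ V (P η) := rfl

/-- trace free part -/
noncomputable def Qm (d : ℕ) (P : (Y →ₗ[ℝ] ℝ) →ₗ[ℝ] (V →ₗ[ℝ] V)) :
    (Y →ₗ[ℝ] ℝ) →ₗ[ℝ] (V →ₗ[ℝ] V) :=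
  P - (tau d P).smulRight LinearMap.id

lemma Qm_apply (η : Y →ₗ[ℝ] ℝ) (u : V) : Qm d P η u = P η u - tau d P η • u := rfl

lemma Ops.Q_sq (hd : 1 ≤ d) (h : Ops d P η₀) (η : Y →ₗ[ℝ] ℝ) :
    ∃ β : ℝ, ∀ u, Qm d P η (Qm d P η u) = β • u := by
  obtain ⟨l₁, l₂, -, h1, h2, -⟩ := h.spec η
  have hd' : (d : ℝ) ≠ 0 := by
    have : (1:ℝ) ≤ d := by exact_mod_cast hd
    linarith
  have ht : tau d P η = (l₁ + l₂) / 2 := by
    rw [tau_apply, h2]; field_simp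
  refine ⟨((l₁ + l₂) / 2) ^ 2 - l₁ * l₂, fun u => ?_⟩
  rw [Qm_apply, Qm_apply, ht, map_sub, map_smul]
  have h3 : P η (P η u) = (l₁ + l₂) • P η u - (l₁ * l₂) • u := by
    have := h1 u
    rw [sub_add] at this
    exact sub_eq_zero.1 this
  rw [h3]
  module

/-- the quadratic form -/
noncomputable def bet (d : ℕ) (P : (Y →ₗ[ℝ] ℝ) →ₗ[ℝ] (V →ₗ[ℝ] V)) :
    (Y →ₗ[ℝ] ℝ) →ₗ[ℝ] (Y →ₗ[ℝ] ℝ) →ₗ[ℝ] ℝ :=
  LinearMap.mk₂ ℝ (fun η ζ => (1 / (2 * d : ℝ)) * LinearMap.trace ℝ V (Qm d P η ∘ₗ Qm d P ζ))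
    (by intro a b c; rw [map_add, LinearMap.add_comp, map_add, mul_add])
    (by intro c a b; rw [map_smul, LinearMap.smul_comp, map_smul, smul_eq_mul, smul_eq_mul]; ring)
    (by intro a b c; rw [map_add, LinearMap.comp_add, map_add, mul_add])
    (by intro c a b; rw [map_smul, LinearMap.comp_smul, map_smul, smul_eq_mul, smul_eq_mul]; ring)

lemma bet_apply (η ζ : Y →ₗ[ℝ] ℝ) : bet d P η ζ =
    (1 / (2 * d : ℝ)) * LinearMap.trace ℝ V (Qm d P η ∘ₗ Qm d P ζ) := rfl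

lemma bet_symm (η ζ : Y →ₗ[ℝ] ℝ) : bet d P η ζ = bet d P ζ η := by
  rw [bet_apply, bet_apply]
  congr 1
  exact LinearMap.trace_mul_comm ℝ (Qm d P η) (Qm d P ζ)

lemma Ops.Q_sq' (hd : 1 ≤ d) (h : Ops d P η₀) (η : Y →ₗ[ℝ] ℝ) (u : V) :
    Qm d P η (Qm d P η u) = bet d P η η • u := by
  obtain ⟨β, hβ⟩ := h.Q_sq hd η
  have hd' : (d : ℝ) ≠ 0 := by
    have : (1:ℝ) ≤ d := by exact_mod_cast hd
    linarith
  have h1 : Qm d P η ∘ₗ Qm d P η = β • LinearMap.id := by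
    ext v
    rw [LinearMap.comp_apply, hβ]; rfl
  have h2 : bet d P η η = β := by
    rw [bet_apply, h1, map_smul, LinearMap.trace_id, h.dimV, smul_eq_mul]
    push_cast
    field_simp
  rw [hβ, h2]

lemma Ops.anti (hd : 1 ≤ d) (h : Ops d P η₀) (η ζ : Y →ₗ[ℝ] ℝ) (u : V) :
    Qm d P η (Qm d P ζ u) + Qm d P ζ (Qm d P η u) = (2 * bet d P η ζ) • u := by
  have h1 := h.Q_sq' hd (η + ζ) u
  have h2 := h.Q_sq' hd η u
  have h3 := h.Q_sq' hd ζ u
  simp only [map_add, LinearMap.add_apply] at h1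
  rw [h2, h3] at h1
  rw [bet_symm ζ η] at h1
  have h4 : Qm d P η (Qm d P ζ u) + Qm d P ζ (Qm d P η u) =
      ((bet d P η η • u + Qm d P ζ (Qm d P η u)) + (Qm d P η (Qm d P ζ u) + bet d P ζ ζ • u)) -
      (bet d P η η • u + bet d P ζ ζ • u) := by abel
  rw [h4, ← sub_eq_zero]
  have h5 := sub_eq_zero.2 h1
  rw [← h5]
  module

lemma Ops.Q_symm (h : Ops d P η₀) (η : Y →ₗ[ℝ] ℝ) (u v : V) :
    ⟪Qm d P η u, v⟫ = ⟪u, Qm d P η v⟫ := by
  rw [Qm_apply, Qm_apply, inner_sub_left, inner_sub_right, h.sym, real_inner_smul_left,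
    inner_smul_right]

lemma Ops.norm_Q (hd : 1 ≤ d) (h : Ops d P η₀) (η : Y →ₗ[ℝ] ℝ) (u : V) :
    ‖Qm d P η u‖ ^ 2 = bet d P η η * ‖u‖ ^ 2 := by
  rw [← real_inner_self_eq_norm_sq, h.Q_symm, h.Q_sq' hd, inner_smul_right,
    real_inner_self_eq_norm_sq]

lemma Ops.exists_ne (hd : 1 ≤ d) (h : Ops d P η₀) : ∃ u : V, u ≠ 0 := by
  have : Nontrivial V := by
    apply Module.nontrivial_of_finrank_pos (R := ℝ)
    rw [h.dimV]; omega
  exact _root_.exists_ne 0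

lemma Ops.bet_nonneg (hd : 1 ≤ d) (h : Ops d P η₀) (η : Y →ₗ[ℝ] ℝ) : 0 ≤ bet d P η η := by
  obtain ⟨u, hu⟩ := h.exists_ne hd
  have h1 := h.norm_Q hd η u
  by_contra hcon
  push Not at hcon
  have h2 : 0 < ‖u‖ ^ 2 := by positivity
  have h3 : 0 ≤ ‖Qm d P η u‖ ^ 2 := by positivity
  have := mul_neg_of_neg_of_pos hcon h2
  linarith

lemma Ops.tau_one (hd : 1 ≤ d) (h : Ops d P η₀) : tau d P η₀ = 1 := by
  have hd' : (d : ℝ) ≠ 0 := by
    have : (1:ℝ) ≤ d := by exact_mod_cast hd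
    linarith
  rw [tau_apply, h.one, LinearMap.trace_id, h.dimV]
  push_cast
  field_simp

lemma Ops.Q_one (hd : 1 ≤ d) (h : Ops d P η₀) : Qm d P η₀ = 0 := by
  ext u
  rw [Qm_apply, h.tau_one hd, h.one]
  simp

lemma Ops.bet_one (hd : 1 ≤ d) (h : Ops d P η₀) (η : Y →ₗ[ℝ] ℝ) : bet d P η₀ η = 0 := by
  rw [bet_apply, h.Q_one hd]; simp

/-- `β` is definite on trace free covectors -/
lemma Ops.bet_eq_zero (hd : 1 ≤ d) (h : Ops d P η₀) {η : Y →ₗ[ℝ] ℝ} (h0 : bet d P η η = 0)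
    (ht : tau d P η = 0) : η = 0 := by
  apply h.inj
  ext u
  have h1 := h.norm_Q hd η u
  rw [h0, zero_mul] at h1
  have h2 : Qm d P η u = 0 := by
    rw [← norm_eq_zero]
    exact pow_eq_zero_iff (two_ne_zero) |>.1 h1
  rw [Qm_apply, ht, zero_smul, sub_zero] at h2
  rw [h2]; rfl

/-- the covector `ξ` is null: structure of `P ξ` -/
lemma Ops.null (hd : 1 ≤ d) (h : Ops d P η₀) {ξ : Y →ₗ[ℝ] ℝ} (hξ : ξ ≠ 0)
    (hpos : ∀ u, 0 ≤ ⟪P ξ u, u⟫) (hdeg : ∃ u, u ≠ 0 ∧ ⟪P ξ u, u⟫ = 0) :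
    ∃ l : ℝ, 0 < l ∧ (∀ u, P ξ (P ξ u) = l • P ξ u) ∧ tau d P ξ = l / 2 ∧
      finrank ℝ (LinearMap.ker (P ξ)) = d ∧
      finrank ℝ (LinearMap.ker (P ξ - l • LinearMap.id)) = d := by
  obtain ⟨l₁, l₂, hle, h1, h2, h3⟩ := h.spec ξ
  obtain ⟨u₀, hu₀, hz⟩ := hdeg
  have hd' : (d : ℝ) ≠ 0 := by
    have : (1:ℝ) ≤ d := by exact_mod_cast hd
    linarith
  have hn0 : 0 < ‖u₀‖ ^ 2 := by positivity
  have hsq : ∀ u, ‖P ξ u‖ ^ 2 = (l₁ + l₂) * ⟪P ξ u, u⟫ - l₁ * l₂ * ‖u‖ ^ 2 := by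
    intro u
    have e1 : P ξ (P ξ u) = (l₁ + l₂) • P ξ u - (l₁ * l₂) • u := by
      have := h1 u
      rw [sub_add] at this
      exact sub_eq_zero.1 this
    rw [← real_inner_self_eq_norm_sq, h.sym, e1, inner_sub_right, inner_smul_right,
      inner_smul_right, real_inner_self_eq_norm_sq, real_inner_comm]
  have hlt : l₁ < l₂ := by
    rcases hle.lt_or_eq with h4 | h4
    · exact h4
    · exfalso
      -- scalar case
      have e1 : ∀ u, P ξ u = l₁ • u := by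
        intro u
        rw [← sub_eq_zero, ← norm_eq_zero]
        have e2 : ‖P ξ u - l₁ • u‖ ^ 2 = 0 := by
          rw [norm_sub_sq_real, norm_smul, mul_pow, hsq u, inner_smul_right, ← h4,
            Real.norm_eq_abs, sq_abs]
          ring
        exact pow_eq_zero_iff (two_ne_zero) |>.1 e2
      rw [e1, real_inner_smul_left, real_inner_self_eq_norm_sq] at hz
      have e3 : l₁ = 0 := (mul_eq_zero.1 hz).resolve_right hn0.ne'
      apply hξ
      apply h.inj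
      ext u
      rw [e1, e3, zero_smul]; rfl
  obtain ⟨h4, h5⟩ := h3 hlt
  have hl1 : 0 ≤ l₁ := by
    have : Nontrivial (LinearMap.ker (P ξ - l₁ • LinearMap.id)) := by
      apply Module.nontrivial_of_finrank_pos (R := ℝ)
      rw [h4]; omega
    obtain ⟨v, hv⟩ := _root_.exists_ne (0 : LinearMap.ker (P ξ - l₁ • LinearMap.id))
    have hv1 : P ξ (v : V) = l₁ • (v : V) := by
      have := v.2
      rw [LinearMap.mem_ker, LinearMap.sub_apply] at this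
      exact sub_eq_zero.1 this
    have hv2 := hpos (v : V)
    rw [hv1, real_inner_smul_left, real_inner_self_eq_norm_sq] at hv2
    have hv3 : 0 < ‖(v : V)‖ ^ 2 := by
      have : (v : V) ≠ 0 := fun hc => hv (Subtype.ext hc)
      positivity
    by_contra hcon
    push Not at hcon
    have := mul_neg_of_neg_of_pos hcon hv3
    linarith
  have hl10 : l₁ = 0 := by
    have e1 := hsq u₀
    rw [hz, mul_zero, zero_sub] at e1
    have e2 : 0 ≤ ‖P ξ u₀‖ ^ 2 := by positivity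
    rcases hl1.eq_or_lt with h6 | h6
    · exact h6.symm
    · exfalso
      have e3 : 0 < l₁ * l₂ * ‖u₀‖ ^ 2 := by
        have : 0 < l₂ := lt_trans h6 hlt
        positivity
      linarith
  subst hl10
  refine ⟨l₂, hlt, fun u => ?_, ?_, ?_, h5⟩
  · have := h1 u
    simp only [zero_add, zero_mul, zero_smul, add_zero] at this
    exact sub_eq_zero.1 this
  · rw [tau_apply, h2]; field_simp; ring
  · have e1 : P ξ - (0:ℝ) • LinearMap.id = P ξ := by ext u; simp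
    rw [e1] at h4
    exact h4

/-- orthogonality sum -/
lemma sum_inner_sq {E : Submodule ℝ V} (hE : finrank ℝ E = d) (f : Fin d → V)
    (hf : ∀ j, f j ∈ E) {c : ℝ} (hc : 0 < c)
    (ho : ∀ i j, ⟪f i, f j⟫ = if i = j then c ^ 2 else 0) {x : V} (hx : x ∈ E) :
    ∑ j, ⟪x, f j⟫ ^ 2 = c ^ 2 * ‖x‖ ^ 2 := by
  let g : Fin d → E := fun j => c⁻¹ • ⟨f j, hf j⟩
  have hg : Orthonormal ℝ g := by
    rw [orthonormal_iff_ite]
    intro i j
    change ⟪c⁻¹ • f i, c⁻¹ • f j⟫ = _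
    rw [real_inner_smul_left, inner_smul_right, ho]
    split_ifs
    · field_simp
    · simp
  have hspan : ⊤ ≤ Submodule.span ℝ (Set.range g) := by
    rw [hg.linearIndependent.span_eq_top_of_card_eq_finrank' (by rw [Fintype.card_fin, hE])]
  let e : OrthonormalBasis (Fin d) ℝ E := OrthonormalBasis.mk hg hspan
  have h1 := norm_sq_basis e ⟨x, hx⟩
  have h2 : ∀ i, ⟪e i, (⟨x, hx⟩ : E)⟫ = c⁻¹ * ⟪x, f i⟫ := by
    intro i
    rw [OrthonormalBasis.coe_mk]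
    change ⟪c⁻¹ • f i, x⟫ = _
    rw [real_inner_smul_left, real_inner_comm]
  have h3 : ⟪(⟨x, hx⟩ : E), ⟨x, hx⟩⟫ = ‖x‖ ^ 2 := by
    change ⟪x, x⟫ = _
    exact real_inner_self_eq_norm_sq x
  rw [h3] at h1
  rw [h1, Finset.mul_sum]
  refine Finset.sum_congr rfl fun i _ => ?_
  rw [h2]
  field_simp

/-- **normal form** -/
theorem Ops.normal (hd : 1 ≤ d) (h : Ops d P η₀) {ξ : Y →ₗ[ℝ] ℝ} (hξ : ξ ≠ 0)
    (hpos : ∀ u, 0 ≤ ⟪P ξ u, u⟫) (hdeg : ∃ u, u ≠ 0 ∧ ⟪P ξ u, u⟫ = 0) :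
    ∃ (α : V ≃ₗ[ℝ] Vd d × Vd d) (κ : Y ≃ₗ[ℝ] ℝ × ℝ × Vd d) (F : Vd d →ₗ[ℝ] Vd d →ₗ[ℝ] Vd d),
      (∀ a b, ‖F a b‖ = ‖a‖ * ‖b‖) ∧
      (∀ (y : Y) (w : V), (∀ η : Y →ₗ[ℝ] ℝ, η y = ⟪P η w, w⟫) →
        κ y = (‖(α w).1‖ ^ 2, ‖(α w).2‖ ^ 2, F (α w).1 (α w).2)) ∧
      ∀ y, (κ y).1 = ξ y := by
  classical
  obtain ⟨l, hl, hPP, htau, hk0, hkl⟩ := h.null hd hξ hpos hdeg
  have hd' : (d : ℝ) ≠ 0 := by
    have : (1:ℝ) ≤ d := by exact_mod_cast hd
    linarith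
  set Ep : Submodule ℝ V := LinearMap.ker (P ξ - l • LinearMap.id) with hEp
  set Em : Submodule ℝ V := LinearMap.ker (P ξ) with hEm
  have memp : ∀ u, u ∈ Ep ↔ P ξ u = l • u := by
    intro u
    rw [hEp, LinearMap.mem_ker, LinearMap.sub_apply, sub_eq_zero]; rfl
  have memm : ∀ u, u ∈ Em ↔ P ξ u = 0 := by
    intro u
    rw [hEm, LinearMap.mem_ker]
  -- the projections
  have hpp : ∀ u, (l⁻¹ • P ξ) u ∈ Ep := by
    intro u
    rw [memp, LinearMap.smul_apply, map_smul, hPP, smul_comm]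
  have hpm : ∀ u, (LinearMap.id - l⁻¹ • P ξ : V →ₗ[ℝ] V) u ∈ Em := by
    intro u
    rw [memm, LinearMap.sub_apply, LinearMap.smul_apply, LinearMap.id_apply, map_sub, map_smul,
      hPP, smul_smul, inv_mul_cancel₀ hl.ne', one_smul, sub_self]
  let Pp : V →ₗ[ℝ] Ep := LinearMap.codRestrict Ep (l⁻¹ • P ξ) hpp
  let Pn : V →ₗ[ℝ] Em := LinearMap.codRestrict Em (LinearMap.id - l⁻¹ • P ξ) hpm
  have Pp_coe : ∀ u, (Pp u : V) = l⁻¹ • P ξ u := fun u => rfl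
  have Pn_coe : ∀ u, (Pn u : V) = u - l⁻¹ • P ξ u := fun u => rfl
  have hsum : ∀ u, (Pp u : V) + Pn u = u := by
    intro u; rw [Pp_coe, Pn_coe]; abel
  have orth : ∀ x ∈ Ep, ∀ y ∈ Em, ⟪x, y⟫ = 0 := by
    intro x hx y hy
    have h1 : l * ⟪x, y⟫ = 0 := by
      rw [← real_inner_smul_left, ← (memp x).1 hx, h.sym, (memm y).1 hy, inner_zero_right]
    exact (mul_eq_zero.1 h1).resolve_left hl.ne'
  let ρp : Ep ≃ₗᵢ[ℝ] Vd d := ((stdOrthonormalBasis ℝ Ep).reindex (finCongr hkl)).repr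
  let ρm : Em ≃ₗᵢ[ℝ] Vd d := ((stdOrthonormalBasis ℝ Em).reindex (finCongr hk0)).repr
  -- α
  let α₀ : V →ₗ[ℝ] Vd d × Vd d := LinearMap.prod
    (Real.sqrt l • (ρp.toLinearEquiv.toLinearMap ∘ₗ Pp)) (ρm.toLinearEquiv.toLinearMap ∘ₗ Pn)
  have α₀1 : ∀ u, (α₀ u).1 = Real.sqrt l • ρp (Pp u) := fun u => rfl
  have α₀2 : ∀ u, (α₀ u).2 = ρm (Pn u) := fun u => rfl
  have hsl : 0 < Real.sqrt l := Real.sqrt_pos.2 hl
  have hα₀ : Function.Injective α₀ := by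
    rw [injective_iff_map_eq_zero]
    intro u hu
    have h1 : Real.sqrt l • ρp (Pp u) = 0 := by rw [← α₀1, hu]; rfl
    have h2 : ρm (Pn u) = 0 := by rw [← α₀2, hu]; rfl
    have h3 : ρp (Pp u) = 0 := (smul_eq_zero.1 h1).resolve_left hsl.ne'
    have h4 : Pp u = 0 := by
      have := congrArg ρp.symm h3
      simpa using this
    have h5 : Pn u = 0 := by
      have := congrArg ρm.symm h2
      simpa using this
    rw [← hsum u, h4, h5]; simp
  have hdim : finrank ℝ V = finrank ℝ (Vd d × Vd d) := by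
    rw [h.dimV, Module.finrank_prod, finrank_euclideanSpace, Fintype.card_fin]; ring
  let α : V ≃ₗ[ℝ] Vd d × Vd d := LinearMap.linearEquivOfInjective α₀ hα₀ hdim
  have αα : ∀ u, α u = α₀ u := fun u => rfl
  -- the covectors
  let K : Submodule ℝ (Y →ₗ[ℝ] ℝ) := LinearMap.ker ((tau d P).prod (bet d P ξ))
  have memK : ∀ η, η ∈ K ↔ tau d P η = 0 ∧ bet d P ξ η = 0 := by
    intro η
    change η ∈ LinearMap.ker ((tau d P).prod (bet d P ξ)) ↔ _
    rw [LinearMap.mem_ker, LinearMap.prod_apply]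
    exact Prod.mk_eq_zero
  have hQξ : ∀ u, Qm d P ξ u = P ξ u - (l / 2) • u := by
    intro u; rw [Qm_apply, htau]
  have hbξ : bet d P ξ ξ = (l / 2) ^ 2 := by
    obtain ⟨u, hu⟩ := h.exists_ne hd
    have h1 := h.Q_sq' hd ξ u
    rw [hQξ, hQξ, map_sub, map_smul, hPP] at h1
    have h2 : (bet d P ξ ξ - (l / 2) ^ 2) • u = 0 := by
      rw [sub_smul, ← h1]; module
    have h3 := (smul_eq_zero.1 h2).resolve_right hu
    linarith
  have hKdim : finrank ℝ K = d := by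
    have h1 := LinearMap.finrank_range_add_finrank_ker ((tau d P).prod (bet d P ξ))
    have h2 : finrank ℝ (Y →ₗ[ℝ] ℝ) = d + 2 := by
      rw [← h.dimY]; exact Subspace.dual_finrank_eq
    have h3 : LinearMap.range ((tau d P).prod (bet d P ξ)) = ⊤ := by
      rw [LinearMap.range_eq_top]
      rintro ⟨x, y⟩
      refine ⟨(x - y / (l / 2) ^ 2 * (l / 2)) • η₀ + (y / (l / 2) ^ 2) • ξ, ?_⟩
      rw [LinearMap.prod_apply]
      change (tau d P ((x - y / (l / 2) ^ 2 * (l / 2)) • η₀ + (y / (l / 2) ^ 2) • ξ),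
        bet d P ξ ((x - y / (l / 2) ^ 2 * (l / 2)) • η₀ + (y / (l / 2) ^ 2) • ξ)) = (x, y)
      rw [map_add, map_smul, map_smul, map_add, map_smul, map_smul, h.tau_one hd, htau,
        bet_symm ξ η₀, h.bet_one hd, hbξ]
      simp only [smul_eq_mul]
      ext
      · simp
      · simp; field_simp
    rw [h3, finrank_top, Module.finrank_prod, Module.finrank_self, h2] at h1
    have h4 : finrank ℝ (LinearMap.ker ((tau d P).prod (bet d P ξ))) = d := by omega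
    exact h4
  let bK : K →ₗ[ℝ] K →ₗ[ℝ] ℝ := (bet d P).domRestrict₁₂ K K
  have bK_apply : ∀ x y : K, bK x y = bet d P x y := fun x y => rfl
  obtain ⟨v, hv⟩ := exists_onb (V := K) hKdim bK (fun x y => by rw [bK_apply, bK_apply, bet_symm])
    (fun x hx => by
      rw [bK_apply]
      apply lt_of_le_of_ne (h.bet_nonneg hd _)
      intro h0
      exact hx (Subtype.ext (h.bet_eq_zero hd h0.symm ((memK _).1 x.2).1)))
  let η : Fin d → (Y →ₗ[ℝ] ℝ) := fun j => (v j : Y →ₗ[ℝ] ℝ)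
  have hηK : ∀ j, tau d P (η j) = 0 ∧ bet d P ξ (η j) = 0 := fun j => (memK _).1 (v j).2
  have hηη : ∀ i j, bet d P (η i) (η j) = if i = j then 1 else 0 := fun i j => hv i j
  have hQη : ∀ j u, Qm d P (η j) u = P (η j) u := by
    intro j u; rw [Qm_apply, (hηK j).1, zero_smul, sub_zero]
  -- mapping properties
  have hanti : ∀ j u, P (η j) (P ξ u) + P ξ (P (η j) u) = l • P (η j) u := by
    intro j u
    have h1 := h.anti hd (η j) ξ u
    rw [bet_symm, (hηK j).2, mul_zero, zero_smul, hQη, hQη, hQξ, hQξ, map_sub, map_smul] at h1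
    rw [← sub_eq_zero, ← h1]
    module
  have hmp : ∀ j, ∀ y ∈ Em, P (η j) y ∈ Ep := by
    intro j y hy
    rw [memp]
    have h1 := hanti j y
    rw [(memm y).1 hy, map_zero, zero_add] at h1
    exact h1
  have hpm' : ∀ j, ∀ x ∈ Ep, P (η j) x ∈ Em := by
    intro j x hx
    rw [memm]
    have h1 := hanti j x
    rw [(memp x).1 hx, map_smul] at h1
    have h2 : l • P (η j) x + P ξ (P (η j) x) - l • P (η j) x = 0 := by rw [h1, sub_self]
    rw [add_sub_cancel_left] at h2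
    exact h2
  -- the composition
  let F : Vd d →ₗ[ℝ] Vd d →ₗ[ℝ] Vd d := LinearMap.mk₂ ℝ
    (fun a b => WithLp.toLp 2 (fun j => ⟪((ρp.symm a : Ep) : V), P (η j) ((ρm.symm b : Em) : V)⟫))
    (by intro a b c; ext j; simp [inner_add_left])
    (by intro c a b; ext j; simp [real_inner_smul_left])
    (by intro a b c; ext j; simp [inner_add_right])
    (by intro c a b; ext j; simp [inner_smul_right])
  have F_apply : ∀ a b j, F a b j = ⟪((ρp.symm a : Ep) : V), P (η j) ((ρm.symm b : Em) : V)⟫ :=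
    fun a b j => rfl
  have hF : ∀ a b, ‖F a b‖ = ‖a‖ * ‖b‖ := by
    intro a b
    have ha : ‖((ρp.symm a : Ep) : V)‖ = ‖a‖ := by
      rw [← Submodule.coe_norm, LinearIsometryEquiv.norm_map]
    have hb : ‖((ρm.symm b : Em) : V)‖ = ‖b‖ := by
      rw [← Submodule.coe_norm, LinearIsometryEquiv.norm_map]
    have h1 : ‖F a b‖ ^ 2 = (‖a‖ * ‖b‖) ^ 2 := by
      rw [EuclideanSpace.real_norm_sq_eq]
      simp only [F_apply]
      by_cases hb0 : b = 0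
      · subst hb0; simp
      have hbp : 0 < ‖b‖ := norm_pos_iff.2 hb0
      rw [sum_inner_sq (d := d) hkl (fun j => P (η j) ((ρm.symm b : Em) : V))
        (fun j => hmp j _ (ρm.symm b).2) hbp ?_ (ρp.symm a).2, ha]
      · ring
      · intro i j
        have h2 := h.anti hd (η i) (η j) ((ρm.symm b : Em) : V)
        rw [hηη, hQη, hQη, hQη, hQη] at h2
        have h3 : ⟪P (η i) ((ρm.symm b : Em) : V), P (η j) ((ρm.symm b : Em) : V)⟫ =
            ⟪P (η i) (P (η j) ((ρm.symm b : Em) : V)) + P (η j) (P (η i) ((ρm.symm b : Em) : V)),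
              ((ρm.symm b : Em) : V)⟫ / 2 := by
          have a1 : ⟪P (η i) (P (η j) ((ρm.symm b : Em) : V)), ((ρm.symm b : Em) : V)⟫ =
              ⟪P (η i) ((ρm.symm b : Em) : V), P (η j) ((ρm.symm b : Em) : V)⟫ := by
            rw [h.sym, real_inner_comm]
          have a2 : ⟪P (η j) (P (η i) ((ρm.symm b : Em) : V)), ((ρm.symm b : Em) : V)⟫ =
              ⟪P (η i) ((ρm.symm b : Em) : V), P (η j) ((ρm.symm b : Em) : V)⟫ := by
            rw [h.sym]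
          rw [inner_add_left, a1, a2]
          ring
        rw [h3, h2, real_inner_smul_left, real_inner_self_eq_norm_sq, hb]
        split_ifs <;> ring
    exact (pow_left_inj₀ (norm_nonneg _) (by positivity) two_ne_zero).1 h1
  -- κ
  let κ₀ : Y →ₗ[ℝ] ℝ × ℝ × Vd d := LinearMap.prod ξ (LinearMap.prod (η₀ - l⁻¹ • ξ)
    ((WithLp.linearEquiv 2 ℝ (Fin d → ℝ)).symm.toLinearMap ∘ₗ
      LinearMap.pi (fun j => (Real.sqrt l / 2) • η j)))
  have κ₀1 : ∀ y, (κ₀ y).1 = ξ y := fun y => rfl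
  have κ₀2 : ∀ y, (κ₀ y).2.1 = η₀ y - l⁻¹ * ξ y := fun y => rfl
  have κ₀3 : ∀ y j, (κ₀ y).2.2 j = Real.sqrt l / 2 * η j y := fun y j => rfl
  have hκ₀ : Function.Injective κ₀ := by
    rw [injective_iff_map_eq_zero]
    intro y hy
    have h1 : ξ y = 0 := by rw [← κ₀1, hy]; rfl
    have h2 : η₀ y = 0 := by
      have : η₀ y - l⁻¹ * ξ y = 0 := by rw [← κ₀2, hy]; rfl
      rw [h1] at this; linarith
    have h3 : ∀ j, η j y = 0 := by
      intro j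
      have : Real.sqrt l / 2 * η j y = 0 := by rw [← κ₀3, hy]; rfl
      exact (mul_eq_zero.1 this).resolve_left (by positivity)
    have hK : ∀ ζ ∈ K, ζ y = 0 := by
      intro ζ hζ
      have h4 := v.sum_repr ⟨ζ, hζ⟩
      have h5 : ζ = ∑ j, v.repr ⟨ζ, hζ⟩ j • η j := by
        have := congrArg (fun z : K => (z : Y →ₗ[ℝ] ℝ)) h4
        simp only [Submodule.coe_sum, Submodule.coe_smul] at this
        exact this.symm
      rw [h5, LinearMap.sum_apply]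
      exact Finset.sum_eq_zero fun j _ => by rw [LinearMap.smul_apply, h3 j, smul_zero]
    rw [← Module.forall_dual_apply_eq_zero_iff ℝ y]
    intro ζ
    have h6 : ζ - (tau d P ζ - bet d P ξ ζ / (l / 2) ^ 2 * (l / 2)) • η₀ -
        (bet d P ξ ζ / (l / 2) ^ 2) • ξ ∈ K := by
      rw [memK]
      constructor
      · rw [map_sub, map_sub, map_smul, map_smul, h.tau_one hd, htau]
        simp only [smul_eq_mul]; ring
      · rw [map_sub, map_sub, map_smul, map_smul, bet_symm ξ η₀, h.bet_one hd, hbξ]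
        simp only [smul_eq_mul]; field_simp; ring
    have h7 := hK _ h6
    simp only [LinearMap.sub_apply, LinearMap.smul_apply, h1, h2, smul_zero, sub_zero] at h7
    exact h7
  have hdimκ : finrank ℝ Y = finrank ℝ (ℝ × ℝ × Vd d) := by
    rw [h.dimY, Module.finrank_prod, Module.finrank_prod, Module.finrank_self,
      finrank_euclideanSpace, Fintype.card_fin]; ring
  let κ : Y ≃ₗ[ℝ] ℝ × ℝ × Vd d := LinearMap.linearEquivOfInjective κ₀ hκ₀ hdimκ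
  refine ⟨α, κ, F, hF, ?_, fun y => κ₀1 y⟩
  intro y w hyw
  have hw := hsum w
  set x : V := (Pp w : V) with hx
  set z : V := (Pn w : V) with hz
  have hxE : x ∈ Ep := (Pp w).2
  have hzE : z ∈ Em := (Pn w).2
  have hxz : ⟪x, z⟫ = 0 := orth x hxE z hzE
  have hPw : P ξ w = l • x := by
    rw [hx, Pp_coe, smul_smul, mul_inv_cancel₀ hl.ne', one_smul]
  have hn1 : ‖(α w).1‖ ^ 2 = l * ‖x‖ ^ 2 := by
    rw [αα, α₀1, norm_smul, mul_pow, LinearIsometryEquiv.norm_map, Submodule.coe_norm,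
      Real.norm_eq_abs, sq_abs, Real.sq_sqrt hl.le]
  have hn2 : ‖(α w).2‖ ^ 2 = ‖z‖ ^ 2 := by
    rw [αα, α₀2, LinearIsometryEquiv.norm_map, Submodule.coe_norm]
  have hξw : ⟪P ξ w, w⟫ = l * ‖x‖ ^ 2 := by
    rw [hPw, real_inner_smul_left, ← hw, inner_add_right, hxz, real_inner_self_eq_norm_sq,
      add_zero]
  have hηw : ⟪P η₀ w, w⟫ = ‖x‖ ^ 2 + ‖z‖ ^ 2 := by
    rw [h.one, LinearMap.id_apply, ← hw, inner_add_left, inner_add_right, inner_add_right, hxz,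
      real_inner_comm x z, hxz, real_inner_self_eq_norm_sq, real_inner_self_eq_norm_sq]
    ring
  have hjw : ∀ j, ⟪P (η j) w, w⟫ = 2 * ⟪x, P (η j) z⟫ := by
    intro j
    have e1 : ⟪P (η j) x, x⟫ = 0 := by
      rw [real_inner_comm]; exact orth x hxE _ (hpm' j x hxE)
    have e2 : ⟪P (η j) z, z⟫ = 0 := orth _ (hmp j z hzE) z hzE
    rw [← hw, map_add, inner_add_left, inner_add_right, inner_add_right, e1, e2, h.sym (η j) x z,
      real_inner_comm x (P (η j) z)]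
    ring
  have e1 : (κ y).1 = ‖(α w).1‖ ^ 2 := by
    rw [hn1, ← hξw, ← hyw]; exact κ₀1 y
  have e2 : (κ y).2.1 = ‖(α w).2‖ ^ 2 := by
    have : (κ y).2.1 = η₀ y - l⁻¹ * ξ y := κ₀2 y
    rw [this, hn2, hyw, hyw, hξw, hηw]
    field_simp
    ring
  have e3 : (κ y).2.2 = F (α w).1 (α w).2 := by
    ext j
    have : (κ y).2.2 j = Real.sqrt l / 2 * η j y := κ₀3 y j
    rw [this, F_apply, hyw, hjw, αα, α₀1, α₀2, map_smul, LinearIsometryEquiv.symm_apply_apply,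
      LinearIsometryEquiv.symm_apply_apply, Submodule.coe_smul, real_inner_smul_left]
    ring
  exact Prod.ext e1 (Prod.ext e2 e3)

/-- existence of null covectors -/
lemma Ops.exists_null (hd : 1 ≤ d) (h : Ops d P η₀) :
    ∃ ξ : Y →ₗ[ℝ] ℝ, ξ ≠ 0 ∧ (∀ u, 0 ≤ ⟪P ξ u, u⟫) ∧ ∃ u, u ≠ 0 ∧ ⟪P ξ u, u⟫ = 0 := by
  have hfr : finrank ℝ (Y →ₗ[ℝ] ℝ) = d + 2 := by
    rw [← h.dimY]; exact Subspace.dual_finrank_eq
  obtain ⟨η, hη⟩ : ∃ η : Y →ₗ[ℝ] ℝ, ∀ c : ℝ, c • η₀ ≠ η := by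
    by_contra hcon
    push Not at hcon
    have := finrank_le_one η₀ hcon
    omega
  obtain ⟨l₁, l₂, hle, h1, h2, h3⟩ := h.spec η
  have hsq : ∀ u, ‖P η u‖ ^ 2 = (l₁ + l₂) * ⟪P η u, u⟫ - l₁ * l₂ * ‖u‖ ^ 2 := by
    intro u
    have e1 : P η (P η u) = (l₁ + l₂) • P η u - (l₁ * l₂) • u := by
      have := h1 u
      rw [sub_add] at this
      exact sub_eq_zero.1 this
    rw [← real_inner_self_eq_norm_sq, h.sym, e1, inner_sub_right, inner_smul_right,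
      inner_smul_right, real_inner_self_eq_norm_sq, real_inner_comm]
  have hlt : l₁ < l₂ := by
    rcases hle.lt_or_eq with h4 | h4
    · exact h4
    · exfalso
      have e1 : ∀ u, P η u = l₁ • u := by
        intro u
        rw [← sub_eq_zero, ← norm_eq_zero]
        have e2 : ‖P η u - l₁ • u‖ ^ 2 = 0 := by
          rw [norm_sub_sq_real, norm_smul, mul_pow, hsq u, inner_smul_right, ← h4,
            Real.norm_eq_abs, sq_abs]
          ring
        exact pow_eq_zero_iff (two_ne_zero) |>.1 e2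
      apply hη l₁
      rw [← sub_eq_zero]
      apply h.inj
      ext u
      rw [map_sub, map_smul, h.one, LinearMap.sub_apply, LinearMap.smul_apply, LinearMap.id_apply,
        e1, sub_self]; rfl
  obtain ⟨h4, h5⟩ := h3 hlt
  have hP : ∀ u, P (η - l₁ • η₀) u = P η u - l₁ • u := by
    intro u
    rw [map_sub, map_smul, h.one]; rfl
  refine ⟨η - l₁ • η₀, ?_, ?_, ?_⟩
  · intro h0
    exact hη l₁ (sub_eq_zero.1 h0).symm
  · intro u
    have e1 : ‖P η u - l₁ • u‖ ^ 2 = (l₂ - l₁) * ⟪P (η - l₁ • η₀) u, u⟫ := by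
      rw [hP, norm_sub_sq_real, norm_smul, mul_pow, hsq u, inner_smul_right, inner_sub_left,
        real_inner_smul_left, real_inner_self_eq_norm_sq, Real.norm_eq_abs, sq_abs]
      ring
    have e2 : 0 ≤ (l₂ - l₁) * ⟪P (η - l₁ • η₀) u, u⟫ := by rw [← e1]; positivity
    exact nonneg_of_mul_nonneg_right e2 (by linarith)
  · have : Nontrivial (LinearMap.ker (P η - l₁ • LinearMap.id)) := by
      apply Module.nontrivial_of_finrank_pos (R := ℝ)
      rw [h4]; omega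
    obtain ⟨v, hv⟩ := _root_.exists_ne (0 : LinearMap.ker (P η - l₁ • LinearMap.id))
    refine ⟨v, fun hc => hv (Subtype.ext hc), ?_⟩
    have hv1 : P η (v : V) - l₁ • (v : V) = 0 := by
      have := v.2
      rw [LinearMap.mem_ker, LinearMap.sub_apply] at this
      exact this
    rw [hP, hv1, inner_zero_left]

end NF

section Alg

set_option linter.style.haveILetI false

variable {V : Type*} [AddCommGroup V] [Module ℝ V] [FiniteDimensional ℝ V]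
  {Y : Type*} [AddCommGroup Y] [Module ℝ Y] [FiniteDimensional ℝ Y]

theorem nf_alg {d : ℕ} (hd : 1 ≤ d) (hV : finrank ℝ V = 2 * d) (hY : finrank ℝ Y = d + 2)
    (B : V →ₗ[ℝ] V →ₗ[ℝ] Y) (hs : ∀ u v, B u v = B v u) (η₀ : Y →ₗ[ℝ] ℝ)
    (hp : ∀ u, u ≠ 0 → 0 < η₀ (B u u))
    (hinj : ∀ η : Y →ₗ[ℝ] ℝ, (∀ u, η (B u u) = 0) → η = 0)
    (hidx : ∀ η : Y →ₗ[ℝ] ℝ, IC d (fun u => η (B u u)))
    :
    (∃ ξ : Y →ₗ[ℝ] ℝ, ξ ≠ 0 ∧ (∀ u, 0 ≤ ξ (B u u)) ∧ ∃ u, u ≠ 0 ∧ ξ (B u u) = 0) ∧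
    ∀ (ξ : Y →ₗ[ℝ] ℝ) (_ : ξ ≠ 0) (_ : ∀ u, 0 ≤ ξ (B u u)) (_ : ∃ u, u ≠ 0 ∧ ξ (B u u) = 0),
    ∃ (α : V ≃ₗ[ℝ] Vd d × Vd d) (κ : Y ≃ₗ[ℝ] ℝ × ℝ × Vd d) (F : Vd d →ₗ[ℝ] Vd d →ₗ[ℝ] Vd d),
      (∀ a b, ‖F a b‖ = ‖a‖ * ‖b‖) ∧
      (∀ w : V, κ (B w w) = (‖(α w).1‖ ^ 2, ‖(α w).2‖ ^ 2, F (α w).1 (α w).2)) ∧
      ∀ y, (κ y).1 = ξ y := by
  let b : V →ₗ[ℝ] V →ₗ[ℝ] ℝ := B.compr₂ η₀
  have hb : ∀ u v, b u v = η₀ (B u v) := fun u v => rfl
  letI c := core b (fun u v => by rw [hb, hb, hs]) hp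
  letI : NormedAddCommGroup V := c.toNormedAddCommGroup
  letI : InnerProductSpace ℝ V := InnerProductSpace.ofCore c.toCore
  have hin : ∀ u v : V, ⟪u, v⟫ = η₀ (B u v) := fun u v => rfl
  obtain ⟨P, hP⟩ := exists_P B
  have hsym : ∀ η u v, ⟪P η u, v⟫ = ⟪u, P η v⟫ := by
    intro η u v
    rw [hP, real_inner_comm, hP, hs]
  have hops : Ops d P η₀ :=
    { dimV := hV
      dimY := hY
      sym := hsym
      one := by
        ext u
        apply ext_inner_right ℝ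
        intro v
        rw [hP, LinearMap.id_apply, hin]
      inj := by
        intro η hη
        apply hinj
        intro u
        rw [← hP, hη, LinearMap.zero_apply, inner_zero_left]
      spec := by
        intro η
        apply spec_ip hd hV (P η) (fun u v => hsym η u v)
        intro t W₁ W₂ h2 h3 h4
        have key : ∀ u : V, ⟪P η u, u⟫ - t * ⟪u, u⟫ = (η - t • η₀) (B u u) := by
          intro u
          rw [hP, hin]; rfl
        exact hidx (η - t • η₀) W₁ W₂ h2 (fun u hu hu0 => lt_of_eq_of_lt (key u).symm (h3 u hu hu0))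
          (fun u hu hu0 => lt_of_lt_of_eq (h4 u hu hu0) (key u)) }
  constructor
  · obtain ⟨ξ, h1, h2, u, h3, h4⟩ := hops.exists_null hd
    exact ⟨ξ, h1, fun u => by rw [← hP]; exact h2 u, u, h3, by rw [← hP]; exact h4⟩
  · intro ξ hξ hpos hdeg
    obtain ⟨α, κ, F, h1, h2, h3⟩ := hops.normal hd hξ (fun u => by rw [hP]; exact hpos u)
      (by obtain ⟨u, hu, hu0⟩ := hdeg; exact ⟨u, hu, by rw [hP]; exact hu0⟩)
    exact ⟨α, κ, F, h1, fun w => h2 _ w (fun η => (hP η w w).symm), h3⟩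

end Alg

end BlkA

section Pointwise

variable {T Y : Type} [NormedAddCommGroup T] [NormedSpace ℝ T] [FiniteDimensional ℝ T]
  [NormedAddCommGroup Y] [NormedSpace ℝ Y] [FiniteDimensional ℝ Y]

open BlkA

/-- (A2) normal form adapted to a given null covector. -/
theorem exists_normalForm {d : ℕ} (hd : 1 ≤ d) {B : T →L[ℝ] T →L[ℝ] Y} (h : PtData d B)
    (ξ : Y →L[ℝ] ℝ) (hξ : NullCov B ξ) :
    ∃ nf : NormalForm d B, ∀ y, (nf.κ y).1 = ξ y := by
  obtain ⟨η₀, hη₀⟩ := h.pos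
  obtain ⟨hξ0, hξ1, hξ2⟩ := hξ
  let B' : T →ₗ[ℝ] T →ₗ[ℝ] Y := LinearMap.mk₂ ℝ (fun u v => B u v)
    (by intro a b c; simp) (by intro c a b; simp) (by intro a b c; simp) (by intro c a b; simp)
  have hB' : ∀ u v, B' u v = B u v := fun u v => rfl
  have hc : ∀ η : Y →ₗ[ℝ] ℝ, ∀ y, LinearMap.toContinuousLinearMap η y = η y := fun η y => rfl
  obtain ⟨α, κ, F, h1, h2, h3⟩ := (nf_alg hd h.finT h.finY B' (fun u v => h.symm u v)
    (η₀ : Y →ₗ[ℝ] ℝ) hη₀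
    (fun η hη => by
      have := h.inj (LinearMap.toContinuousLinearMap η) hη
      exact (LinearMap.toContinuousLinearMap).map_eq_zero_iff.1 this)
    (fun η => h.index (LinearMap.toContinuousLinearMap η))).2
    (ξ : Y →ₗ[ℝ] ℝ) (fun h0 => hξ0 (by ext y; exact congrArg (fun f : Y →ₗ[ℝ] ℝ => f y) h0))
    hξ1 hξ2
  let F' : Vd d →L[ℝ] Vd d →L[ℝ] Vd d :=
    LinearMap.toContinuousLinearMap ((LinearMap.toContinuousLinearMap : (Vd d →ₗ[ℝ] Vd d) ≃ₗ[ℝ]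
      (Vd d →L[ℝ] Vd d)).toLinearMap ∘ₗ F)
  have hF' : ∀ a b, F' a b = F a b := fun a b => rfl
  refine ⟨{ α := α.toContinuousLinearEquiv
            κ := κ.toContinuousLinearEquiv
            F := F'
            comp := fun a b => by rw [hF']; exact h1 a b
            eq := fun w => h2 w }, fun y => h3 y⟩

/-- (A3) existence of a null covector. -/
theorem exists_nullCov {d : ℕ} (hd : 1 ≤ d) {B : T →L[ℝ] T →L[ℝ] Y} (h : PtData d B) :
    ∃ ξ, NullCov B ξ := by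
  obtain ⟨η₀, hη₀⟩ := h.pos
  let B' : T →ₗ[ℝ] T →ₗ[ℝ] Y := LinearMap.mk₂ ℝ (fun u v => B u v)
    (by intro a b c; simp) (by intro c a b; simp) (by intro a b c; simp) (by intro c a b; simp)
  obtain ⟨ξ, h1, h2, h3⟩ := (nf_alg hd h.finT h.finY B' (fun u v => h.symm u v)
    (η₀ : Y →ₗ[ℝ] ℝ) hη₀
    (fun η hη => by
      have := h.inj (LinearMap.toContinuousLinearMap η) hη
      exact (LinearMap.toContinuousLinearMap).map_eq_zero_iff.1 this)
    (fun η => h.index (LinearMap.toContinuousLinearMap η))).1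
  refine ⟨LinearMap.toContinuousLinearMap ξ, fun h0 => h1 ?_, h2, h3⟩
  exact (LinearMap.toContinuousLinearMap).map_eq_zero_iff.1 h0

end Pointwise

end Pool.Agent.TP
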