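import Pool.Agent.Lib_helper56.LatT3

/-!
# Block T: first singular cohomology of the quotient of a CAT(0) space
-/

namespace Pool.Agent.Lat

open Set Topology

universe u v

namespace T56

section Lift

variable {B : Type*} [TopologicalSpace B] (g : C(B, AddCircle (1 : ℝ)))

theorem lpc_simplex (n : ℕ) : LocallyPathConnectedSpace (stdSimplex ℝ (Fin (n + 1))) :=
  (convex_stdSimplex ℝ (Fin (n + 1))).locallyPathConnectedSpace

theorem contr_simplex (n : ℕ) : ContractibleSpace (stdSimplex ℝ (Fin (n + 1))) :=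
  (convex_stdSimplex ℝ (Fin (n + 1))).contractibleSpace
    ⟨_, (stdSimplex.vertex (S := ℝ) (0 : Fin (n + 1))).2⟩

theorem exists_lift {n : ℕ} (s : SingSimplex n B) : ∃ L : C(stdSimplex ℝ (Fin (n + 1)), ℝ),
    ∀ w, ((L w : ℝ) : AddCircle (1 : ℝ)) = g (s w) := by
  have h1 := lpc_simplex n
  have h2 := contr_simplex n
  obtain ⟨e, he⟩ : ∃ e : ℝ, (e : AddCircle (1 : ℝ)) =
      g (s (stdSimplex.vertex (S := ℝ) (0 : Fin (n + 1)))) := QuotientAddGroup.mk_surjective _
  obtain ⟨L, ⟨_, hL⟩, _⟩ := (AddCircle.isCoveringMap_coe (1 : ℝ)).existsUnique_continuousMap_lifts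
    (g.comp s) (stdSimplex.vertex (S := ℝ) (0 : Fin (n + 1))) e he
  exact ⟨L, fun w => congrFun hL w⟩

theorem lift_unique {A : Type*} [TopologicalSpace A] [PreconnectedSpace A] (L L' : C(A, ℝ))
    (h : ∀ w, ((L w : ℝ) : AddCircle (1 : ℝ)) = (L' w : ℝ)) (a b : A) :
    L b - L a = L' b - L' a := by
  have hcov := AddCircle.isCoveringMap_coe (1 : ℝ)
  have h1 : (L : A → ℝ) = fun w => L' w + (L a - L' a) := by
    refine hcov.eq_of_comp_eq L.continuous (L'.continuous.add continuous_const) ?_ a (by ring)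
    funext w
    simp only [Function.comp_apply]
    have h2 : ((L a - L' a : ℝ) : AddCircle (1 : ℝ)) = 0 := by
      rw [AddCircle.coe_sub, h a, sub_self]
    rw [AddCircle.coe_add, h2, add_zero, h w]
  have h2 := congrFun h1 b
  rw [h2]
  ring

/-- first and second vertex of the interval -/
noncomputable def v0 : stdSimplex ℝ (Fin 2) := stdSimplex.vertex (S := ℝ) (0 : Fin 2)
noncomputable def v1 : stdSimplex ℝ (Fin 2) := stdSimplex.vertex (S := ℝ) (1 : Fin 2)

/-- variation of a real lift along a path -/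
noncomputable def theta (s : SingSimplex 1 B) : ℝ :=
  (exists_lift g s).choose v1 - (exists_lift g s).choose v0

theorem theta_eq (s : SingSimplex 1 B) (L : C(stdSimplex ℝ (Fin 2), ℝ))
    (hL : ∀ w, ((L w : ℝ) : AddCircle (1 : ℝ)) = g (s w)) : theta g s = L v1 - L v0 := by
  have h2 := contr_simplex 1
  refine lift_unique _ L (fun w => ?_) v0 v1
  rw [(exists_lift g s).choose_spec w]
  exact (hL w).symm

variable (σ : B → ℝ)

/-- the integral cocycle -/
noncomputable def cc (s : SingSimplex 1 B) : ℤ := ⌊theta g s - (σ (s v1) - σ (s v0))⌋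

variable (hσ : ∀ b, ((σ b : ℝ) : AddCircle (1 : ℝ)) = g b)

include hσ

theorem cc_eq (s : SingSimplex 1 B) : (cc g σ s : ℝ) = theta g s - (σ (s v1) - σ (s v0)) := by
  obtain ⟨L, hL⟩ := exists_lift g s
  have hint : ∀ w, ∃ m : ℤ, L w - σ (s w) = m := by
    intro w
    have h1 : ((L w - σ (s w) : ℝ) : AddCircle (1 : ℝ)) = 0 := by
      rw [AddCircle.coe_sub, hL, hσ, sub_self]
    rw [AddCircle.coe_eq_zero_iff] at h1
    obtain ⟨m, hm⟩ := h1
    exact ⟨m, by rw [← hm]; simp⟩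
  obtain ⟨m1, h1⟩ := hint v1
  obtain ⟨m0, h0⟩ := hint v0
  rw [cc, theta_eq g s L hL]
  have : L v1 - L v0 - (σ (s v1) - σ (s v0)) = ((m1 - m0 : ℤ) : ℝ) := by
    push_cast
    rw [← h1, ← h0]
    ring
  rw [this, Int.floor_intCast]

theorem cc_cocycle : coboundary 1 B (cc g σ) = 0 := by
  funext s
  rw [coboundary_one_apply]
  obtain ⟨L, hL⟩ := exists_lift g s
  let a : Fin 3 → ℝ := fun j => L (stdSimplex.vertex (S := ℝ) j) -
    σ (s (stdSimplex.vertex (S := ℝ) j))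
  have hface : ∀ i : Fin 3, (cc g σ (s.face i) : ℝ) = a (i.succAbove 1) - a (i.succAbove 0) := by
    intro i
    rw [cc_eq g σ hσ, theta_eq g (s.face i) (L.comp ⟨stdSimplex.map i.succAbove,
      stdSimplex.continuous_map _⟩) (fun w => hL _)]
    have e1 : stdSimplex.map (S := ℝ) i.succAbove v1 =
        stdSimplex.vertex (S := ℝ) (i.succAbove 1) := stdSimplex.map_vertex _ _
    have e0 : stdSimplex.map (S := ℝ) i.succAbove v0 =
        stdSimplex.vertex (S := ℝ) (i.succAbove 0) := stdSimplex.map_vertex _ _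
    change L (stdSimplex.map i.succAbove v1) - L (stdSimplex.map i.succAbove v0) -
      (σ (s (stdSimplex.map i.succAbove v1)) - σ (s (stdSimplex.map i.succAbove v0))) = _
    rw [e1, e0]
    simp only [a]
    ring
  have h0 := hface 0
  have h1 := hface 1
  have h2 := hface 2
  have e01 : (0 : Fin 3).succAbove 1 = 2 := by decide
  have e00 : (0 : Fin 3).succAbove 0 = 1 := by decide
  have e11 : (1 : Fin 3).succAbove 1 = 2 := by decide
  have e10 : (1 : Fin 3).succAbove 0 = 0 := by decide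
  have e21 : (2 : Fin 3).succAbove 1 = 1 := by decide
  have e20 : (2 : Fin 3).succAbove 0 = 0 := by decide
  rw [e01, e00] at h0
  rw [e11, e10] at h1
  rw [e21, e20] at h2
  have h : ((cc g σ (s.face 0) - cc g σ (s.face 1) + cc g σ (s.face 2) : ℤ) : ℝ) = (0 : ℤ) := by
    push_cast
    rw [h0, h1, h2]
    ring
  exact_mod_cast h

end Lift

section Surj

variable {X : Type u} [MetricSpace X] {Γ : Type v} [Group Γ] (hX : IsCAT0 X)
  (Φ : Γ →* (X ≃ᵢ X)) (S : Setoid X) (hS : ∀ x y, S x y ↔ ∃ γ, Φ γ x = y)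

theorem Psi_surjective (x₀ : X)
    (hdisc : ∀ x : X, ∃ r > 0, ∀ γ, dist (Φ γ x) x < r → Φ γ x = x)
    (hcoc : ∃ Q : Set X, IsCompact Q ∧ ∀ x, ∃ γ, Φ γ x ∈ Q)
    (hkill : ∀ (φ : Additive Γ →+ ℤ) (γ : Γ) (x : X), Φ γ x = x → φ (Additive.ofMul γ) = 0) :
    Function.Surjective (Psi hX Φ S hS x₀) := by
  intro φ
  obtain ⟨F, hF, hFe⟩ := exists_equivariant Φ hdisc hcoc φ (hkill φ)
  let g : C(Quotient S, AddCircle (1 : ℝ)) :=
    ⟨Quotient.lift (fun x => ((F x : ℝ) : AddCircle (1 : ℝ))) (by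
      intro x y hxy
      obtain ⟨γ, rfl⟩ := (hS x y).1 hxy
      have h1 : ((φ (Additive.ofMul γ) : ℝ) : AddCircle (1 : ℝ)) = 0 := by
        rw [AddCircle.coe_eq_zero_iff]
        exact ⟨φ (Additive.ofMul γ), by simp⟩
      rw [hFe, AddCircle.coe_add, h1, add_zero]),
      Continuous.quotient_lift ((AddCircle.continuous_mk' (1 : ℝ)).comp hF) _⟩
  have hg : ∀ x, g (qm S x) = ((F x : ℝ) : AddCircle (1 : ℝ)) := fun x => rfl
  let σ : Quotient S → ℝ := Quotient.lift (fun x => Int.fract (F x)) (by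
      intro x y hxy
      obtain ⟨γ, rfl⟩ := (hS x y).1 hxy
      rw [hFe, Int.fract_add_intCast])
  have hσq : ∀ x, σ (qm S x) = Int.fract (F x) := fun x => rfl
  have hσ : ∀ b, ((σ b : ℝ) : AddCircle (1 : ℝ)) = g b := by
    intro b
    obtain ⟨x, rfl⟩ : ∃ x, qm S x = b := Quotient.exists_rep b
    rw [hg, hσq]
    have h2 : ((⌊F x⌋ : ℝ) : AddCircle (1 : ℝ)) = 0 := by
      rw [AddCircle.coe_eq_zero_iff]
      exact ⟨⌊F x⌋, by simp⟩
    have h3 : Int.fract (F x) = F x - ⌊F x⌋ := rfl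
    rw [h3, AddCircle.coe_sub, h2, sub_zero]
  refine ⟨⟨cc g σ, cc_cocycle g σ hσ⟩, ?_⟩
  refine DFunLike.ext _ _ fun γ => ?_
  rw [Psi_apply]
  set y := Φ γ.toMul x₀ with hy
  change cc g σ (seg ((qm S).comp (ray hX x₀ y)) 0 1) = φ γ
  have hL := theta_eq g (seg ((qm S).comp (ray hX x₀ y)) 0 1)
    (⟨fun w => F (ray hX x₀ y ((w 0) • (0 : ℝ) + (w 1) • (1 : ℝ))),
      hF.comp ((ray hX x₀ y).continuous.comp
        (((continuous_coord 0).smul continuous_const).add
          ((continuous_coord 1).smul continuous_const)))⟩) (fun w => rfl)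
  have w10 : (v1 : stdSimplex ℝ (Fin 2)) 0 = 0 := by simp [v1]
  have w11 : (v1 : stdSimplex ℝ (Fin 2)) 1 = 1 := by simp [v1]
  have w00 : (v0 : stdSimplex ℝ (Fin 2)) 0 = 1 := by simp [v0]
  have w01 : (v0 : stdSimplex ℝ (Fin 2)) 1 = 0 := by simp [v0]
  have hc := cc_eq g σ hσ (seg ((qm S).comp (ray hX x₀ y)) 0 1)
  rw [hL] at hc
  simp only [ContinuousMap.coe_mk, seg_apply, w10, w11, w00, w01, smul_eq_mul, mul_zero, mul_one,
    zero_add, add_zero, ContinuousMap.comp_apply, ray_zero, ray_one] at hc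
  have h4 : qm S y = qm S x₀ := qm_smul Φ S hS _ _
  have h5 : F y = F x₀ + φ γ := hFe γ.toMul x₀
  rw [h4, h5] at hc
  have h6 : (cc g σ (seg ((qm S).comp (ray hX x₀ y)) 0 1) : ℝ) = (φ γ : ℝ) := by
    rw [hc]; ring
  exact_mod_cast h6

end Surj

end T56

/-- The first singular cohomology of the quotient. -/
theorem singularH1_quotient {X : Type u} [MetricSpace X] {Γ : Type v} [Group Γ] (hX : IsCAT0 X)
    (Φ : Γ →* (X ≃ᵢ X))
    (hdisc : ∀ x : X, ∃ r > 0, ∀ γ, dist (Φ γ x) x < r → Φ γ x = x)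
    (hcoc : ∃ Q : Set X, IsCompact Q ∧ ∀ x, ∃ γ, Φ γ x ∈ Q)
    (S : Setoid X) (hS : ∀ x y, S x y ↔ ∃ γ, Φ γ x = y)
    (hkill : ∀ (φ : Additive Γ →+ ℤ) (γ : Γ) (x : X), Φ γ x = x → φ (Additive.ofMul γ) = 0) :
    Nonempty ((Additive Γ →+ ℤ) ≃+ SingularH1 (Quotient S)) := by
  obtain ⟨x₀⟩ := hX.nonempty
  have hker : (T56.Psi hX Φ S hS x₀).ker =
      (coboundary 0 (Quotient S)).range.addSubgroupOf (coboundary 1 (Quotient S)).ker := by
    ext c
    rw [AddMonoidHom.mem_ker, AddSubgroup.mem_addSubgroupOf]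
    exact ⟨fun h => T56.coboundary_of_Psi_eq_zero hX Φ S hS x₀ hdisc c h,
      fun h => T56.Psi_coboundary hX Φ S hS x₀ c h⟩
  have e1 := QuotientAddGroup.quotientKerEquivOfSurjective _
    (T56.Psi_surjective hX Φ S hS x₀ hdisc hcoc hkill)
  have e2 := QuotientAddGroup.quotientAddEquivOfEq hker
  exact ⟨e1.symm.trans e2⟩

end Pool.Agent.Lat
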