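import Pool.Agent.Lib_helper56.ST.Lines

/-!
# MP_a2cbb7_co, block C : the Szemerédi–Trotter theorem in `ℂ`
-/

set_option autoImplicit false

namespace Pool.Agent.DD

open Finset Classical

noncomputable section

/-- shear -/
def sh (t : ℝ) (z : ℂ) : ℝ × ℝ := (z.re + t * z.im, z.im)

lemma sh_inj (t : ℝ) : Function.Injective (sh t) := by
  intro z w h
  have h1 : z.re + t * z.im = w.re + t * w.im := congrArg Prod.fst h
  have h2 : z.im = w.im := congrArg Prod.snd h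
  rw [h2] at h1
  exact Complex.ext (by linarith) h2

lemma exists_shear (P : Finset ℂ) :
    ∃ t : ℝ, ∀ u ∈ P, ∀ w ∈ P, u.re + t * u.im = w.re + t * w.im → u = w := by
  obtain ⟨t, ht⟩ := Infinite.exists_notMem_finset
    ((P ×ˢ P).image fun q => -(q.1.re - q.2.re) / (q.1.im - q.2.im))
  refine ⟨t, fun u hu w hw h => ?_⟩
  by_cases him : u.im = w.im
  · rw [him] at h
    exact Complex.ext (by linarith) him
  · exfalso
    apply ht
    rw [Finset.mem_image]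
    refine ⟨(u, w), Finset.mem_product.2 ⟨hu, hw⟩, ?_⟩
    have h0 : u.im - w.im ≠ 0 := sub_ne_zero.2 him
    change -(u.re - w.re) / (u.im - w.im) = t
    rw [div_eq_iff h0]
    linarith

lemma line_rep {P : Finset ℂ} {t : ℝ}
    (ht : ∀ u ∈ P, ∀ w ∈ P, u.re + t * u.im = w.re + t * w.im → u = w) {l : Set ℂ}
    (hl : IsLine l) (h2 : 2 ≤ on P l) :
    ∃ ab : ℝ × ℝ, ∀ z : ℂ, z ∈ l ↔ z.im = ab.1 * (z.re + t * z.im) + ab.2 := by
  obtain ⟨α, β, γ, hab, rfl⟩ := hl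
  unfold on at h2
  obtain ⟨u, hu, w, hw, huw⟩ := Finset.one_lt_card.1 h2
  rw [Finset.mem_filter] at hu hw
  have hu2 : α * u.re + β * u.im = γ := hu.2
  have hw2 : α * w.re + β * w.im = γ := hw.2
  have hδ : β - α * t ≠ 0 := by
    intro h
    have hβ : β = α * t := by linarith
    have hα : α ≠ 0 := by
      rcases hab with h1 | h1
      · exact h1
      · intro h2; rw [h2, zero_mul] at hβ; exact h1 hβ
    apply huw
    apply ht u hu.1 w hw.1
    have : α * (u.re + t * u.im) = α * (w.re + t * w.im) := by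
      rw [hβ] at hu2 hw2
      linarith
    exact mul_left_cancel₀ hα this
  refine ⟨(-α / (β - α * t), γ / (β - α * t)), fun z => ?_⟩
  have e1 : -α / (β - α * t) * (z.re + t * z.im) + γ / (β - α * t) =
      (γ - α * (z.re + t * z.im)) / (β - α * t) := by ring
  change α * z.re + β * z.im = γ ↔ z.im = -α / (β - α * t) * (z.re + t * z.im) + γ / (β - α * t)
  rw [e1, eq_div_iff hδ]
  constructor
  · intro h; linarith
  · intro h; linarith

theorem st_core (P : Finset ℂ) (L : Finset (Set ℂ)) (hL : ∀ l ∈ L, IsLine l) :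
    (∑ l ∈ L, (on P l - 1) ≤ 8 * P.card) ∨
    (∑ l ∈ L, (on P l - 1)) ^ 3 ≤ 128 * P.card ^ 2 * L.card ^ 2 := by
  obtain ⟨t, ht⟩ := exists_shear P
  set Q : Finset (ℝ × ℝ) := P.image (sh t) with hQdef
  have hQc : Q.card = P.card := Finset.card_image_of_injective P (sh_inj t)
  have hQ : ∀ u ∈ Q, ∀ w ∈ Q, u.1 = w.1 → u = w := by
    intro u hu w hw h
    rw [hQdef, Finset.mem_image] at hu hw
    obtain ⟨a, ha, rfl⟩ := hu
    obtain ⟨b, hb, rfl⟩ := hw
    rw [ht a ha b hb h]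
  set L₂ := L.filter fun l => 2 ≤ on P l with hL₂
  have hex : ∀ l ∈ L₂, ∃ ab : ℝ × ℝ, ∀ z : ℂ, z ∈ l ↔ z.im = ab.1 * (z.re + t * z.im) + ab.2 := by
    intro l hl
    rw [hL₂, Finset.mem_filter] at hl
    exact line_rep ht (hL l hl.1) hl.2
  choose! F hF using hex
  have hinj : ∀ l ∈ L₂, ∀ l' ∈ L₂, F l = F l' → l = l' := by
    intro l hl l' hl' h
    ext z
    rw [hF l hl z, hF l' hl' z, h]
  have hpts : ∀ l ∈ L₂, (ST.pts Q (F l)).card = on P l := by
    intro l hl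
    have : ST.pts Q (F l) = (P.filter fun z => z ∈ l).image (sh t) := by
      ext q
      rw [ST.mem_pts, hQdef, Finset.mem_image, Finset.mem_image]
      constructor
      · rintro ⟨⟨z, hz, rfl⟩, h⟩
        exact ⟨z, Finset.mem_filter.2 ⟨hz, (hF l hl z).2 h⟩, rfl⟩
      · rintro ⟨z, hz, rfl⟩
        rw [Finset.mem_filter] at hz
        exact ⟨⟨z, hz.1, rfl⟩, (hF l hl z).1 hz.2⟩
    rw [this, Finset.card_image_of_injective _ (sh_inj t)]
    rfl
  have hsum : ∑ l ∈ L, (on P l - 1) = ∑ l ∈ L₂.image F, ((ST.pts Q l).card - 1) := by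
    rw [Finset.sum_image hinj]
    rw [Finset.sum_congr rfl (fun l hl => by rw [hpts l hl] : ∀ l ∈ L₂,
      (ST.pts Q (F l)).card - 1 = on P l - 1)]
    rw [hL₂, Finset.sum_filter]
    refine Finset.sum_congr rfl fun l _ => ?_
    split_ifs with h
    · rfl
    · omega
  have hcard : (L₂.image F).card ≤ L.card :=
    Finset.card_image_le.trans (Finset.card_le_card (Finset.filter_subset _ _))
  rw [hsum, ← hQc]
  rcases ST.core hQ (L₂.image F) with h | h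
  · exact Or.inl h
  · right
    exact h.trans (Nat.mul_le_mul_left _ (Nat.pow_le_pow_left hcard 2))

lemma rpow_two_thirds_pow (x : ℝ) (hx : 0 ≤ x) : (x ^ ((2:ℝ)/3)) ^ 3 = x ^ 2 := by
  rw [← Real.rpow_natCast, ← Real.rpow_mul hx]
  norm_num

theorem szemeredi_trotter : ∃ C : ℝ, 0 < C ∧ ∀ (P : Finset ℂ) (L : Finset (Set ℂ)),
    (∀ l ∈ L, IsLine l) →
    ∑ l ∈ L, (on P l : ℝ) ≤
      C * ((P.card : ℝ) ^ ((2:ℝ)/3) * (L.card : ℝ) ^ ((2:ℝ)/3) + P.card + L.card) := by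
  refine ⟨8, by norm_num, fun P L hL => ?_⟩
  have h1 : ∑ l ∈ L, (on P l : ℝ) ≤ ((∑ l ∈ L, (on P l - 1) : ℕ) : ℝ) + L.card := by
    have : ∑ l ∈ L, on P l ≤ ∑ l ∈ L, (on P l - 1) + L.card := by
      rw [Finset.card_eq_sum_ones, ← Finset.sum_add_distrib]
      apply Finset.sum_le_sum
      intro l _
      omega
    exact_mod_cast this
  have hx : 0 ≤ (P.card : ℝ) ^ ((2:ℝ)/3) * (L.card : ℝ) ^ ((2:ℝ)/3) := by positivity
  have hP : (0:ℝ) ≤ P.card := Nat.cast_nonneg _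
  have hLc : (0:ℝ) ≤ L.card := Nat.cast_nonneg _
  rcases st_core P L hL with h | h
  · have h2 : ((∑ l ∈ L, (on P l - 1) : ℕ) : ℝ) ≤ 8 * P.card := by exact_mod_cast h
    linarith
  · have h2 : ((∑ l ∈ L, (on P l - 1) : ℕ) : ℝ) ^ 3 ≤ 128 * (P.card : ℝ) ^ 2 * (L.card : ℝ) ^ 2 := by
      exact_mod_cast h
    have h3 : ((∑ l ∈ L, (on P l - 1) : ℕ) : ℝ) ≤
        8 * ((P.card : ℝ) ^ ((2:ℝ)/3) * (L.card : ℝ) ^ ((2:ℝ)/3)) := by
      rw [← pow_le_pow_iff_left₀ (Nat.cast_nonneg _) (by positivity) (n := 3) (by norm_num)]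
      rw [mul_pow, mul_pow, rpow_two_thirds_pow _ hP, rpow_two_thirds_pow _ hLc]
      have : 0 ≤ (P.card : ℝ) ^ 2 * (L.card : ℝ) ^ 2 := by positivity
      nlinarith
    linarith

theorem rich_lines : ∃ C : ℝ, 0 < C ∧ ∀ (P : Finset ℂ) (L : Finset (Set ℂ)) (k : ℕ), 2 ≤ k →
    (∀ l ∈ L, IsLine l ∧ k ≤ on P l) →
    (L.card : ℝ) ≤ C * ((P.card : ℝ) ^ 2 / (k : ℝ) ^ 3 + (P.card : ℝ) / k) := by
  refine ⟨1024, by norm_num, fun P L k hk hL => ?_⟩
  have hk' : (2:ℝ) ≤ k := by exact_mod_cast hk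
  have hk0 : (0:ℝ) < k := by linarith
  have h1 : (L.card : ℝ) * (k / 2) ≤ ((∑ l ∈ L, (on P l - 1) : ℕ) : ℝ) := by
    have h2 : L.card * (k - 1) ≤ ∑ l ∈ L, (on P l - 1) := by
      rw [← smul_eq_mul, ← Finset.sum_const]
      apply Finset.sum_le_sum
      intro l hl
      have := (hL l hl).2
      omega
    have h3 : ((L.card * (k - 1) : ℕ) : ℝ) ≤ ((∑ l ∈ L, (on P l - 1) : ℕ) : ℝ) := by
      exact_mod_cast h2
    refine le_trans ?_ h3
    rw [Nat.cast_mul, Nat.cast_sub (by omega)]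
    apply mul_le_mul_of_nonneg_left _ (Nat.cast_nonneg _)
    push_cast
    linarith
  have hP : (0:ℝ) ≤ P.card := Nat.cast_nonneg _
  have hLc : (0:ℝ) ≤ L.card := Nat.cast_nonneg _
  have p1 : 0 ≤ (P.card : ℝ) ^ 2 / (k : ℝ) ^ 3 := by positivity
  have p2 : 0 ≤ (P.card : ℝ) / k := by positivity
  rcases st_core P L (fun l hl => (hL l hl).1) with h | h
  · have h2 : ((∑ l ∈ L, (on P l - 1) : ℕ) : ℝ) ≤ 8 * P.card := by exact_mod_cast h
    have h3 : (L.card : ℝ) ≤ 16 * ((P.card : ℝ) / k) := by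
      rw [← mul_div_assoc, le_div_iff₀ hk0]
      linarith
    linarith
  · have h2 : ((∑ l ∈ L, (on P l - 1) : ℕ) : ℝ) ^ 3 ≤ 128 * (P.card : ℝ) ^ 2 * (L.card : ℝ) ^ 2 := by
      exact_mod_cast h
    have h3 : ((L.card : ℝ) * (k / 2)) ^ 3 ≤ 128 * (P.card : ℝ) ^ 2 * (L.card : ℝ) ^ 2 :=
      le_trans (pow_le_pow_left₀ (by positivity) h1 3) h2
    rcases hLc.eq_or_lt with h0 | h0
    · rw [← h0]; positivity
    · have h4 : (L.card : ℝ) ≤ 1024 * ((P.card : ℝ) ^ 2 / (k : ℝ) ^ 3) := by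
        rw [← mul_div_assoc, le_div_iff₀ (by positivity)]
        have h5 : (L.card : ℝ) ^ 2 * ((L.card : ℝ) * k ^ 3) ≤
            (L.card : ℝ) ^ 2 * (1024 * (P.card : ℝ) ^ 2) := by nlinarith
        exact le_of_mul_le_mul_left h5 (by positivity)
      linarith

end

end Pool.Agent.DD
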