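import Pool.Agent.Lib_helper60.DD.Defs

/-!
# MP_a2cbb7_co, block R : random subsets
-/

set_option autoImplicit false

namespace Pool.Agent.DD

open Finset Classical

noncomputable section

theorem ex_pair {α : Type*} [DecidableEq α] (p : ℝ) (A T U : Finset α) (hT : T ⊆ A) (hU : U ⊆ A)
    (hd : Disjoint T U) :
    ex p A (fun R => if T ⊆ R ∧ Disjoint U R then (1:ℝ) else 0) = p ^ T.card * (1 - p) ^ U.card := by
  unfold ex
  simp_rw [mul_ite, mul_one, mul_zero]
  rw [← Finset.sum_filter]
  have hTU : T ∪ U ⊆ A := Finset.union_subset hT hU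
  have hB : (A \ (T ∪ U)).card + (T.card + U.card) = A.card := by
    rw [← Finset.card_union_of_disjoint hd, Finset.card_sdiff_add_card_eq_card hTU]
  have key : ∑ S ∈ (A \ (T ∪ U)).powerset, p ^ S.card * (1 - p) ^ ((A \ (T ∪ U)).card - S.card) = 1 := by
    rw [Finset.sum_pow_mul_eq_add_pow]; simp
  have h1 : p ^ T.card * (1 - p) ^ U.card =
      ∑ S ∈ (A \ (T ∪ U)).powerset, (p ^ T.card * (1 - p) ^ U.card) *
        (p ^ S.card * (1 - p) ^ ((A \ (T ∪ U)).card - S.card)) := by
    rw [← Finset.mul_sum, key, mul_one]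
  rw [h1]
  apply Finset.sum_nbij' (fun R => R \ T) (fun S => T ∪ S)
  · intro R hR
    rw [Finset.mem_filter, Finset.mem_powerset] at hR
    rw [Finset.mem_powerset]
    intro x hx
    rw [Finset.mem_sdiff] at hx
    rw [Finset.mem_sdiff, Finset.mem_union, not_or]
    exact ⟨hR.1 hx.1, hx.2, fun h => (Finset.disjoint_left.1 hR.2.2 h) hx.1⟩
  · intro S hS
    rw [Finset.mem_powerset] at hS
    rw [Finset.mem_filter, Finset.mem_powerset]
    refine ⟨Finset.union_subset hT (hS.trans Finset.sdiff_subset), Finset.subset_union_left, ?_⟩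
    rw [Finset.disjoint_union_right]
    refine ⟨hd.symm, ?_⟩
    rw [Finset.disjoint_right]
    intro x hx hxU
    have := hS hx
    rw [Finset.mem_sdiff] at this
    exact this.2 (Finset.mem_union_right _ hxU)
  · intro R hR
    rw [Finset.mem_filter, Finset.mem_powerset] at hR
    exact Finset.union_sdiff_of_subset hR.2.1
  · intro S hS
    rw [Finset.mem_powerset] at hS
    have hdis : Disjoint T S := by
      rw [Finset.disjoint_right]
      intro x hx hxT
      have := hS hx
      rw [Finset.mem_sdiff] at this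
      exact this.2 (Finset.mem_union_left _ hxT)
    rw [Finset.union_sdiff_cancel_left hdis]
  · intro R hR
    rw [Finset.mem_filter, Finset.mem_powerset] at hR
    have e1 : (R \ T).card + T.card = R.card := Finset.card_sdiff_add_card_eq_card hR.2.1
    have e2 : (R \ T).card ≤ (A \ (T ∪ U)).card := by
      apply Finset.card_le_card
      intro x hx
      rw [Finset.mem_sdiff] at hx
      rw [Finset.mem_sdiff, Finset.mem_union, not_or]
      exact ⟨hR.1 hx.1, hx.2, fun h => (Finset.disjoint_left.1 hR.2.2 h) hx.1⟩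
    have e3 : A.card - R.card = U.card + ((A \ (T ∪ U)).card - (R \ T).card) := by omega
    rw [e3, ← e1, pow_add, pow_add]
    ring

end

end Pool.Agent.DD
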