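import Pool.Agent.Lib_helper51.DD_FDefs
import Pool.Agent.Lib_helper56.DD_R

/-!
# MP_a2cbb7_co, block FB : circumscribed triples
-/

set_option autoImplicit false

namespace Pool.Agent.DD

open Finset Classical

noncomputable section

namespace FB

lemma dist_sq (z w : ℂ) : dist z w ^ 2 = (z.re - w.re) ^ 2 + (z.im - w.im) ^ 2 := by
  rw [Complex.dist_eq, ← Complex.normSq_eq_norm_sq, Complex.normSq_apply, Complex.sub_re,
    Complex.sub_im]
  ring

lemma sq_eq_of {z w : ℂ} {ρ : ℝ} (h : dist z w = ρ) :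
    (z.re - w.re) ^ 2 + (z.im - w.im) ^ 2 = ρ ^ 2 := by
  rw [← dist_sq, h]

lemma sq_le_of {z w : ℂ} {ρ : ℝ} (h : dist z w ≤ ρ) :
    (z.re - w.re) ^ 2 + (z.im - w.im) ^ 2 ≤ ρ ^ 2 := by
  rw [← dist_sq]
  exact pow_le_pow_left₀ dist_nonneg h 2

/-- a circle is determined by three points -/
lemma circle_unique {a b c w w' : ℂ} {ρ ρ' : ℝ} (hab : a ≠ b) (hac : a ≠ c) (hbc : b ≠ c)
    (ha : dist a w = ρ) (hb : dist b w = ρ) (hc : dist c w = ρ)
    (ha' : dist a w' = ρ') (hb' : dist b w' = ρ') (hc' : dist c w' = ρ') : w = w' ∧ ρ = ρ' := by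
  have hw : w = w' := by
    by_contra hne
    have A1 := sq_eq_of ha
    have A2 := sq_eq_of hb
    have A3 := sq_eq_of hc
    have B1 := sq_eq_of ha'
    have B2 := sq_eq_of hb'
    have B3 := sq_eq_of hc'
    obtain ⟨p, hp⟩ : ∃ p, p = w'.re - w.re := ⟨_, rfl⟩
    obtain ⟨q, hq⟩ : ∃ q, q = w'.im - w.im := ⟨_, rfl⟩
    have hpq : p ^ 2 + q ^ 2 ≠ 0 := by
      intro h
      have h1 : p ^ 2 = 0 := le_antisymm (by linarith [sq_nonneg q]) (sq_nonneg p)
      have h2 : q ^ 2 = 0 := le_antisymm (by linarith [sq_nonneg p]) (sq_nonneg q)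
      have h3 : p = 0 := pow_eq_zero_iff (two_ne_zero) |>.1 h1
      have h4 : q = 0 := pow_eq_zero_iff (two_ne_zero) |>.1 h2
      exact hne (Complex.ext (by linarith) (by linarith))
    have l1 : p * (b.re - a.re) + q * (b.im - a.im) = 0 := by
      rw [hp, hq]; linear_combination (A2 - A1 - B2 + B1) / 2
    have l2 : p * (c.re - a.re) + q * (c.im - a.im) = 0 := by
      rw [hp, hq]; linear_combination (A3 - A1 - B3 + B1) / 2
    -- `b - a = s (−q, p)`, `c - a = t (−q, p)`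
    obtain ⟨s, hs⟩ : ∃ s, s = (p * (b.im - a.im) - q * (b.re - a.re)) / (p ^ 2 + q ^ 2) :=
      ⟨_, rfl⟩
    obtain ⟨t, ht⟩ : ∃ t, t = (p * (c.im - a.im) - q * (c.re - a.re)) / (p ^ 2 + q ^ 2) :=
      ⟨_, rfl⟩
    have s1 : b.re - a.re = -q * s := by
      rw [hs, ← mul_div_assoc, eq_div_iff hpq]; linear_combination (p) * l1
    have s2 : b.im - a.im = p * s := by
      rw [hs, ← mul_div_assoc, eq_div_iff hpq]; linear_combination (q) * l1
    have t1 : c.re - a.re = -q * t := by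
      rw [ht, ← mul_div_assoc, eq_div_iff hpq]; linear_combination (p) * l2
    have t2 : c.im - a.im = p * t := by
      rw [ht, ← mul_div_assoc, eq_div_iff hpq]; linear_combination (q) * l2
    have hs0 : s ≠ 0 := by
      intro h
      rw [h] at s1 s2
      exact hab (Complex.ext (by linarith) (by linarith))
    have ht0 : t ≠ 0 := by
      intro h
      rw [h] at t1 t2
      exact hac (Complex.ext (by linarith) (by linarith))
    have e1 : s * (s * (p ^ 2 + q ^ 2) + 2 * (-q * (a.re - w.re) + p * (a.im - w.im))) = 0 := by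
      have h1 : b.re = a.re + -q * s := by linarith
      have h2 : b.im = a.im + p * s := by linarith
      rw [h1, h2] at A2
      linear_combination A2 - A1
    have e2 : t * (t * (p ^ 2 + q ^ 2) + 2 * (-q * (a.re - w.re) + p * (a.im - w.im))) = 0 := by
      have h1 : c.re = a.re + -q * t := by linarith
      have h2 : c.im = a.im + p * t := by linarith
      rw [h1, h2] at A3
      linear_combination A3 - A1
    have f1 := (mul_eq_zero.1 e1).resolve_left hs0
    have f2 := (mul_eq_zero.1 e2).resolve_left ht0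
    have f3 : (s - t) * (p ^ 2 + q ^ 2) = 0 := by linear_combination f1 - f2
    have f4 : s = t := by
      have := (mul_eq_zero.1 f3).resolve_right hpq
      linarith
    rw [f4] at s1 s2
    exact hbc (Complex.ext (by linarith) (by linarith))
  refine ⟨hw, ?_⟩
  rw [← ha, ← ha', hw]

lemma circle_unique' {T : Finset ℂ} (hT : T.card = 3) {w w' : ℂ} {ρ ρ' : ℝ}
    (h : ∀ t ∈ T, dist t w = ρ) (h' : ∀ t ∈ T, dist t w' = ρ') : w = w' ∧ ρ = ρ' := by
  obtain ⟨a, b, c, hab, hac, hbc, rfl⟩ := Finset.card_eq_three.1 hT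
  exact circle_unique hab hac hbc (h a (by simp)) (h b (by simp)) (h c (by simp))
    (h' a (by simp)) (h' b (by simp)) (h' c (by simp))

/-- signed height of the middle point above the chord -/
def ht (a b c : ℂ) : ℝ :=
  (c.re - b.re) * (b.im - a.im) + (b.re - a.re) * (b.im - c.im)

/-- ordering of a triple by abscissas -/
lemma exists_ord {T : Finset ℂ} (hT : T.card = 3) (hre : ∀ a ∈ T, ∀ b ∈ T, a.re = b.re → a = b) :
    ∃ a b c : ℂ, T = {a, b, c} ∧ a.re < b.re ∧ b.re < c.re := by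
  obtain ⟨x, y, z, hxy, hxz, hyz, rfl⟩ := Finset.card_eq_three.1 hT
  have nxy : x.re ≠ y.re := fun h => hxy (hre x (by simp) y (by simp) h)
  have nxz : x.re ≠ z.re := fun h => hxz (hre x (by simp) z (by simp) h)
  have nyz : y.re ≠ z.re := fun h => hyz (hre y (by simp) z (by simp) h)
  rcases lt_or_gt_of_ne nxy with h1 | h1 <;> rcases lt_or_gt_of_ne nxz with h2 | h2 <;>
    rcases lt_or_gt_of_ne nyz with h3 | h3
  · exact ⟨x, y, z, rfl, h1, h3⟩
  · exact ⟨x, z, y, by ext u; simp; tauto, h2, h3⟩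
  · exact absurd (h1.trans h3) (not_lt.2 h2.le)
  · exact ⟨z, x, y, by ext u; simp; tauto, h2, h1⟩
  · exact ⟨y, x, z, by ext u; simp; tauto, h1, h2⟩
  · exact absurd (h3.trans h1) (not_lt.2 h2.le)
  · exact ⟨y, z, x, by ext u; simp; tauto, h3, h2⟩
  · exact ⟨z, y, x, by ext u; simp; tauto, h3, h1⟩

lemma ht_ne_zero {a b c w : ℂ} {ρ : ℝ} (hab : a.re < b.re) (hbc : b.re < c.re)
    (ha : dist a w = ρ) (hb : dist b w = ρ) (hc : dist c w = ρ) : ht a b c ≠ 0 := by
  intro h
  unfold ht at h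
  have A1 := sq_eq_of ha
  have A2 := sq_eq_of hb
  have A3 := sq_eq_of hc
  -- the circle is strictly convex
  obtain ⟨u, hu⟩ : ∃ u, u = b.re - a.re := ⟨_, rfl⟩
  obtain ⟨v, hv⟩ : ∃ v, v = c.re - b.re := ⟨_, rfl⟩
  rw [← hu, ← hv] at h
  have hu0 : 0 < u := by rw [hu]; linarith
  have hv0 : 0 < v := by rw [hv]; linarith
  have h1 : v * (b.im - a.im) = u * (c.im - b.im) := by linarith
  have key : v * ((a.re - w.re) ^ 2 + (a.im - w.im) ^ 2) + u * ((c.re - w.re) ^ 2 + (c.im - w.im) ^ 2)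
      - (u + v) * ((b.re - w.re) ^ 2 + (b.im - w.im) ^ 2) =
      v * (u ^ 2 + (b.im - a.im) ^ 2) + u * (v ^ 2 + (c.im - b.im) ^ 2) := by
    have ea : a.re = b.re - u := by rw [hu]; ring
    have ec : c.re = b.re + v := by rw [hv]; ring
    rw [ea, ec]
    linear_combination (-2 * (b.im - w.im)) * h1
  rw [A1, A2, A3] at key
  have : 0 < v * (u ^ 2 + (b.im - a.im) ^ 2) + u * (v ^ 2 + (c.im - b.im) ^ 2) := by positivity
  linarith

lemma SE_mid {R : Finset ℂ} {b w : ℂ} {ρ : ℝ} (hb : dist b w = ρ) (hρ : ρ ≠ 0)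
    (hR : ∀ r ∈ R, dist r w ≤ ρ) : SE R b := by
  refine ⟨w - b, ?_, fun r hr hrb => ?_⟩
  · intro h
    apply hρ
    rw [← hb, sub_eq_zero.1 h, dist_self]
  · have h1 := sq_eq_of hb
    have h2 := sq_le_of (hR r hr)
    rw [Complex.sub_re, Complex.sub_im, Complex.sub_re, Complex.sub_im]
    have h3 : 0 < (r.re - b.re) ^ 2 + (r.im - b.im) ^ 2 := by
      by_contra hcon
      apply hrb
      exact Complex.ext (by nlinarith [sq_nonneg (r.re - b.re), sq_nonneg (r.im - b.im)])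
        (by nlinarith [sq_nonneg (r.re - b.re), sq_nonneg (r.im - b.im)])
    nlinarith

/-- two circumscribed triples with the same middle vertex on the same side are equal -/
lemma tri_inj {a b c a' c' w w' : ℂ} {ρ ρ' : ℝ}
    (h1 : a.re < b.re) (h2 : b.re < c.re) (h1' : a'.re < b.re) (h2' : b.re < c'.re)
    (ha : dist a w = ρ) (hb : dist b w = ρ) (hc : dist c w = ρ)
    (ha' : dist a' w' = ρ') (hb' : dist b w' = ρ') (hc' : dist c' w' = ρ')
    (ka : dist a w' ≤ ρ') (kc : dist c w' ≤ ρ') (ka' : dist a' w ≤ ρ) (kc' : dist c' w ≤ ρ)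
    (hs : 0 < ht a b c * ht a' b c') : w = w' := by
  have A1 := sq_eq_of ha
  have A2 := sq_eq_of hb
  have A3 := sq_eq_of hc
  have B1 := sq_eq_of ha'
  have B2 := sq_eq_of hb'
  have B3 := sq_eq_of hc'
  have C1 := sq_le_of ka
  have C2 := sq_le_of kc
  have C3 := sq_le_of ka'
  have C4 := sq_le_of kc'
  -- `f z = p (z.re - b.re) + q (z.im - b.im)`
  obtain ⟨p, hp⟩ : ∃ p, p = w'.re - w.re := ⟨_, rfl⟩
  obtain ⟨q, hq⟩ : ∃ q, q = w'.im - w.im := ⟨_, rfl⟩
  have key : ∀ z : ℂ, 2 * (p * (z.re - b.re) + q * (z.im - b.im)) =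
      ((z.re - w.re) ^ 2 + (z.im - w.im) ^ 2 - ρ ^ 2) -
      ((z.re - w'.re) ^ 2 + (z.im - w'.im) ^ 2 - ρ' ^ 2) := by
    intro z
    rw [hp, hq]
    linear_combination B2 - A2
  have fa : 0 ≤ p * (a.re - b.re) + q * (a.im - b.im) := by have := key a; linarith
  have fc : 0 ≤ p * (c.re - b.re) + q * (c.im - b.im) := by have := key c; linarith
  have fa' : p * (a'.re - b.re) + q * (a'.im - b.im) ≤ 0 := by have := key a'; linarith
  have fc' : p * (c'.re - b.re) + q * (c'.im - b.im) ≤ 0 := by have := key c'; linarith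
  have g1 : q * ht a b c ≤ 0 := by
    have e1 := mul_nonneg fa (by linarith : 0 ≤ c.re - b.re)
    have e2 := mul_nonneg fc (by linarith : 0 ≤ b.re - a.re)
    have e3 : q * ht a b c = -((p * (a.re - b.re) + q * (a.im - b.im)) * (c.re - b.re)) -
        (p * (c.re - b.re) + q * (c.im - b.im)) * (b.re - a.re) := by
      unfold ht; ring
    linarith
  have g2 : 0 ≤ q * ht a' b c' := by
    have e1 := mul_nonneg (neg_nonneg.2 fa') (by linarith : 0 ≤ c'.re - b.re)
    have e2 := mul_nonneg (neg_nonneg.2 fc') (by linarith : 0 ≤ b.re - a'.re)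
    have e3 : q * ht a' b c' = -(p * (a'.re - b.re) + q * (a'.im - b.im)) * (c'.re - b.re) +
        -(p * (c'.re - b.re) + q * (c'.im - b.im)) * (b.re - a'.re) := by
      unfold ht; ring
    linarith
  have hq0 : q = 0 := by
    by_contra hne
    have h3 : 0 < q ^ 2 := by positivity
    have h4 : (q * ht a b c) * (q * ht a' b c') ≤ 0 := mul_nonpos_of_nonpos_of_nonneg g1 g2
    have h5 : 0 < q ^ 2 * (ht a b c * ht a' b c') := mul_pos h3 hs
    have h6 : (q * ht a b c) * (q * ht a' b c') = q ^ 2 * (ht a b c * ht a' b c') := by ring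
    linarith
  rw [hq0] at fa fc
  have hp0 : p = 0 := by
    rcases lt_trichotomy p 0 with h | h | h
    · have := mul_neg_of_neg_of_pos h (by linarith : 0 < c.re - b.re)
      linarith
    · exact h
    · have := mul_neg_of_pos_of_neg h (by linarith : a.re - b.re < 0)
      linarith
  exact Complex.ext (by linarith) (by linarith)

lemma mem_Tri {R T : Finset ℂ} : T ∈ Tri R ↔ (T ⊆ R ∧ T.card = 3) ∧
    ∃ (w : ℂ) (ρ : ℝ), (∀ t ∈ T, dist t w = ρ) ∧ ∀ r ∈ R, dist r w ≤ ρ := by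
  unfold Tri
  rw [Finset.mem_filter, Finset.mem_powersetCard]

end FB

open FB in
theorem Tri_card (R : Finset ℂ) (hR : NC R) (hre : ∀ a ∈ R, ∀ b ∈ R, a.re = b.re → a = b) :
    (Tri R).card ≤ 2 * (R.filter (fun v => SE R v)).card := by
  have hex : ∀ T ∈ Tri R, ∃ q : ℂ × ℂ × ℂ, (q.1 ∈ T ∧ q.2.1 ∈ T ∧ q.2.2 ∈ T) ∧
      q.1.re < q.2.1.re ∧ q.2.1.re < q.2.2.re := by
    intro T hT
    rw [mem_Tri] at hT
    obtain ⟨a, b, c, h1, h2, h3⟩ := exists_ord hT.1.2
      (fun a ha b hb => hre a (hT.1.1 ha) b (hT.1.1 hb))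
    exact ⟨(a, b, c), ⟨by rw [h1]; simp, by rw [h1]; simp, by rw [h1]; simp⟩, h2, h3⟩
  choose! q hq using hex
  have key : (Tri R).card ≤ ((R.filter (fun v => SE R v)) ×ˢ (Finset.univ : Finset Bool)).card := by
    apply Finset.card_le_card_of_injOn (fun T => ((q T).2.1, decide (0 < ht (q T).1 (q T).2.1 (q T).2.2)))
    · intro T hT
      rw [Finset.mem_coe] at hT
      rw [Finset.mem_coe, Finset.mem_product]
      refine ⟨?_, Finset.mem_univ _⟩
      obtain ⟨⟨haT, hbT, hcT⟩, h2, h3⟩ := hq T hT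
      rw [mem_Tri] at hT
      obtain ⟨⟨hTR, hT3⟩, w, ρ, hw, hwR⟩ := hT
      rw [Finset.mem_filter]
      refine ⟨hTR hbT, SE_mid (hw _ hbT) ?_ hwR⟩
      intro h0
      have e1 := hw _ hbT
      have e2 := hw _ haT
      rw [h0, dist_eq_zero] at e1 e2
      rw [e1, e2] at h2
      exact lt_irrefl _ h2
    · intro T hT T' hT' h
      rw [Finset.mem_coe] at hT hT'
      obtain ⟨⟨haT, hbT, hcT⟩, h2, h3⟩ := hq T hT
      obtain ⟨⟨haT', hbT', hcT'⟩, h2', h3'⟩ := hq T' hT'
      have eb : (q T).2.1 = (q T').2.1 := (Prod.mk.inj h).1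
      have es : decide (0 < ht (q T).1 (q T).2.1 (q T).2.2) =
        decide (0 < ht (q T').1 (q T').2.1 (q T').2.2) := (Prod.mk.inj h).2
      rw [mem_Tri] at hT hT'
      obtain ⟨⟨hTR, hT3⟩, w, ρ, hw, hwR⟩ := hT
      obtain ⟨⟨hTR', hT3'⟩, w', ρ', hw', hwR'⟩ := hT'
      rw [← eb] at h2' h3' hbT' es
      have n1 := ht_ne_zero h2 h3 (hw _ haT) (hw _ hbT) (hw _ hcT)
      have n2 := ht_ne_zero h2' h3' (hw' _ haT') (hw' _ hbT') (hw' _ hcT')
      have hs : 0 < ht (q T).1 (q T).2.1 (q T).2.2 * ht (q T').1 (q T).2.1 (q T').2.2 := by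
        by_cases hpos : 0 < ht (q T).1 (q T).2.1 (q T).2.2
        · have : 0 < ht (q T').1 (q T).2.1 (q T').2.2 := by
            rw [decide_eq_decide] at es
            exact es.1 hpos
          exact mul_pos hpos this
        · have : ¬ 0 < ht (q T').1 (q T).2.1 (q T').2.2 := by
            rw [decide_eq_decide] at es
            exact fun h => hpos (es.2 h)
          exact mul_pos_of_neg_of_neg (lt_of_le_of_ne (not_lt.1 hpos) n1)
            (lt_of_le_of_ne (not_lt.1 this) n2)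
      have hww : w = w' := tri_inj h2 h3 h2' h3' (hw _ haT) (hw _ hbT) (hw _ hcT)
        (hw' _ haT') (hw' _ hbT') (hw' _ hcT') (hwR' _ (hTR haT)) (hwR' _ (hTR hcT))
        (hwR _ (hTR' haT')) (hwR _ (hTR' hcT')) hs
      have hρ : ρ = ρ' := by rw [← hw _ hbT, ← hw' _ hbT', hww]
      subst hww hρ
      have k1 : T = R.filter (fun p => dist p w = ρ) := by
        apply Finset.eq_of_subset_of_card_le
        · intro t ht
          exact Finset.mem_filter.2 ⟨hTR ht, hw t ht⟩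
        · rw [hT3]; exact hR w ρ
      have k2 : T' = R.filter (fun p => dist p w = ρ) := by
        apply Finset.eq_of_subset_of_card_le
        · intro t ht
          exact Finset.mem_filter.2 ⟨hTR' ht, hw' t ht⟩
        · rw [hT3']; exact hR w ρ
      rw [k1, k2]
  rw [Finset.card_product, Finset.card_univ, Fintype.card_bool] at key
  omega

namespace FB

/-- triples with a circumcircle -/
def Cir (A : Finset ℂ) : Finset (Finset ℂ) :=
  (A.powersetCard 3).filter (fun T => ∃ (w : ℂ) (ρ : ℝ), ∀ t ∈ T, dist t w = ρ)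

lemma Far_disj {A T : Finset ℂ} : Disjoint T (Far A T) := by
  rw [Finset.disjoint_left]
  intro t ht h
  unfold Far at h
  rw [Finset.mem_filter] at h
  obtain ⟨-, w, ρ, h1, h2⟩ := h
  rw [h1 t ht] at h2
  exact lt_irrefl _ h2

lemma Tri_eq {A R : Finset ℂ} (hR : R ⊆ A) :
    Tri R = (Cir A).filter (fun T => T ⊆ R ∧ Disjoint (Far A T) R) := by
  ext T
  rw [mem_Tri, Finset.mem_filter]
  unfold Cir
  rw [Finset.mem_filter, Finset.mem_powersetCard]
  constructor
  · rintro ⟨⟨h1, h2⟩, w, ρ, h3, h4⟩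
    refine ⟨⟨⟨h1.trans hR, h2⟩, w, ρ, h3⟩, h1, ?_⟩
    rw [Finset.disjoint_left]
    intro r hr hrR
    unfold Far at hr
    rw [Finset.mem_filter] at hr
    obtain ⟨-, w', ρ', h5, h6⟩ := hr
    obtain ⟨rfl, rfl⟩ := circle_unique' h2 h3 h5
    exact absurd h6 (not_lt.2 (h4 r hrR))
  · rintro ⟨⟨⟨h1, h2⟩, w, ρ, h3⟩, h4, h5⟩
    refine ⟨⟨h4, h2⟩, w, ρ, h3, fun r hr => ?_⟩
    by_contra hcon
    rw [Finset.disjoint_right] at h5
    apply h5 hr
    unfold Far
    rw [Finset.mem_filter]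
    exact ⟨hR hr, w, ρ, h3, not_le.1 hcon⟩

lemma ex_Tri_sum (p : ℝ) (A : Finset ℂ) (g : Finset ℂ → ℝ) :
    ex p A (fun R => ∑ T ∈ Tri R, g T) = ∑ T ∈ Cir A, g T * (p ^ 3 * (1 - p) ^ (Far A T).card) := by
  have h1 : ex p A (fun R => ∑ T ∈ Tri R, g T) =
      ex p A (fun R => ∑ T ∈ Cir A, g T * (if T ⊆ R ∧ Disjoint (Far A T) R then (1:ℝ) else 0)) := by
    unfold ex
    refine Finset.sum_congr rfl fun R hR => ?_
    rw [Finset.mem_powerset] at hR
    have h2 : ∑ T ∈ Tri R, g T =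
        ∑ T ∈ Cir A, g T * (if T ⊆ R ∧ Disjoint (Far A T) R then (1:ℝ) else 0) := by
      rw [Tri_eq hR, Finset.sum_filter]
      refine Finset.sum_congr rfl fun T _ => ?_
      split_ifs <;> simp
    simp only [h2]
  rw [h1]
  unfold ex
  simp_rw [Finset.mul_sum]
  rw [Finset.sum_comm]
  refine Finset.sum_congr rfl fun T hT => ?_
  unfold Cir at hT
  rw [Finset.mem_filter, Finset.mem_powersetCard] at hT
  have h2 := ex_pair p A T (Far A T) hT.1.1 (Finset.filter_subset _ _) Far_disj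
  rw [hT.1.2] at h2
  rw [← h2]
  unfold ex
  rw [Finset.mul_sum]
  refine Finset.sum_congr rfl fun R _ => ?_
  ring

end FB

open FB in
theorem ex_Tri (A : Finset ℂ) (p : ℝ) (hp : 0 < p) (hp1 : p ≤ 1/2) :
    ex p A (fun R => ∑ T ∈ Tri R, Real.exp (p * (Far A T).card / 4)) ≤
      8 * ex (p/2) A (fun R => ((Tri R).card : ℝ)) := by
  have h0 : ex (p/2) A (fun R => ((Tri R).card : ℝ)) =
      ex (p/2) A (fun R => ∑ T ∈ Tri R, (1:ℝ)) := by
    simp
  rw [h0, ex_Tri_sum, ex_Tri_sum, Finset.mul_sum]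
  refine Finset.sum_le_sum fun T _ => ?_
  set F := (Far A T).card with hF
  have h1 : Real.exp (p / 4) * (1 - p) ≤ 1 - p / 2 := by
    have h2 : 1 - p / 4 ≤ Real.exp (-(p / 4)) := by
      have := Real.add_one_le_exp (-(p / 4)); linarith
    have h3 : Real.exp (p / 4) * Real.exp (-(p / 4)) = 1 := by
      rw [← Real.exp_add]; simp
    have h4 : 0 < Real.exp (p / 4) := Real.exp_pos _
    have h5 : Real.exp (p / 4) * (1 - p / 4) ≤ 1 :=
      (mul_le_mul_of_nonneg_left h2 h4.le).trans h3.le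
    have h6 : 1 - p ≤ (1 - p / 4) * (1 - p / 2) := by nlinarith
    calc Real.exp (p / 4) * (1 - p) ≤ Real.exp (p / 4) * ((1 - p / 4) * (1 - p / 2)) :=
          mul_le_mul_of_nonneg_left h6 h4.le
      _ = (Real.exp (p / 4) * (1 - p / 4)) * (1 - p / 2) := by ring
      _ ≤ 1 * (1 - p / 2) := mul_le_mul_of_nonneg_right h5 (by linarith)
      _ = _ := one_mul _
  have h2 : Real.exp (p * F / 4) = Real.exp (p / 4) ^ F := by
    rw [← Real.exp_nat_mul]; ring_nf
  rw [h2]
  have h3 : (Real.exp (p / 4) * (1 - p)) ^ F ≤ (1 - p / 2) ^ F :=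
    pow_le_pow_left₀ (mul_nonneg (Real.exp_pos _).le (by linarith)) h1 F
  rw [mul_pow] at h3
  have h4 : 0 < p ^ 3 := by positivity
  nlinarith

end

end Pool.Agent.DD
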