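import Pool.Agent.Lib_helper41.Lat.Iface

/-!
# Geodesics in CAT(0) spaces (basic facts needed for the cohomology of the quotient)
-/

namespace Pool.Agent.Lat

open Set Topology

universe u v

namespace T56

variable {X : Type u} [MetricSpace X]

theorem geo_spec (hX : IsCAT0 X) (x y : X) : hX.geo x y 0 = x ∧ hX.geo x y 1 = y ∧
    ∀ s ∈ Icc (0 : ℝ) 1, ∀ t ∈ Icc (0 : ℝ) 1,
      dist (hX.geo x y s) (hX.geo x y t) = |s - t| * dist x y :=
  (hX.geodesic x y).choose_spec

theorem geo_zero (hX : IsCAT0 X) (x y : X) : hX.geo x y 0 = x := (geo_spec hX x y).1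

theorem geo_one (hX : IsCAT0 X) (x y : X) : hX.geo x y 1 = y := (geo_spec hX x y).2.1

theorem dist_left (hX : IsCAT0 X) (x y : X) {t : ℝ} (ht : t ∈ Icc (0 : ℝ) 1) :
    dist x (hX.geo x y t) = t * dist x y := by
  have h := (geo_spec hX x y).2.2 0 (by simp) t ht
  rw [geo_zero] at h
  rw [h, zero_sub, abs_neg, abs_of_nonneg ht.1]

theorem dist_right (hX : IsCAT0 X) (x y : X) {t : ℝ} (ht : t ∈ Icc (0 : ℝ) 1) :
    dist (hX.geo x y t) y = (1 - t) * dist x y := by
  have h := (geo_spec hX x y).2.2 t ht 1 (by simp)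
  rw [geo_one] at h
  rw [h, abs_sub_comm, abs_of_nonneg (by linarith [ht.2])]

theorem eq_geo (hX : IsCAT0 X) {x y z : X} {t : ℝ} (ht : t ∈ Icc (0 : ℝ) 1)
    (h1 : dist x z = t * dist x y) (h2 : dist z y = (1 - t) * dist x y) :
    z = hX.geo x y t := by
  have h := hX.comparison z x y (hX.geo x y t) t ht (dist_left hX x y ht) (dist_right hX x y ht)
  have h3 : dist z (hX.geo x y t) ^ 2 ≤ 0 := by
    refine h.trans (le_of_eq ?_)
    rw [dist_comm z x, h1, h2]
    ring
  have h4 : dist z (hX.geo x y t) = 0 := by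
    have := sq_nonneg (dist z (hX.geo x y t))
    have h5 : dist z (hX.geo x y t) ^ 2 = 0 := le_antisymm h3 this
    exact pow_eq_zero_iff (two_ne_zero) |>.1 h5
  exact dist_eq_zero.1 h4

theorem map_geo (hX : IsCAT0 X) (f : X ≃ᵢ X) (x y : X) {t : ℝ}
    (ht : t ∈ Icc (0 : ℝ) 1) : f (hX.geo x y t) = hX.geo (f x) (f y) t := by
  refine eq_geo hX ht ?_ ?_
  · rw [f.dist_eq, f.dist_eq, dist_left hX x y ht]
  · rw [f.dist_eq, f.dist_eq, dist_right hX x y ht]

theorem dist_geo_right (hX : IsCAT0 X) (x y y' : X) {t : ℝ} (ht : t ∈ Icc (0 : ℝ) 1) :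
    dist (hX.geo x y t) (hX.geo x y' t) ≤ t * dist y y' := by
  have h1 := hX.comparison (hX.geo x y' t) x y (hX.geo x y t) t ht (dist_left hX x y ht)
    (dist_right hX x y ht)
  have h2 := hX.comparison y x y' (hX.geo x y' t) t ht (dist_left hX x y' ht)
    (dist_right hX x y' ht)
  rw [dist_comm (hX.geo x y' t) x, dist_left hX x y' ht, dist_comm (hX.geo x y' t) y] at h1
  rw [dist_comm y x] at h2
  have h3 : dist (hX.geo x y' t) (hX.geo x y t) ^ 2 ≤ (t * dist y y') ^ 2 := by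
    have h4 : t * dist y (hX.geo x y' t) ^ 2 ≤ t * ((1 - t) * dist x y ^ 2 + t * dist y y' ^ 2 -
        t * (1 - t) * dist x y' ^ 2) := mul_le_mul_of_nonneg_left h2 ht.1
    nlinarith
  rw [dist_comm]
  exact abs_le_of_sq_le_sq' h3 (mul_nonneg ht.1 dist_nonneg) |>.2

theorem dist_geo_left (hX : IsCAT0 X) (x x' y : X) {t : ℝ} (ht : t ∈ Icc (0 : ℝ) 1) :
    dist (hX.geo x y t) (hX.geo x' y t) ≤ (1 - t) * dist x x' := by
  have ht' : 0 ≤ 1 - t := by linarith [ht.2]
  have h1 := hX.comparison (hX.geo x' y t) x y (hX.geo x y t) t ht (dist_left hX x y ht)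
    (dist_right hX x y ht)
  have h2 := hX.comparison x x' y (hX.geo x' y t) t ht (dist_left hX x' y ht)
    (dist_right hX x' y ht)
  rw [dist_right hX x' y ht, dist_comm (hX.geo x' y t) x] at h1
  have h3 : dist (hX.geo x' y t) (hX.geo x y t) ^ 2 ≤ ((1 - t) * dist x x') ^ 2 := by
    have h4 : (1 - t) * dist x (hX.geo x' y t) ^ 2 ≤ (1 - t) * ((1 - t) * dist x x' ^ 2 +
        t * dist x y ^ 2 - t * (1 - t) * dist x' y ^ 2) := mul_le_mul_of_nonneg_left h2 ht'
    nlinarith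
  rw [dist_comm]
  exact abs_le_of_sq_le_sq' h3 (mul_nonneg ht' dist_nonneg) |>.2

theorem dist_geo_geo (hX : IsCAT0 X) (x y x' y' : X) {t : ℝ} (ht : t ∈ Icc (0 : ℝ) 1) :
    dist (hX.geo x y t) (hX.geo x' y' t) ≤ (1 - t) * dist x x' + t * dist y y' := by
  calc dist (hX.geo x y t) (hX.geo x' y' t)
      ≤ dist (hX.geo x y t) (hX.geo x y' t) + dist (hX.geo x y' t) (hX.geo x' y' t) :=
        dist_triangle _ _ _
    _ ≤ t * dist y y' + (1 - t) * dist x x' :=
        add_le_add (dist_geo_right hX x y y' ht) (dist_geo_left hX x x' y' ht)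
    _ = _ := by ring

/-- the geodesic with clamped parameter -/
noncomputable def geoR (hX : IsCAT0 X) (x y : X) (t : ℝ) : X :=
  hX.geo x y (projIcc (0 : ℝ) 1 zero_le_one t : ℝ)

theorem geoR_zero (hX : IsCAT0 X) (x y : X) : geoR hX x y 0 = x := by
  rw [geoR, projIcc_left]; exact geo_zero hX x y

theorem geoR_one (hX : IsCAT0 X) (x y : X) : geoR hX x y 1 = y := by
  rw [geoR, projIcc_right]; exact geo_one hX x y

theorem map_geoR (hX : IsCAT0 X) (f : X ≃ᵢ X) (x y : X) (t : ℝ) :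
    f (geoR hX x y t) = geoR hX (f x) (f y) t :=
  map_geo hX f x y (projIcc (0 : ℝ) 1 zero_le_one t).2

theorem geoR_mem_ball (hX : IsCAT0 X) {x y : X} {r : ℝ} (hy : y ∈ Metric.ball x r) (t : ℝ) :
    geoR hX x y t ∈ Metric.ball x r := by
  rw [Metric.mem_ball'] at hy ⊢
  have ht := (projIcc (0 : ℝ) 1 zero_le_one t).2
  rw [geoR, dist_left hX x y ht]
  calc (projIcc (0 : ℝ) 1 zero_le_one t : ℝ) * dist x y ≤ 1 * dist x y :=
        mul_le_mul_of_nonneg_right ht.2 dist_nonneg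
    _ < r := by rw [one_mul]; exact hy

theorem continuous_geoR (hX : IsCAT0 X) :
    Continuous (fun p : X × X × ℝ => geoR hX p.1 p.2.1 p.2.2) := by
  rw [continuous_iff_continuousAt]
  rintro ⟨x, y, t⟩
  rw [ContinuousAt, tendsto_iff_dist_tendsto_zero]
  have hcl : Continuous (fun p : X × X × ℝ => dist p.1 x + dist p.2.1 y +
      |(projIcc (0 : ℝ) 1 zero_le_one p.2.2 : ℝ) - (projIcc (0 : ℝ) 1 zero_le_one t : ℝ)| *
        dist x y) := by
    have h1 : Continuous (fun p : X × X × ℝ => (projIcc (0 : ℝ) 1 zero_le_one p.2.2 : ℝ)) :=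
      continuous_subtype_val.comp (continuous_projIcc.comp (continuous_snd.comp continuous_snd))
    fun_prop
  have h2 := hcl.tendsto (x, y, t)
  simp only [dist_self, sub_self, abs_zero, zero_mul, add_zero] at h2
  refine squeeze_zero (fun _ => dist_nonneg) (fun p => ?_) h2
  have hs := (projIcc (0 : ℝ) 1 zero_le_one p.2.2).2
  have ht := (projIcc (0 : ℝ) 1 zero_le_one t).2
  calc dist (geoR hX p.1 p.2.1 p.2.2) (geoR hX x y t)
      ≤ dist (geoR hX p.1 p.2.1 p.2.2) (geoR hX x y p.2.2) +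
        dist (geoR hX x y p.2.2) (geoR hX x y t) := dist_triangle _ _ _
    _ ≤ (dist p.1 x + dist p.2.1 y) +
      |(projIcc (0 : ℝ) 1 zero_le_one p.2.2 : ℝ) - (projIcc (0 : ℝ) 1 zero_le_one t : ℝ)| *
        dist x y := by
        refine add_le_add ?_ ?_
        · refine (dist_geo_geo hX _ _ _ _ hs).trans ?_
          refine add_le_add ?_ ?_
          · exact mul_le_of_le_one_left dist_nonneg (by linarith [hs.1])
          · exact mul_le_of_le_one_left dist_nonneg hs.2
        · exact le_of_eq ((geo_spec hX x y).2.2 _ hs _ ht)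

end T56

end Pool.Agent.Lat
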