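import Pool.Agent.Lib_helper56.LatT0

/-!
# Singular one-cocycles: affine segments and the square lemma
-/

namespace Pool.Agent.Lat

open Set Topology

universe u v

namespace T56

section Simp

variable {B : Type*} [TopologicalSpace B]
variable {E : Type*} [AddCommGroup E] [Module ℝ E] [TopologicalSpace E] [ContinuousAdd E]
  [ContinuousSMul ℝ E]

theorem continuous_coord {n : ℕ} (i : Fin n) :
    Continuous (fun w : stdSimplex ℝ (Fin n) => w i) :=
  (continuous_apply i).comp continuous_subtype_val

/-- the singular 1-simplex given by the affine segment from `a` to `b` -/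
noncomputable def seg (H : C(E, B)) (a b : E) : SingSimplex 1 B :=
  H.comp ⟨fun w => (w 0) • a + (w 1) • b,
    ((continuous_coord 0).smul continuous_const).add
      ((continuous_coord 1).smul continuous_const)⟩

/-- the singular 2-simplex given by the affine triangle `a b c` -/
noncomputable def tri (H : C(E, B)) (a b c : E) : SingSimplex 2 B :=
  H.comp ⟨fun w => (w 0) • a + (w 1) • b + (w 2) • c,
    (((continuous_coord 0).smul continuous_const).add
      ((continuous_coord 1).smul continuous_const)).add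
        ((continuous_coord 2).smul continuous_const)⟩

theorem seg_apply (H : C(E, B)) (a b : E) (w : stdSimplex ℝ (Fin 2)) :
    seg H a b w = H ((w 0) • a + (w 1) • b) := rfl

theorem tri_apply (H : C(E, B)) (a b c : E) (w : stdSimplex ℝ (Fin 3)) :
    tri H a b c w = H ((w 0) • a + (w 1) • b + (w 2) • c) := rfl

theorem face_apply {n : ℕ} (i : Fin (n + 2)) (s : SingSimplex (n + 1) B)
    (w : stdSimplex ℝ (Fin (n + 1))) : s.face i w = s (stdSimplex.map i.succAbove w) := rfl

theorem map_apply' {n m : ℕ} (f : Fin n → Fin m) (w : stdSimplex ℝ (Fin n)) (j : Fin m) :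
    stdSimplex.map f w j = ∑ x with f x = j, w x := by
  rw [stdSimplex.map_coe, FunOnFinite.linearMap_apply_apply]

theorem map_succAbove_self {n : ℕ} (i : Fin (n + 1)) (w : stdSimplex ℝ (Fin n)) :
    stdSimplex.map i.succAbove w i = 0 := by
  rw [map_apply']
  apply Finset.sum_eq_zero
  intro x hx
  simp only [Finset.mem_filter, Finset.mem_univ, true_and] at hx
  exact absurd hx (Fin.succAbove_ne i x)

theorem map_succAbove {n : ℕ} (i : Fin (n + 1)) (w : stdSimplex ℝ (Fin n)) (j : Fin n) :
    stdSimplex.map i.succAbove w (i.succAbove j) = w j := by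
  rw [map_apply']
  have : (Finset.univ.filter fun x => i.succAbove x = i.succAbove j) = {j} := by
    ext x
    simp
  rw [this, Finset.sum_singleton]

theorem face_tri_zero (H : C(E, B)) (a b c : E) : (tri H a b c).face 0 = seg H b c := by
  refine ContinuousMap.ext fun w => ?_
  have h0 : stdSimplex.map (0 : Fin 3).succAbove w 0 = 0 := map_succAbove_self 0 w
  have h1 : stdSimplex.map (0 : Fin 3).succAbove w 1 = w 0 := map_succAbove 0 w 0
  have h2 : stdSimplex.map (0 : Fin 3).succAbove w 2 = w 1 := map_succAbove 0 w 1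
  change tri H a b c (stdSimplex.map (0 : Fin 3).succAbove w) = _
  rw [tri_apply, seg_apply, h0, h1, h2, zero_smul, zero_add]

theorem face_tri_one (H : C(E, B)) (a b c : E) : (tri H a b c).face 1 = seg H a c := by
  refine ContinuousMap.ext fun w => ?_
  have h0 : stdSimplex.map (1 : Fin 3).succAbove w 1 = 0 := map_succAbove_self 1 w
  have h1 : stdSimplex.map (1 : Fin 3).succAbove w 0 = w 0 := map_succAbove 1 w 0
  have h2 : stdSimplex.map (1 : Fin 3).succAbove w 2 = w 1 := map_succAbove 1 w 1
  change tri H a b c (stdSimplex.map (1 : Fin 3).succAbove w) = _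
  rw [tri_apply, seg_apply, h0, h1, h2, zero_smul, add_zero]

theorem face_tri_two (H : C(E, B)) (a b c : E) : (tri H a b c).face 2 = seg H a b := by
  refine ContinuousMap.ext fun w => ?_
  have h0 : stdSimplex.map (2 : Fin 3).succAbove w 2 = 0 := map_succAbove_self 2 w
  have h1 : stdSimplex.map (2 : Fin 3).succAbove w 0 = w 0 := map_succAbove 2 w 0
  have h2 : stdSimplex.map (2 : Fin 3).succAbove w 1 = w 1 := map_succAbove 2 w 1
  change tri H a b c (stdSimplex.map (2 : Fin 3).succAbove w) = _
  rw [tri_apply, seg_apply, h0, h1, h2, zero_smul, add_zero]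

/-- the constant 0-simplex -/
noncomputable def pt (b : B) : SingSimplex 0 B := ContinuousMap.const _ b

theorem eq_pt (s : SingSimplex 0 B) : s = pt (s default) := by
  refine ContinuousMap.ext fun w => ?_
  rw [Subsingleton.elim w default]
  rfl

theorem face_seg_zero (H : C(E, B)) (a b : E) : (seg H a b).face 0 = pt (H b) := by
  refine ContinuousMap.ext fun w => ?_
  have h0 : stdSimplex.map (0 : Fin 2).succAbove w 0 = 0 := map_succAbove_self 0 w
  have h1 : stdSimplex.map (0 : Fin 2).succAbove w 1 = w 0 := map_succAbove 0 w 0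
  change seg H a b (stdSimplex.map (0 : Fin 2).succAbove w) = _
  rw [seg_apply, h0, h1, show w 0 = 1 from stdSimplex.eq_one_of_unique (X := Fin 1) w 0,
    zero_smul, zero_add, one_smul]
  rfl

theorem face_seg_one (H : C(E, B)) (a b : E) : (seg H a b).face 1 = pt (H a) := by
  refine ContinuousMap.ext fun w => ?_
  have h0 : stdSimplex.map (1 : Fin 2).succAbove w 1 = 0 := map_succAbove_self 1 w
  have h1 : stdSimplex.map (1 : Fin 2).succAbove w 0 = w 0 := map_succAbove 1 w 0
  change seg H a b (stdSimplex.map (1 : Fin 2).succAbove w) = _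
  rw [seg_apply, h0, h1, show w 0 = 1 from stdSimplex.eq_one_of_unique (X := Fin 1) w 0,
    zero_smul, add_zero, one_smul]
  rfl

theorem coboundary_one_apply (c : SingSimplex 1 B → ℤ) (s : SingSimplex 2 B) :
    coboundary 1 B c s = c (s.face 0) - c (s.face 1) + c (s.face 2) := by
  have : coboundary 1 B c s = ∑ i : Fin 3, (-1) ^ (i : ℕ) * c (s.face i) := rfl
  rw [this, Fin.sum_univ_three]
  simp
  ring

theorem coboundary_zero_apply (f : SingSimplex 0 B → ℤ) (s : SingSimplex 1 B) :
    coboundary 0 B f s = f (s.face 0) - f (s.face 1) := by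
  have : coboundary 0 B f s = ∑ i : Fin 2, (-1) ^ (i : ℕ) * f (s.face i) := rfl
  rw [this, Fin.sum_univ_two]
  simp
  ring

theorem cocycle_seg {c : SingSimplex 1 B → ℤ} (hc : coboundary 1 B c = 0) (H : C(E, B))
    (x y z : E) : c (seg H x z) = c (seg H x y) + c (seg H y z) := by
  have h := congrFun hc (tri H x y z)
  rw [coboundary_one_apply, face_tri_zero, face_tri_one, face_tri_two] at h
  have h' : c (seg H y z) - c (seg H x z) + c (seg H x y) = 0 := h
  linarith

theorem coboundary_seg (f : SingSimplex 0 B → ℤ) (H : C(E, B)) (x y : E) :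
    coboundary 0 B f (seg H x y) = f (pt (H y)) - f (pt (H x)) := by
  rw [coboundary_zero_apply, face_seg_zero, face_seg_one]

theorem seg_congr {E' : Type*} [AddCommGroup E'] [Module ℝ E'] [TopologicalSpace E']
    [ContinuousAdd E'] [ContinuousSMul ℝ E'] {H : C(E, B)} {H' : C(E', B)} {a b : E} {a' b' : E'}
    (h : ∀ t ∈ Icc (0 : ℝ) 1, H ((1 - t) • a + t • b) = H' ((1 - t) • a' + t • b')) :
    seg H a b = seg H' a' b' := by
  refine ContinuousMap.ext fun w => ?_
  rw [seg_apply, seg_apply]
  have h1 : w 0 = 1 - w 1 := by linarith [stdSimplex.add_eq_one w]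
  rw [h1]
  exact h _ ⟨stdSimplex.zero_le w 1, stdSimplex.le_one w 1⟩

theorem cocycle_self {c : SingSimplex 1 B → ℤ} (hc : coboundary 1 B c = 0) (H : C(E, B))
    (x : E) : c (seg H x x) = 0 := by
  have := cocycle_seg hc H x x x
  linarith

theorem cocycle_const {c : SingSimplex 1 B → ℤ} (hc : coboundary 1 B c = 0) (H : C(E, B))
    (x y : E) (h : ∀ t ∈ Icc (0 : ℝ) 1, H ((1 - t) • x + t • y) = H x) : c (seg H x y) = 0 := by
  have : seg H x y = seg H x x := by
    refine seg_congr fun t ht => ?_
    rw [h t ht, ← add_smul, sub_add_cancel, one_smul]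
  rw [this, cocycle_self hc]

/-- the value of a cocycle on a path -/
noncomputable def val (c : SingSimplex 1 B → ℤ) (P : C(ℝ, B)) : ℤ := c (seg P 0 1)

/-- **square lemma** -/
theorem square {c : SingSimplex 1 B → ℤ} (hc : coboundary 1 B c = 0) (h : C(ℝ × ℝ, B)) (b : B)
    (hb : ∀ u, h (u, 0) = b) :
    val c (h.comp ⟨fun u => (u, 1), by fun_prop⟩) =
      val c (h.comp ⟨fun t => (1, t), by fun_prop⟩) -
      val c (h.comp ⟨fun t => (0, t), by fun_prop⟩) := by
  have h1 := cocycle_seg hc h (0, 0) (1, 0) (1, 1)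
  have h2 := cocycle_seg hc h (0, 0) (0, 1) (1, 1)
  have h3 : c (seg h (0, 0) (1, 0)) = 0 := by
    refine cocycle_const hc h _ _ fun t _ => ?_
    have : (1 - t) • ((0 : ℝ), (0 : ℝ)) + t • ((1 : ℝ), (0 : ℝ)) = (t, 0) := by simp
    rw [this, hb, hb]
  have e1 : seg (h.comp ⟨fun u : ℝ => (u, (1 : ℝ)), by fun_prop⟩) 0 1 = seg h (0, 1) (1, 1) := by
    refine seg_congr fun t _ => ?_
    have : (1 - t) • ((0 : ℝ), (1 : ℝ)) + t • ((1 : ℝ), (1 : ℝ)) = (t, 1) := by simp
    rw [this]
    simp
  have e2 : seg (h.comp ⟨fun t : ℝ => ((1 : ℝ), t), by fun_prop⟩) 0 1 = seg h (1, 0) (1, 1) := by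
    refine seg_congr fun t _ => ?_
    have : (1 - t) • ((1 : ℝ), (0 : ℝ)) + t • ((1 : ℝ), (1 : ℝ)) = (1, t) := by simp
    rw [this]
    simp
  have e3 : seg (h.comp ⟨fun t : ℝ => ((0 : ℝ), t), by fun_prop⟩) 0 1 = seg h (0, 0) (0, 1) := by
    refine seg_congr fun t _ => ?_
    have : (1 - t) • ((0 : ℝ), (0 : ℝ)) + t • ((0 : ℝ), (1 : ℝ)) = (0, t) := by simp
    rw [this]
    simp
  rw [val, val, val, e1, e2, e3]
  linarith

/-- the parametrised interval in the standard simplex, extended to the line by clamping -/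
noncomputable def param : C(ℝ, stdSimplex ℝ (Fin 2)) where
  toFun t := ⟨![1 - (projIcc (0 : ℝ) 1 zero_le_one t : ℝ), (projIcc (0 : ℝ) 1 zero_le_one t : ℝ)],
    by
      have ht := (projIcc (0 : ℝ) 1 zero_le_one t).2
      refine ⟨fun i => ?_, ?_⟩
      · fin_cases i
        · simpa using ht.2
        · simpa using ht.1
      · simp⟩
  continuous_toFun := by
    have h1 : Continuous (fun t : ℝ => (projIcc (0 : ℝ) 1 zero_le_one t : ℝ)) :=
      continuous_subtype_val.comp continuous_projIcc
    refine Continuous.subtype_mk ?_ _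
    refine continuous_pi fun i => ?_
    fin_cases i
    · exact continuous_const.sub h1
    · exact h1

/-- every singular 1-simplex is a segment -/
theorem seg_param (s : SingSimplex 1 B) : seg (s.comp param) 0 1 = s := by
  refine ContinuousMap.ext fun w => ?_
  rw [seg_apply]
  have h1 : w 0 = 1 - w 1 := by linarith [stdSimplex.add_eq_one w]
  have h2 : (w 0) • (0 : ℝ) + (w 1) • (1 : ℝ) = w 1 := by simp
  rw [h2, ContinuousMap.comp_apply]
  congr 1
  have h3 : projIcc (0 : ℝ) 1 zero_le_one (w 1) = ⟨w 1, stdSimplex.zero_le w 1,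
    stdSimplex.le_one w 1⟩ := projIcc_of_mem _ _
  refine stdSimplex.ext (funext fun i => ?_)
  fin_cases i
  · change 1 - (projIcc (0 : ℝ) 1 zero_le_one (w 1) : ℝ) = w 0
    rw [h3, h1]
  · change (projIcc (0 : ℝ) 1 zero_le_one (w 1) : ℝ) = w 1
    rw [h3]

/-- A cocycle which vanishes locally on a path vanishes on the path. -/
theorem val_eq_zero_of_local {c : SingSimplex 1 B → ℤ} (hc : coboundary 1 B c = 0)
    (hloc : ∀ b : B, ∃ U : Set B, IsOpen U ∧ b ∈ U ∧ ∀ P : C(ℝ, B), (∀ t, P t ∈ U) → val c P = 0)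
    (P : C(ℝ, B)) : val c P = 0 := by
  have hlc : IsLocallyConstant (fun t : ℝ => c (seg P 0 t)) := by
    rw [IsLocallyConstant.iff_eventually_eq]
    intro t₀
    obtain ⟨U, hU, hb, hz⟩ := hloc (P t₀)
    have hpre : P ⁻¹' U ∈ 𝓝 t₀ := (hU.preimage P.continuous).mem_nhds hb
    obtain ⟨ε, hε, hball⟩ := Metric.mem_nhds_iff.1 hpre
    filter_upwards [Metric.ball_mem_nhds t₀ hε] with t ht
    have h1 := cocycle_seg hc P 0 t₀ t
    have h2 : c (seg P t₀ t) = 0 := by
      let Q : C(ℝ, B) := P.comp ⟨fun s : ℝ => (1 - (projIcc (0 : ℝ) 1 zero_le_one s : ℝ)) • t₀ +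
        (projIcc (0 : ℝ) 1 zero_le_one s : ℝ) • t, by
          have h1 : Continuous (fun t : ℝ => (projIcc (0 : ℝ) 1 zero_le_one t : ℝ)) :=
            continuous_subtype_val.comp continuous_projIcc
          fun_prop⟩
      have hQ : ∀ s, Q s ∈ U := by
        intro s
        apply hball
        have hs := (projIcc (0 : ℝ) 1 zero_le_one s).2
        exact (convex_ball t₀ ε) (Metric.mem_ball_self hε) ht (by linarith [hs.2]) hs.1 (by ring)
      have h3 : seg P t₀ t = seg Q 0 1 := by
        refine seg_congr fun s hs => ?_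
        have : (1 - s) • (0 : ℝ) + s • (1 : ℝ) = s := by simp
        rw [this]
        change _ = P ((1 - (projIcc (0 : ℝ) 1 zero_le_one s : ℝ)) • t₀ +
          (projIcc (0 : ℝ) 1 zero_le_one s : ℝ) • t)
        rw [projIcc_of_mem _ hs]
      rw [h3]
      exact hz Q hQ
    rw [h1, h2, add_zero]
  have h := hlc.apply_eq_of_preconnectedSpace 1 0
  have h0 : c (seg P 0 (0 : ℝ)) = 0 := cocycle_self hc P 0
  rw [val]
  simpa [h0] using h

end Simp

end T56

end Pool.Agent.Lat
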