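import Pool.Agent.Lib_helper56.LatT1

/-!
# Cocycles on the quotient of a CAT(0) space and the associated homomorphisms
-/

namespace Pool.Agent.Lat

open Set Topology

universe u v

namespace T56

section Quot

variable {X : Type u} [MetricSpace X]

/-- the quotient map -/
def qm (S : Setoid X) : C(X, Quotient S) := ⟨Quotient.mk S, continuous_quotient_mk'⟩

/-- geodesic rays -/
noncomputable def ray (hX : IsCAT0 X) (x y : X) : C(ℝ, X) :=
  ⟨fun t => geoR hX x y t, (continuous_geoR hX).comp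
    (continuous_const.prodMk (continuous_const.prodMk continuous_id))⟩

@[simp] theorem ray_zero (hX : IsCAT0 X) (x y : X) : ray hX x y 0 = x := geoR_zero hX x y

@[simp] theorem ray_one (hX : IsCAT0 X) (x y : X) : ray hX x y 1 = y := geoR_one hX x y

/-- the primitive of the pull-back of a cocycle -/
noncomputable def FF (hX : IsCAT0 X) (S : Setoid X) (x₀ : X) (c : SingSimplex 1 (Quotient S) → ℤ)
    (x : X) : ℤ := val c ((qm S).comp (ray hX x₀ x))

theorem FF_path (hX : IsCAT0 X) (S : Setoid X) (x₀ : X) {c : SingSimplex 1 (Quotient S) → ℤ}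
    (hc : coboundary 1 (Quotient S) c = 0) (p : C(ℝ, X)) :
    val c ((qm S).comp p) = FF hX S x₀ c (p 1) - FF hX S x₀ c (p 0) := by
  let h : C(ℝ × ℝ, Quotient S) := (qm S).comp ⟨fun z => geoR hX x₀ (p z.1) z.2,
    (continuous_geoR hX).comp (continuous_const.prodMk
      ((p.continuous.comp continuous_fst).prodMk continuous_snd))⟩
  have h1 := square hc h (qm S x₀) (fun u => by
    change qm S (geoR hX x₀ (p u) 0) = _
    rw [geoR_zero])
  have h2 : h.comp ⟨fun u => (u, 1), by fun_prop⟩ = (qm S).comp p := by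
    refine ContinuousMap.ext fun u => ?_
    change qm S (geoR hX x₀ (p u) 1) = qm S (p u)
    rw [geoR_one]
  rw [h2] at h1
  exact h1

theorem FF_self (hX : IsCAT0 X) (S : Setoid X) (x₀ : X) {c : SingSimplex 1 (Quotient S) → ℤ}
    (hc : coboundary 1 (Quotient S) c = 0) : FF hX S x₀ c x₀ = 0 := by
  have h := FF_path hX S x₀ hc (ray hX x₀ x₀)
  rw [ray_zero, ray_one, sub_self] at h
  exact h

theorem FF_coboundary (hX : IsCAT0 X) (S : Setoid X) (x₀ : X) (f : SingSimplex 0 (Quotient S) → ℤ)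
    (x : X) : FF hX S x₀ (coboundary 0 (Quotient S) f) x = f (pt (qm S x)) - f (pt (qm S x₀)) := by
  rw [FF, val, coboundary_seg]
  simp

variable {Γ : Type v} [Group Γ] (hX : IsCAT0 X) (Φ : Γ →* (X ≃ᵢ X)) (S : Setoid X)
  (hS : ∀ x y, S x y ↔ ∃ γ, Φ γ x = y)

include hS

theorem qm_smul (γ : Γ) (x : X) : qm S (Φ γ x) = qm S x :=
  (Quotient.sound ((hS x _).2 ⟨γ, rfl⟩)).symm

theorem qm_eq_iff (x y : X) : qm S x = qm S y ↔ ∃ γ, Φ γ x = y := by
  rw [← hS]
  exact Quotient.eq

theorem isOpenMap_qm : IsOpenMap (qm S) := by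
  intro U hU
  have h1 : IsOpen (Quotient.mk S ⁻¹' (qm S '' U)) ↔ IsOpen (qm S '' U) :=
    isQuotientMap_quotient_mk'.isOpen_preimage
  rw [← h1]
  have h2 : Quotient.mk S ⁻¹' (qm S '' U) = ⋃ γ : Γ, (Φ γ) '' U := by
    ext y
    simp only [mem_preimage, mem_image, mem_iUnion]
    constructor
    · rintro ⟨x, hx, hxy⟩
      obtain ⟨γ, hγ⟩ := (qm_eq_iff Φ S hS x y).1 hxy
      exact ⟨γ, x, hx, hγ⟩
    · rintro ⟨γ, x, hx, rfl⟩
      exact ⟨x, hx, (qm_smul Φ S hS γ x).symm⟩
  rw [h2]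
  exact isOpen_iUnion fun γ => (Φ γ).toHomeomorph.isOpenMap U hU

theorem FF_shift (x₀ : X) {c : SingSimplex 1 (Quotient S) → ℤ}
    (hc : coboundary 1 (Quotient S) c = 0) (γ : Γ) (x y : X) :
    FF hX S x₀ c (Φ γ x) - FF hX S x₀ c x = FF hX S x₀ c (Φ γ y) - FF hX S x₀ c y := by
  have h1 := FF_path hX S x₀ hc (ray hX x y)
  have h2 := FF_path hX S x₀ hc ((⟨Φ γ, (Φ γ).continuous⟩ : C(X, X)).comp (ray hX x y))
  have h3 : (qm S).comp ((⟨Φ γ, (Φ γ).continuous⟩ : C(X, X)).comp (ray hX x y)) =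
      (qm S).comp (ray hX x y) := by
    refine ContinuousMap.ext fun t => ?_
    exact qm_smul Φ S hS γ _
  rw [h3, h1] at h2
  simp only [ContinuousMap.comp_apply, ContinuousMap.coe_mk, ray_zero, ray_one] at h2
  linarith

/-- the homomorphism associated with a cocycle -/
noncomputable def Psi (x₀ : X) : (coboundary 1 (Quotient S)).ker →+ (Additive Γ →+ ℤ) where
  toFun c :=
    { toFun := fun γ => FF hX S x₀ c.1 (Φ γ.toMul x₀)
      map_zero' := by
        change FF hX S x₀ c.1 (Φ 1 x₀) = 0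
        rw [map_one]
        exact FF_self hX S x₀ c.2
      map_add' := by
        intro γ δ
        have h := FF_shift hX Φ S hS x₀ c.2 γ.toMul (Φ δ.toMul x₀) x₀
        rw [FF_self hX S x₀ c.2, sub_zero] at h
        change FF hX S x₀ c.1 (Φ (γ.toMul * δ.toMul) x₀) = _
        rw [map_mul]
        change FF hX S x₀ c.1 (Φ γ.toMul (Φ δ.toMul x₀)) = _
        linarith }
  map_zero' := by
    ext γ
    rfl
  map_add' := by
    intro c d
    ext γ
    rfl

theorem Psi_apply (x₀ : X) (c : (coboundary 1 (Quotient S)).ker) (γ : Additive Γ) :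
    Psi hX Φ S hS x₀ c γ = FF hX S x₀ c.1 (Φ γ.toMul x₀) := rfl

theorem Psi_coboundary (x₀ : X) (c : (coboundary 1 (Quotient S)).ker)
    (h : c.1 ∈ (coboundary 0 (Quotient S)).range) : Psi hX Φ S hS x₀ c = 0 := by
  obtain ⟨f, hf⟩ := h
  refine DFunLike.ext _ _ fun γ => ?_
  rw [Psi_apply, ← hf, FF_coboundary, qm_smul Φ S hS, sub_self]
  rfl

omit hS in
theorem coboundary_coboundary {B : Type*} [TopologicalSpace B] (f : SingSimplex 0 B → ℤ) :
    coboundary 1 B (coboundary 0 B f) = 0 := by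
  funext s
  rw [coboundary_one_apply, coboundary_zero_apply, coboundary_zero_apply, coboundary_zero_apply]
  have key : ∀ (i j : Fin 3) (k l : Fin 2), i.succAbove ∘ k.succAbove = j.succAbove ∘ l.succAbove →
      ((s.face i).face k : SingSimplex 0 B) = (s.face j).face l := by
    intro i j k l h
    refine ContinuousMap.ext fun w => ?_
    rw [face_apply, face_apply, face_apply, face_apply]
    change s (stdSimplex.map i.succAbove (stdSimplex.map k.succAbove w)) =
      s (stdSimplex.map j.succAbove (stdSimplex.map l.succAbove w))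
    rw [stdSimplex.map_comp_apply, stdSimplex.map_comp_apply]
    exact congrArg (fun g => s (stdSimplex.map g w)) h
  have e1 := key 0 1 0 0 (by decide)
  have e2 := key 0 2 1 0 (by decide)
  have e3 := key 1 2 1 1 (by decide)
  have e1' : ((s.face 0).face 0 : SingSimplex 0 B) = (s.face 1).face 0 := e1
  have e2' : ((s.face 0).face 1 : SingSimplex 0 B) = (s.face 2).face 0 := e2
  have e3' : ((s.face 1).face 1 : SingSimplex 0 B) = (s.face 2).face 1 := e3
  rw [e1', e2', e3']
  simp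

include hX in
/-- local triviality of cocycles which vanish on all paths coming from `X` -/
theorem local_trivial (hdisc : ∀ x : X, ∃ r > 0, ∀ γ, dist (Φ γ x) x < r → Φ γ x = x)
    {c : SingSimplex 1 (Quotient S) → ℤ} (hc : coboundary 1 (Quotient S) c = 0)
    (hv : ∀ p : C(ℝ, X), val c ((qm S).comp p) = 0) (b : Quotient S) :
    ∃ U : Set (Quotient S), IsOpen U ∧ b ∈ U ∧
      ∀ P : C(ℝ, Quotient S), (∀ t, P t ∈ U) → val c P = 0 := by
  obtain ⟨x, rfl⟩ : ∃ x, qm S x = b := Quotient.exists_rep b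
  obtain ⟨r, hr, hrx⟩ := hdisc x
  let V : Set X := Metric.ball x (r / 2)
  have hV : IsOpen V := Metric.isOpen_ball
  have hxV : x ∈ V := Metric.mem_ball_self (by positivity)
  let U : Set (Quotient S) := qm S '' V
  refine ⟨U, isOpenMap_qm Φ S hS V hV, ⟨x, hxV, rfl⟩, ?_⟩
  intro P hP
  -- the quotient map on the ball
  let g : V → U := fun y => ⟨qm S y.1, y.1, y.2, rfl⟩
  have hg : IsOpenQuotientMap g := by
    refine ⟨?_, ?_, ?_⟩
    · rintro ⟨_, y, hy, rfl⟩
      exact ⟨⟨y, hy⟩, rfl⟩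
    · exact ((qm S).continuous.comp continuous_subtype_val).subtype_mk _
    · exact ((isOpenMap_qm Φ S hS).domRestrict hV).subtype_mk _
  have hgq : IsQuotientMap (Prod.map g (id : ℝ → ℝ)) :=
    (hg.prodMap IsOpenQuotientMap.id).isQuotientMap
  let k : C(V × ℝ, Quotient S) := (qm S).comp ⟨fun z => geoR hX x z.1.1 z.2,
    (continuous_geoR hX).comp (continuous_const.prodMk
      ((continuous_subtype_val.comp continuous_fst).prodMk continuous_snd))⟩
  have hk : Function.FactorsThrough k (Prod.map g (id : ℝ → ℝ)) := by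
    rintro ⟨⟨y, hy⟩, t⟩ ⟨⟨y', hy'⟩, t'⟩ h
    simp only [Prod.map_apply, id, Prod.mk.injEq] at h
    obtain ⟨h1, rfl⟩ := h
    have h2 : qm S y = qm S y' := congrArg Subtype.val h1
    obtain ⟨γ, hγ⟩ := (qm_eq_iff Φ S hS y y').1 h2
    have h3 : Φ γ x = x := by
      apply hrx
      calc dist (Φ γ x) x ≤ dist (Φ γ x) (Φ γ y) + dist (Φ γ y) x := dist_triangle _ _ _
        _ = dist x y + dist y' x := by rw [(Φ γ).dist_eq, hγ]
        _ < r := by
          have h4 : dist y x < r / 2 := hy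
          have h5 : dist y' x < r / 2 := hy'
          rw [dist_comm x y]
          linarith
    change qm S (geoR hX x y t) = qm S (geoR hX x y' t)
    rw [← qm_smul Φ S hS γ (geoR hX x y t), map_geoR, h3, hγ]
  let K : C(U × ℝ, Quotient S) := hgq.lift (f := ⟨Prod.map g id, hgq.continuous⟩) k hk
  have hK : ∀ (y : V) (t : ℝ), K (g y, t) = qm S (geoR hX x y.1 t) := by
    intro y t
    have h := hgq.lift_comp (f := ⟨Prod.map g id, hgq.continuous⟩) k hk
    exact ContinuousMap.congr_fun h (y, t)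
  let h : C(ℝ × ℝ, Quotient S) := K.comp ⟨fun z => (⟨P z.1, hP z.1⟩, z.2),
    ((P.continuous.comp continuous_fst).subtype_mk _).prodMk continuous_snd⟩
  have hh : ∀ u : ℝ, ∃ y : V, qm S y.1 = P u ∧ ∀ t, h (u, t) = qm S (geoR hX x y.1 t) := by
    intro u
    obtain ⟨y, hy, hyu⟩ := hP u
    refine ⟨⟨y, hy⟩, hyu, fun t => ?_⟩
    rw [← hK ⟨y, hy⟩ t]
    change K (⟨P u, hP u⟩, t) = K (g ⟨y, hy⟩, t)
    congr 2
    exact Subtype.ext hyu.symm
  have h1 := square hc h (qm S x) (fun u => by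
    obtain ⟨y, _, hy⟩ := hh u
    rw [hy, geoR_zero])
  have h2 : h.comp ⟨fun u => (u, 1), by fun_prop⟩ = P := by
    refine ContinuousMap.ext fun u => ?_
    obtain ⟨y, hyu, hy⟩ := hh u
    change h (u, 1) = _
    rw [hy, geoR_one, hyu]
  have h3 : ∀ u : ℝ, val c (h.comp ⟨fun t => (u, t), by fun_prop⟩) = 0 := by
    intro u
    obtain ⟨y, hyu, hy⟩ := hh u
    have : h.comp ⟨fun t => (u, t), by fun_prop⟩ = (qm S).comp (ray hX x y.1) := by
      refine ContinuousMap.ext fun t => ?_
      exact hy t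
    rw [this]
    exact hv _
  rw [h2, h3, h3, sub_zero] at h1
  exact h1

theorem coboundary_of_Psi_eq_zero (x₀ : X)
    (hdisc : ∀ x : X, ∃ r > 0, ∀ γ, dist (Φ γ x) x < r → Φ γ x = x)
    (c : (coboundary 1 (Quotient S)).ker) (h : Psi hX Φ S hS x₀ c = 0) :
    c.1 ∈ (coboundary 0 (Quotient S)).range := by
  have hc : coboundary 1 (Quotient S) c.1 = 0 := c.2
  have hinv : ∀ (γ : Γ) (x : X), FF hX S x₀ c.1 (Φ γ x) = FF hX S x₀ c.1 x := by
    intro γ x
    have h1 := FF_shift hX Φ S hS x₀ hc γ x x₀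
    have h2 : FF hX S x₀ c.1 (Φ γ x₀) = 0 := by
      have := DFunLike.congr_fun h (Additive.ofMul γ)
      exact this
    rw [h2, FF_self hX S x₀ hc] at h1
    linarith
  let Fb : Quotient S → ℤ := Quotient.lift (FF hX S x₀ c.1) (by
    intro x y hxy
    obtain ⟨γ, rfl⟩ := (hS x y).1 hxy
    exact (hinv γ x).symm)
  have hFb : ∀ x, Fb (qm S x) = FF hX S x₀ c.1 x := fun x => rfl
  let f : SingSimplex 0 (Quotient S) → ℤ := fun s => Fb (s default)
  refine ⟨f, ?_⟩
  set c' : SingSimplex 1 (Quotient S) → ℤ := c.1 - coboundary 0 (Quotient S) f with hc'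
  have hcc : coboundary 1 (Quotient S) c' = 0 := by
    rw [hc', map_sub, hc, coboundary_coboundary, sub_zero]
  have hv : ∀ p : C(ℝ, X), val c' ((qm S).comp p) = 0 := by
    intro p
    have h1 := FF_path hX S x₀ hc p
    have h2 : val c' ((qm S).comp p) = val c.1 ((qm S).comp p) -
        coboundary 0 (Quotient S) f (seg ((qm S).comp p) 0 1) := rfl
    rw [h2, h1, coboundary_seg]
    change _ - (Fb (qm S (p 1)) - Fb (qm S (p 0))) = 0
    rw [hFb, hFb]
    ring
  have hall := val_eq_zero_of_local hcc (local_trivial hX Φ S hS hdisc hcc hv)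
  funext s
  have h3 := hall (s.comp param)
  rw [val, seg_param] at h3
  have h4 : c' s = c.1 s - coboundary 0 (Quotient S) f s := rfl
  rw [h4] at h3
  linarith

end Quot

end T56

end Pool.Agent.Lat
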