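import Pool.Agent.Lib_helper56.LatT2

/-!
# Equivariant real functions
-/

namespace Pool.Agent.Lat

open Set Topology

universe u v

namespace T56

section Equiv

variable {X : Type u} [MetricSpace X] {Γ : Type v} [Group Γ] (Φ : Γ →* (X ≃ᵢ X))

theorem infDist_orbit (x : X) (γ : Γ) (y : X) :
    Metric.infDist (Φ γ y) (range fun δ => Φ δ x) = Metric.infDist y (range fun δ => Φ δ x) := by
  have h : (Φ γ) '' (range fun δ => Φ δ x) = range fun δ => Φ δ x := by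
    ext z
    simp only [mem_image, mem_range, exists_exists_eq_and]
    constructor
    · rintro ⟨δ, rfl⟩
      exact ⟨γ * δ, by rw [map_mul]; rfl⟩
    · rintro ⟨δ, rfl⟩
      refine ⟨γ⁻¹ * δ, ?_⟩
      have : Φ δ = Φ γ * Φ (γ⁻¹ * δ) := by rw [← map_mul, mul_inv_cancel_left]
      rw [this]
      rfl
  conv_lhs => rw [← h]
  exact Metric.infDist_image (Φ γ).isometry

theorem local_piece (hdisc : ∀ x : X, ∃ r > 0, ∀ γ, dist (Φ γ x) x < r → Φ γ x = x)
    (φ : Additive Γ →+ ℤ) (hφ : ∀ (γ : Γ) (x : X), Φ γ x = x → φ (Additive.ofMul γ) = 0) (x : X) :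
    ∃ ρ G : X → ℝ, Continuous ρ ∧ Continuous G ∧ (∀ y, 0 ≤ ρ y) ∧ 0 < ρ x ∧
      (∀ γ y, ρ (Φ γ y) = ρ y) ∧ (∀ γ y, G (Φ γ y) = G y + φ (Additive.ofMul γ) * ρ y) := by
  classical
  obtain ⟨R, hR, hRx⟩ := hdisc x
  -- uniform discreteness of the orbit
  have hsep : ∀ γ δ : Γ, dist (Φ γ x) (Φ δ x) < R →
      φ (Additive.ofMul γ) = φ (Additive.ofMul δ) := by
    intro γ δ h
    have h1 : dist (Φ (δ⁻¹ * γ) x) x < R := by
      have h2 : dist (Φ (δ⁻¹ * γ) x) x = dist (Φ γ x) (Φ δ x) := by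
        rw [← (Φ δ).dist_eq (Φ (δ⁻¹ * γ) x) x]
        have : Φ γ = Φ δ * Φ (δ⁻¹ * γ) := by rw [← map_mul, mul_inv_cancel_left]
        rw [this]
        rfl
      rw [h2]
      exact h
    have h3 := hφ _ _ (hRx _ h1)
    rw [ofMul_mul, map_add, ofMul_inv, map_neg] at h3
    linarith
  let O : Set X := range fun δ => Φ δ x
  have hO : O.Nonempty := ⟨_, 1, rfl⟩
  let ρ : X → ℝ := fun y => max 0 (R / 4 - Metric.infDist y O)
  have hρc : Continuous ρ := continuous_const.max (continuous_const.sub (Metric.continuous_infDist_pt O))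
  have hρinv : ∀ γ y, ρ (Φ γ y) = ρ y := by
    intro γ y
    simp only [ρ, O]
    rw [infDist_orbit]
  let G : X → ℝ := fun y => if h : ∃ γ, dist y (Φ γ x) < R / 4 then
    (φ (Additive.ofMul h.choose) : ℝ) * ρ y else 0
  have hG1 : ∀ y γ, dist y (Φ γ x) < R / 4 → G y = φ (Additive.ofMul γ) * ρ y := by
    intro y γ h
    have hex : ∃ γ, dist y (Φ γ x) < R / 4 := ⟨γ, h⟩
    simp only [G]
    rw [dif_pos hex]
    have h1 := hex.choose_spec
    rw [hsep hex.choose γ]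
    calc dist (Φ hex.choose x) (Φ γ x) ≤ dist (Φ hex.choose x) y + dist y (Φ γ x) :=
          dist_triangle _ _ _
      _ < R := by rw [dist_comm (Φ hex.choose x) y]; linarith
  have hG2 : ∀ y, (¬ ∃ γ, dist y (Φ γ x) < R / 4) → ρ y = 0 ∧ G y = 0 := by
    intro y h
    refine ⟨?_, dif_neg h⟩
    simp only [ρ]
    apply max_eq_left
    rw [sub_nonpos]
    rw [Metric.le_infDist hO]
    rintro _ ⟨γ, rfl⟩
    exact not_lt.1 fun h1 => h ⟨γ, h1⟩
  refine ⟨ρ, G, hρc, ?_, fun y => le_max_left _ _, ?_, hρinv, ?_⟩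
  · rw [continuous_iff_continuousAt]
    intro y₀
    have hm : ∃ m : ℤ, ∀ y ∈ Metric.ball y₀ (R / 8), G y = m * ρ y := by
      by_cases hex : ∃ γ, dist y₀ (Φ γ x) < 3 * R / 8
      · obtain ⟨γ, hγ⟩ := hex
        refine ⟨φ (Additive.ofMul γ), fun y hy => ?_⟩
        by_cases h : ∃ δ, dist y (Φ δ x) < R / 4
        · obtain ⟨δ, hδ⟩ := h
          rw [hG1 y δ hδ, hsep δ γ]
          rw [Metric.mem_ball] at hy
          calc dist (Φ δ x) (Φ γ x) ≤ dist (Φ δ x) y + dist y y₀ + dist y₀ (Φ γ x) :=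
                dist_triangle4 _ _ _ _
            _ < R := by rw [dist_comm (Φ δ x) y]; linarith
        · rw [(hG2 y h).1, (hG2 y h).2, mul_zero]
      · refine ⟨0, fun y hy => ?_⟩
        have h : ¬ ∃ δ, dist y (Φ δ x) < R / 4 := by
          rintro ⟨δ, hδ⟩
          apply hex
          refine ⟨δ, ?_⟩
          rw [Metric.mem_ball] at hy
          calc dist y₀ (Φ δ x) ≤ dist y₀ y + dist y (Φ δ x) := dist_triangle _ _ _
            _ < 3 * R / 8 := by rw [dist_comm y₀ y]; linarith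
        rw [(hG2 y h).2]
        simp
    obtain ⟨m, hm⟩ := hm
    have h1 : ContinuousAt (fun y => (m : ℝ) * ρ y) y₀ :=
      (continuous_const.mul hρc).continuousAt
    refine h1.congr ?_
    filter_upwards [Metric.ball_mem_nhds y₀ (show 0 < R / 8 by positivity)] with y hy
    exact (hm y hy).symm
  · have : Metric.infDist x O = 0 := by
      apply Metric.infDist_zero_of_mem
      exact ⟨1, by simp⟩
    simp only [ρ]
    rw [this]
    apply lt_max_of_lt_right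
    linarith
  · intro γ y
    by_cases h : ∃ δ, dist y (Φ δ x) < R / 4
    · obtain ⟨δ, hδ⟩ := h
      have h1 : dist (Φ γ y) (Φ (γ * δ) x) < R / 4 := by
        rw [map_mul]
        change dist (Φ γ y) (Φ γ (Φ δ x)) < R / 4
        rw [(Φ γ).dist_eq]
        exact hδ
      rw [hG1 _ _ h1, hG1 _ _ hδ, hρinv, ofMul_mul, map_add]
      push_cast
      ring
    · have h1 : ¬ ∃ δ, dist (Φ γ y) (Φ δ x) < R / 4 := by
        rintro ⟨δ, hδ⟩
        apply h
        refine ⟨γ⁻¹ * δ, ?_⟩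
        rw [← (Φ γ).dist_eq]
        have : Φ δ = Φ γ * Φ (γ⁻¹ * δ) := by rw [← map_mul, mul_inv_cancel_left]
        rw [this] at hδ
        exact hδ
      rw [(hG2 _ h1).2, (hG2 _ h).2, (hG2 _ h).1]
      simp

theorem exists_equivariant (hdisc : ∀ x : X, ∃ r > 0, ∀ γ, dist (Φ γ x) x < r → Φ γ x = x)
    (hcoc : ∃ Q : Set X, IsCompact Q ∧ ∀ x, ∃ γ, Φ γ x ∈ Q)
    (φ : Additive Γ →+ ℤ) (hφ : ∀ (γ : Γ) (x : X), Φ γ x = x → φ (Additive.ofMul γ) = 0) :
    ∃ F : X → ℝ, Continuous F ∧ ∀ γ x, F (Φ γ x) = F x + φ (Additive.ofMul γ) := by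
  classical
  choose ρ G hρc hGc hρ0 hρx hρinv hGinv using local_piece Φ hdisc φ hφ
  obtain ⟨Q, hQ, hQc⟩ := hcoc
  obtain ⟨t, _, ht⟩ := hQ.elim_nhds_subcover (fun x => {y | 0 < ρ x y}) (fun x _ =>
    (isOpen_lt continuous_const (hρc x)).mem_nhds (hρx x))
  have hpos : ∀ y, 0 < ∑ x ∈ t, ρ x y := by
    intro y
    obtain ⟨γ, hγ⟩ := hQc y
    obtain ⟨x, hx, hxy⟩ := mem_iUnion₂.1 (ht hγ)
    have h1 : 0 < ρ x y := by
      have h2 : 0 < ρ x (Φ γ y) := hxy
      rwa [hρinv] at h2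
    exact Finset.sum_pos' (fun i _ => hρ0 i y) ⟨x, hx, h1⟩
  refine ⟨fun y => (∑ x ∈ t, G x y) / ∑ x ∈ t, ρ x y, ?_, ?_⟩
  · exact (continuous_finsetSum _ fun x _ => hGc x).div
      (continuous_finsetSum _ fun x _ => hρc x) (fun y => (hpos y).ne')
  · intro γ y
    have h1 : ∑ x ∈ t, G x (Φ γ y) = ∑ x ∈ t, G x y + φ (Additive.ofMul γ) * ∑ x ∈ t, ρ x y := by
      rw [Finset.mul_sum, ← Finset.sum_add_distrib]
      exact Finset.sum_congr rfl fun x _ => hGinv x γ y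
    have h2 : ∑ x ∈ t, ρ x (Φ γ y) = ∑ x ∈ t, ρ x y :=
      Finset.sum_congr rfl fun x _ => hρinv x γ y
    simp only
    rw [h1, h2, add_div, mul_div_cancel_right₀ _ (hpos y).ne']

end Equiv

end T56

end Pool.Agent.Lat
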