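import Pool.Agent.Lib_helper39.TP.Defs

/-!
# MP_3b4c52_gt, block A : pointwise algebra of the second fundamental form
-/

set_option autoImplicit false

open Module Metric Set Filter Topology
open scoped ContDiff RealInnerProductSpace

namespace Pool.Agent.TP

namespace BlkA

/-- index condition, without topology -/
def IC {V : Type*} [AddCommGroup V] [Module ℝ V] (d : ℕ) (q : V → ℝ) : Prop :=
  ∀ W₁ W₂ : Submodule ℝ V, finrank ℝ W₁ + finrank ℝ W₂ = 2 * d →
    (∀ u ∈ W₁, u ≠ 0 → q u < 0) → (∀ u ∈ W₂, u ≠ 0 → 0 < q u) →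
    finrank ℝ W₁ = 0 ∨ finrank ℝ W₁ = d ∨ finrank ℝ W₁ = 2 * d

section IP

set_option linter.unusedSectionVars false

variable {V : Type*} [NormedAddCommGroup V] [InnerProductSpace ℝ V] [FiniteDimensional ℝ V]

/-- span of a part of an orthonormal basis -/
lemma finrank_span_part {n : ℕ} (e : OrthonormalBasis (Fin n) ℝ V) (s : Finset (Fin n)) :
    finrank ℝ (Submodule.span ℝ (e '' (s : Set (Fin n)))) = s.card := by
  classical
  have h : LinearIndependent ℝ (fun i : s => e i) :=
    e.orthonormal.linearIndependent.comp _ Subtype.val_injective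
  have h2 := finrank_span_eq_card h
  rw [Fintype.card_coe] at h2
  have h3 : (e '' (s : Set (Fin n))) = Set.range fun i : s => e i := by
    rw [Set.image_eq_range]; rfl
  rw [h3, h2]

lemma mem_span_part {n : ℕ} (e : OrthonormalBasis (Fin n) ℝ V) (s : Finset (Fin n)) {u : V} :
    u ∈ Submodule.span ℝ (e '' (s : Set (Fin n))) ↔ ∀ i, i ∉ s → ⟪e i, u⟫ = 0 := by
  classical
  have h : (e '' (s : Set (Fin n))) = (e.toBasis '' (s : Set (Fin n))) := by
    rw [OrthonormalBasis.coe_toBasis]
  rw [h, Module.Basis.mem_span_image]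
  constructor
  · intro hsub i hi
    have : i ∉ (e.toBasis.repr u).support := fun hc => hi (by exact_mod_cast hsub hc)
    rw [Finsupp.notMem_support_iff, OrthonormalBasis.coe_toBasis_repr_apply,
      OrthonormalBasis.repr_apply_apply] at this
    exact this
  · intro hz i hi
    by_contra hc
    have := hz i (by exact_mod_cast hc)
    rw [Finset.mem_coe, Finsupp.mem_support_iff, OrthonormalBasis.coe_toBasis_repr_apply,
      OrthonormalBasis.repr_apply_apply] at hi
    exact hi this

lemma norm_sq_basis {n : ℕ} (e : OrthonormalBasis (Fin n) ℝ V) (u : V) :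
    ⟪u, u⟫ = ∑ i, ⟪e i, u⟫ ^ 2 := by
  rw [← e.sum_inner_mul_inner u u]
  refine Finset.sum_congr rfl fun i _ => ?_
  rw [real_inner_comm, sq]

lemma quad_basis {n : ℕ} (e : OrthonormalBasis (Fin n) ℝ V) {A : V →ₗ[ℝ] V} (hA : A.IsSymmetric)
    {l : Fin n → ℝ} (he : ∀ i, A (e i) = l i • e i) (u : V) :
    ⟪A u, u⟫ = ∑ i, l i * ⟪e i, u⟫ ^ 2 := by
  rw [← e.sum_inner_mul_inner (A u) u]
  refine Finset.sum_congr rfl fun i _ => ?_
  rw [hA u (e i), he, inner_smul_right, real_inner_comm, sq]
  ring

/-- the counting function of the eigenvalues takes values in `{0, d, 2d}` -/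
lemma count {d : ℕ} (e : OrthonormalBasis (Fin (2 * d)) ℝ V) {A : V →ₗ[ℝ] V}
    (hA : A.IsSymmetric) {l : Fin (2 * d) → ℝ} (he : ∀ i, A (e i) = l i • e i)
    (hI : ∀ t : ℝ, IC d (fun u => ⟪A u, u⟫ - t * ⟪u, u⟫)) (t : ℝ) (ht : ∀ i, l i ≠ t) :
    (Finset.univ.filter fun i => l i < t).card = 0 ∨
    (Finset.univ.filter fun i => l i < t).card = d ∨
    (Finset.univ.filter fun i => l i < t).card = 2 * d := by
  classical
  set s₁ := Finset.univ.filter fun i => l i < t with hs₁
  set s₂ := Finset.univ.filter fun i => t < l i with hs₂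
  have hcard : s₁.card + s₂.card = 2 * d := by
    have h1 : s₂ = Finset.univ.filter fun i => ¬ l i < t := by
      ext i
      simp only [hs₂, Finset.mem_filter, Finset.mem_univ, true_and, not_lt]
      exact ⟨fun h => h.le, fun h => lt_of_le_of_ne h (ht i).symm⟩
    rw [h1, hs₁, Finset.card_filter_add_card_filter_not, Finset.card_univ, Fintype.card_fin]
  have hq : ∀ u : V, ⟪A u, u⟫ - t * ⟪u, u⟫ = ∑ i, (l i - t) * ⟪e i, u⟫ ^ 2 := by
    intro u
    rw [quad_basis e hA he, norm_sq_basis e u, Finset.mul_sum, ← Finset.sum_sub_distrib]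
    refine Finset.sum_congr rfl fun i _ => ?_
    ring
  have hne : ∀ u : V, u ≠ 0 → ∃ i, ⟪e i, u⟫ ≠ 0 := by
    intro u hu
    by_contra hcon
    push Not at hcon
    apply hu
    rw [← inner_self_eq_zero (𝕜 := ℝ), norm_sq_basis e u]
    exact Finset.sum_eq_zero fun i _ => by rw [hcon i]; simp
  have := hI t (Submodule.span ℝ (e '' (s₁ : Set (Fin (2 * d)))))
    (Submodule.span ℝ (e '' (s₂ : Set (Fin (2 * d)))))
    (by rw [finrank_span_part, finrank_span_part, hcard]) ?_ ?_
  · rwa [finrank_span_part] at this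
  · intro u hu hu0
    rw [mem_span_part] at hu
    obtain ⟨i, hi⟩ := hne u hu0
    change ⟪A u, u⟫ - t * ⟪u, u⟫ < 0
    rw [hq u]
    have hi1 : i ∈ s₁ := by
      by_contra hc
      exact hi (hu i hc)
    apply Finset.sum_neg' 
    · intro j _
      by_cases hj : j ∈ s₁
      · rw [hs₁, Finset.mem_filter] at hj
        exact mul_nonpos_of_nonpos_of_nonneg (by linarith [hj.2]) (sq_nonneg _)
      · rw [hu j hj]; simp
    · refine ⟨i, Finset.mem_univ _, ?_⟩
      rw [hs₁, Finset.mem_filter] at hi1
      exact mul_neg_of_neg_of_pos (by linarith [hi1.2]) (by positivity)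
  · intro u hu hu0
    rw [mem_span_part] at hu
    obtain ⟨i, hi⟩ := hne u hu0
    change 0 < ⟪A u, u⟫ - t * ⟪u, u⟫
    rw [hq u]
    have hi1 : i ∈ s₂ := by
      by_contra hc
      exact hi (hu i hc)
    apply Finset.sum_pos'
    · intro j _
      by_cases hj : j ∈ s₂
      · rw [hs₂, Finset.mem_filter] at hj
        exact mul_nonneg (by linarith [hj.2]) (sq_nonneg _)
      · rw [hu j hj]; simp
    · refine ⟨i, Finset.mem_univ _, ?_⟩
      rw [hs₂, Finset.mem_filter] at hi1
      exact mul_pos (by linarith [hi1.2]) (by positivity)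

/-- multiplicities are at least `d` -/
lemma mult {d : ℕ} (l : Fin (2 * d) → ℝ)
    (hc : ∀ t : ℝ, (∀ i, l i ≠ t) → (Finset.univ.filter fun i => l i < t).card = 0 ∨
      (Finset.univ.filter fun i => l i < t).card = d ∨
      (Finset.univ.filter fun i => l i < t).card = 2 * d) (i : Fin (2 * d)) :
    d ≤ (Finset.univ.filter fun j => l j = l i).card := by
  classical
  obtain ⟨ε, hε, hgap⟩ : ∃ ε > 0, ∀ j, l j ≠ l i → ε < |l j - l i| := by
    set s := (Finset.univ.filter fun j => l j ≠ l i).image fun j => |l j - l i| with hs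
    rcases s.eq_empty_or_nonempty with h | h
    · refine ⟨1, one_pos, fun j hj => ?_⟩
      exfalso
      have : |l j - l i| ∈ s := by
        rw [hs, Finset.mem_image]
        exact ⟨j, Finset.mem_filter.2 ⟨Finset.mem_univ _, hj⟩, rfl⟩
      rw [h] at this
      exact absurd this (Finset.notMem_empty _)
    · obtain ⟨j, hj, hm⟩ := Finset.mem_image.1 (s.min'_mem h)
      rw [Finset.mem_filter] at hj
      have h0 : 0 < s.min' h := by
        rw [← hm]
        exact abs_pos.2 (sub_ne_zero.2 hj.2)
      refine ⟨s.min' h / 2, by positivity, fun k hk => ?_⟩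
      have : s.min' h ≤ |l k - l i| := by
        apply s.min'_le
        rw [hs, Finset.mem_image]
        exact ⟨k, Finset.mem_filter.2 ⟨Finset.mem_univ _, hk⟩, rfl⟩
      linarith
  have h1 : ∀ j, l j ≠ l i + ε := by
    intro j hj
    by_cases hji : l j = l i
    · rw [hji] at hj; linarith
    · have := hgap j hji
      rw [hj] at this
      rw [add_sub_cancel_left, abs_of_pos hε] at this
      exact lt_irrefl _ this
  have h2 : ∀ j, l j ≠ l i - ε := by
    intro j hj
    by_cases hji : l j = l i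
    · rw [hji] at hj; linarith
    · have := hgap j hji
      rw [hj] at this
      rw [show l i - ε - l i = -ε by ring, abs_neg, abs_of_pos hε] at this
      exact lt_irrefl _ this
  have c1 := hc _ h1
  have c2 := hc _ h2
  have hsplit : (Finset.univ.filter fun j => l j < l i + ε).card =
      (Finset.univ.filter fun j => l j < l i - ε).card +
      (Finset.univ.filter fun j => l j = l i).card := by
    rw [← Finset.card_union_of_disjoint]
    · congr 1
      ext j
      simp only [Finset.mem_union, Finset.mem_filter, Finset.mem_univ, true_and]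
      constructor
      · intro h
        by_cases hji : l j = l i
        · exact Or.inr hji
        · left
          have := hgap j hji
          rcases lt_abs.1 this with h3 | h3 <;> linarith
      · rintro (h | h)
        · linarith
        · rw [h]; linarith
    · rw [Finset.disjoint_left]
      intro j hj hj'
      rw [Finset.mem_filter] at hj hj'
      linarith [hj.2, hj'.2]
  have hpos : 0 < (Finset.univ.filter fun j => l j = l i).card :=
    Finset.card_pos.2 ⟨i, Finset.mem_filter.2 ⟨Finset.mem_univ _, rfl⟩⟩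
  rcases c1 with c1 | c1 | c1 <;> rcases c2 with c2 | c2 | c2 <;> omega

/-- spectral structure -/
theorem spec_ip {d : ℕ} (hd : 1 ≤ d) (hV : finrank ℝ V = 2 * d) (A : V →ₗ[ℝ] V)
    (hA : A.IsSymmetric) (hI : ∀ t : ℝ, IC d (fun u => ⟪A u, u⟫ - t * ⟪u, u⟫)) :
    ∃ l₁ l₂ : ℝ, l₁ ≤ l₂ ∧ (∀ u, A (A u) - (l₁ + l₂) • A u + (l₁ * l₂) • u = 0) ∧
      LinearMap.trace ℝ V A = d * (l₁ + l₂) ∧
      (l₁ < l₂ → finrank ℝ (LinearMap.ker (A - l₁ • LinearMap.id)) = d ∧
        finrank ℝ (LinearMap.ker (A - l₂ • LinearMap.id)) = d) := by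
  classical
  set e := hA.eigenvectorBasis hV with hedef
  set l := hA.eigenvalues hV with hldef
  have he : ∀ i, A (e i) = l i • e i := fun i => hA.apply_eigenvectorBasis hV i
  have hc := count e hA he hI
  have hm := mult l hc
  obtain ⟨i₁, -, hi₁⟩ := Finset.exists_min_image Finset.univ l ⟨⟨0, by omega⟩, Finset.mem_univ _⟩
  obtain ⟨i₂, -, hi₂⟩ := Finset.exists_max_image Finset.univ l ⟨⟨0, by omega⟩, Finset.mem_univ _⟩
  have hle : l i₁ ≤ l i₂ := hi₁ i₂ (Finset.mem_univ _)
  -- the multiplicities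
  have hmult : l i₁ < l i₂ → (Finset.univ.filter fun j => l j = l i₁).card = d ∧
      (Finset.univ.filter fun j => l j = l i₂).card = d ∧ ∀ j, l j = l i₁ ∨ l j = l i₂ := by
    intro hlt
    have hdis : Disjoint (Finset.univ.filter fun j => l j = l i₁)
        (Finset.univ.filter fun j => l j = l i₂) := by
      rw [Finset.disjoint_left]
      intro j hj hj'
      rw [Finset.mem_filter] at hj hj'
      linarith [hj.2, hj'.2]
    have h1 := hm i₁
    have h2 := hm i₂
    have h3 := Finset.card_union_of_disjoint hdis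
    have h4 : ((Finset.univ.filter fun j => l j = l i₁) ∪
        (Finset.univ.filter fun j => l j = l i₂)).card ≤ 2 * d := by
      refine (Finset.card_le_univ _).trans ?_
      rw [Fintype.card_fin]
    have h5 : ((Finset.univ.filter fun j => l j = l i₁) ∪
        (Finset.univ.filter fun j => l j = l i₂)) = Finset.univ := by
      apply Finset.eq_univ_of_card
      rw [Fintype.card_fin]
      omega
    refine ⟨by omega, by omega, fun j => ?_⟩
    have : j ∈ ((Finset.univ.filter fun j => l j = l i₁) ∪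
        (Finset.univ.filter fun j => l j = l i₂)) := by rw [h5]; exact Finset.mem_univ _
    rw [Finset.mem_union, Finset.mem_filter, Finset.mem_filter] at this
    rcases this with h | h
    · exact Or.inl h.2
    · exact Or.inr h.2
  have hall : ∀ j, l j = l i₁ ∨ l j = l i₂ := by
    rcases hle.lt_or_eq with h | h
    · exact (hmult h).2.2
    · intro j
      left
      exact le_antisymm ((hi₂ j (Finset.mem_univ _)).trans h.ge) (hi₁ j (Finset.mem_univ _))
  refine ⟨l i₁, l i₂, hle, ?_, ?_, ?_⟩
  · -- the quadratic equation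
    have hlin : (A.comp A - (l i₁ + l i₂) • A + (l i₁ * l i₂) • LinearMap.id : V →ₗ[ℝ] V) = 0 := by
      apply e.toBasis.ext
      intro i
      rw [OrthonormalBasis.coe_toBasis]
      simp only [LinearMap.add_apply, LinearMap.sub_apply, LinearMap.comp_apply,
        LinearMap.smul_apply, LinearMap.id_apply, LinearMap.zero_apply]
      rw [he, LinearMap.map_smul, he, smul_smul, smul_smul, ← sub_smul, ← add_smul]
      have : l i * l i - (l i₁ + l i₂) * l i + l i₁ * l i₂ = 0 := by
        rcases hall i with h | h <;> rw [h] <;> ring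
      rw [this, zero_smul]
    intro u
    have := congrArg (fun f : V →ₗ[ℝ] V => f u) hlin
    simpa using this
  · -- the trace
    rw [LinearMap.trace_eq_sum_inner A e]
    have h1 : ∀ i, ⟪e i, A (e i)⟫ = l i := by
      intro i
      rw [he, inner_smul_right, real_inner_self_eq_norm_sq, e.norm_eq_one]
      ring
    rw [Finset.sum_congr rfl (fun i _ => h1 i)]
    rcases hle.lt_or_eq with h | h
    · obtain ⟨m1, m2, m3⟩ := hmult h
      have h2 : ∀ i, l i = (if l i = l i₁ then l i₁ else 0) + (if l i = l i₂ then l i₂ else 0) := by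
        intro i
        rcases m3 i with h3 | h3
        · rw [if_pos h3, if_neg (by rw [h3]; exact h.ne), add_zero, h3]
        · rw [if_neg (by rw [h3]; exact h.ne'), if_pos h3, zero_add, h3]
      rw [Finset.sum_congr rfl (fun i _ => h2 i), Finset.sum_add_distrib, ← Finset.sum_filter,
        ← Finset.sum_filter, Finset.sum_const, Finset.sum_const, m1, m2, nsmul_eq_mul, nsmul_eq_mul]
      ring
    · have h2 : ∀ i, l i = l i₁ := by
        intro i
        rcases hall i with h3 | h3
        · exact h3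
        · rw [h3, h]
      rw [Finset.sum_congr rfl (fun i _ => h2 i), Finset.sum_const, Finset.card_univ,
        Fintype.card_fin, nsmul_eq_mul, ← h]
      push_cast
      ring
  · intro hlt
    obtain ⟨m1, m2, m3⟩ := hmult hlt
    have key : ∀ c : ℝ, LinearMap.ker (A - c • LinearMap.id) =
        Submodule.span ℝ (e '' ((Finset.univ.filter fun j => l j = c : Finset (Fin (2 * d))) :
          Set (Fin (2 * d)))) := by
      intro c
      ext u
      rw [mem_span_part, LinearMap.mem_ker, LinearMap.sub_apply, LinearMap.smul_apply,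
        LinearMap.id_apply]
      have hinner : ∀ i, ⟪e i, A u - c • u⟫ = (l i - c) * ⟪e i, u⟫ := by
        intro i
        rw [inner_sub_right, inner_smul_right, ← hA, he, real_inner_smul_left]
        ring
      constructor
      · intro h i hi
        have h1 := hinner i
        rw [h, inner_zero_right] at h1
        rw [Finset.mem_filter] at hi
        have h2 : l i - c ≠ 0 := fun h3 => hi ⟨Finset.mem_univ _, by linarith⟩
        rcases mul_eq_zero.1 h1.symm with h3 | h3
        · exact absurd h3 h2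
        · exact h3
      · intro h
        rw [← inner_self_eq_zero (𝕜 := ℝ), norm_sq_basis e]
        apply Finset.sum_eq_zero
        intro i _
        rw [hinner]
        by_cases hi : l i = c
        · rw [hi]; simp
        · rw [h i (by rw [Finset.mem_filter]; exact fun h3 => hi h3.2)]; simp
    rw [key, key, finrank_span_part, finrank_span_part]
    exact ⟨m1, m2⟩

end IP

section Cor

set_option linter.style.haveILetI false

variable {V : Type*} [AddCommGroup V] [Module ℝ V]

/-- inner product from a positive definite form -/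
@[reducible] noncomputable def core (b : V →ₗ[ℝ] V →ₗ[ℝ] ℝ) (hs : ∀ u v, b u v = b v u)
    (hp : ∀ u, u ≠ 0 → 0 < b u u) : InnerProductSpace.Core ℝ V where
  inner u v := b u v
  conj_inner_symm u v := by
    change b v u = b u v
    exact hs v u
  re_inner_nonneg u := by
    change 0 ≤ b u u
    by_cases h : u = 0
    · rw [h]; simp
    · exact (hp u h).le
  add_left u v w := by
    change b (u + v) w = b u w + b v w
    simp
  smul_left u v c := by
    change b (c • u) v = c * b u v
    simp
  definite u h := by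
    by_contra hu
    exact (hp u hu).ne' h

variable [FiniteDimensional ℝ V]

theorem spec {d : ℕ} (hd : 1 ≤ d) (hV : finrank ℝ V = 2 * d) (b : V →ₗ[ℝ] V →ₗ[ℝ] ℝ)
    (hs : ∀ u v, b u v = b v u) (hp : ∀ u, u ≠ 0 → 0 < b u u) (A : V →ₗ[ℝ] V)
    (hA : ∀ u v, b (A u) v = b u (A v)) (hI : ∀ t : ℝ, IC d (fun u => b (A u) u - t * b u u)) :
    ∃ l₁ l₂ : ℝ, l₁ ≤ l₂ ∧ (∀ u, A (A u) - (l₁ + l₂) • A u + (l₁ * l₂) • u = 0) ∧
      LinearMap.trace ℝ V A = d * (l₁ + l₂) ∧
      (l₁ < l₂ → finrank ℝ (LinearMap.ker (A - l₁ • LinearMap.id)) = d ∧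
        finrank ℝ (LinearMap.ker (A - l₂ • LinearMap.id)) = d) := by
  letI c := core b hs hp
  letI : NormedAddCommGroup V := c.toNormedAddCommGroup
  letI : InnerProductSpace ℝ V := InnerProductSpace.ofCore c.toCore
  exact spec_ip hd hV A (fun u v => hA u v) hI

/-- orthonormal basis of a positive definite form -/
theorem exists_onb {n : ℕ} (hV : finrank ℝ V = n) (b : V →ₗ[ℝ] V →ₗ[ℝ] ℝ)
    (hs : ∀ u v, b u v = b v u) (hp : ∀ u, u ≠ 0 → 0 < b u u) :
    ∃ v : Module.Basis (Fin n) ℝ V, ∀ i j, b (v i) (v j) = if i = j then 1 else 0 := by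
  letI c := core b hs hp
  letI : NormedAddCommGroup V := c.toNormedAddCommGroup
  letI : InnerProductSpace ℝ V := InnerProductSpace.ofCore c.toCore
  have e : OrthonormalBasis (Fin n) ℝ V := (stdOrthonormalBasis ℝ V).reindex (finCongr hV)
  refine ⟨e.toBasis, fun i j => ?_⟩
  have := orthonormal_iff_ite.1 e.orthonormal i j
  rw [OrthonormalBasis.coe_toBasis]
  exact this

end Cor

end BlkA

open BlkA in
/-- (A1) For `A = e⁻¹ (η ∘ B)`, `e = η₀ ∘ B > 0`: `A` is either scalar or has exactly two
eigenvalues, both of multiplicity `d`. -/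
theorem op_identity {T Y : Type} [NormedAddCommGroup T] [NormedSpace ℝ T] [FiniteDimensional ℝ T]
    [NormedAddCommGroup Y] [NormedSpace ℝ Y] [FiniteDimensional ℝ Y]
    {d : ℕ} (hd : 1 ≤ d) {B : T →L[ℝ] T →L[ℝ] Y} (h : PtData d B)
    (η₀ : Y →L[ℝ] ℝ) (hη₀ : ∀ u, u ≠ 0 → 0 < η₀ (B u u)) (η : Y →L[ℝ] ℝ)
    (A : T →L[ℝ] T) (hA : ∀ u v, η₀ (B (A u) v) = η (B u v)) :
    ∃ l₁ l₂ : ℝ, l₁ ≤ l₂ ∧ (∀ u, A (A u) - (l₁ + l₂) • A u + (l₁ * l₂) • u = 0) ∧
      LinearMap.trace ℝ T (A : T →ₗ[ℝ] T) = d * (l₁ + l₂) ∧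
      (l₁ < l₂ → finrank ℝ (LinearMap.ker ((A : T →ₗ[ℝ] T) - l₁ • LinearMap.id)) = d ∧
        finrank ℝ (LinearMap.ker ((A : T →ₗ[ℝ] T) - l₂ • LinearMap.id)) = d) := by
  let b : T →ₗ[ℝ] T →ₗ[ℝ] ℝ := LinearMap.mk₂ ℝ (fun u v => η₀ (B u v))
    (by intro a b c; simp) (by intro c a b; simp) (by intro a b c; simp) (by intro c a b; simp)
  have hb : ∀ u v, b u v = η₀ (B u v) := fun u v => rfl
  have hs : ∀ u v, b u v = b v u := fun u v => by rw [hb, hb, h.symm]
  have hsym : ∀ u v, b ((A : T →ₗ[ℝ] T) u) v = b u ((A : T →ₗ[ℝ] T) v) := by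
    intro u v
    rw [hs u, hb, hb]
    change η₀ (B (A u) v) = η₀ (B (A v) u)
    rw [hA, hA, h.symm]
  refine spec hd h.finT b hs hη₀ (A : T →ₗ[ℝ] T) hsym fun t => ?_
  have h1 := h.index (η - t • η₀)
  intro W₁ W₂ h2 h3 h4
  have key : ∀ u, b ((A : T →ₗ[ℝ] T) u) u - t * b u u = (η - t • η₀) (B u u) := by
    intro u
    rw [hb, hb]
    change η₀ (B (A u) u) - t * η₀ (B u u) = η (B u u) - t * η₀ (B u u)
    rw [hA]
  exact h1 W₁ W₂ h2 (fun u hu hu0 => lt_of_eq_of_lt (key u).symm (h3 u hu hu0))
    (fun u hu hu0 => lt_of_lt_of_eq (h4 u hu hu0) (key u))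

end Pool.Agent.TP
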